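import Pool.Agent.H61.AB.Xch

/-!
# [H61 AB Du] ABUNDANCE (MP_e49dc9_ag), (H4): the dual of the integral closure for the trace has bounded poles

`dual_bd`: PROOF.  `A = Algebra.adjoin F {x}`, `K₀ = F⟮x⟯`, `B = BB F x`.  Take a basis of `κ / K₀` of elements of `B` (Mathlib: `FiniteDimensional.exists_is_basis_integral` for `A`, `K₀`, `κ`), `d ≠ 0` its discriminant, an element of `K₀` which is
integral over `A`, so in `A` (`Algebra.discr_isIntegral`, `IsIntegrallyClosed`).  For `y` with all `trace (b y) ∈ A`: `d y` is integral over `A` (`isIntegral_discr_mul_of_mem_traceDual` of `Mathlib/RingTheory/DedekindDomain/Different.lean`), so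
`d y ∈ B ⊆ w.R` (`bb_mem`), `ord y ≥ - ord d =: -C`.  (`RX F x (tr F x (b * y))` says that the trace is in `A`: `Algebra.adjoin_singleton_eq_range_aeval`, injectivity of `K₀ → κ`.)
-/

set_option autoImplicit false

open scoped IntermediateField

namespace Pool.Agent.H61.AB

open Pool.Agent.H54.RV Pool.Agent.H83.TU

variable {F κ : Type} [Field F] [Field κ] [Algebra F κ]

open scoped IntermediateField.algebraAdjoinAdjoin in
theorem dual_bd [CharZero F] (htr : Algebra.trdeg F κ = 1) (hfg : (⊤ : IntermediateField F κ).FG) {x : κ}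
    (hx : Transcendental F x) (w : Place F κ) (hw : x ∈ w.R) :
    ∃ C : ℤ, ∀ y : κ, y ≠ 0 → (∀ b ∈ BB F x, RX F x (tr F x (b * y))) → -C ≤ w.ord y := by
  classical
  have h1 := a3_fin htr hfg x hx
  have h2 := a3_pid x hx
  have h4 : CharZero F⟮x⟯ := charZero_of_injective_algebraMap (algebraMap F F⟮x⟯).injective
  have h5 : Algebra.IsSeparable F⟮x⟯ κ := inferInstance
  obtain ⟨s, b, hb⟩ := FiniteDimensional.exists_is_basis_integral (Algebra.adjoin F {x}) F⟮x⟯ κ
  have hd0 : Algebra.discr F⟮x⟯ b ≠ 0 := Algebra.discr_not_zero_of_basis _ b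
  have hd1 : algebraMap F⟮x⟯ κ (Algebra.discr F⟮x⟯ b) ≠ 0 := fun h => hd0 ((map_eq_zero _).1 h)
  refine ⟨w.ord (algebraMap F⟮x⟯ κ (Algebra.discr F⟮x⟯ b)), fun y hy h => ?_⟩
  have h6 : IsIntegral (Algebra.adjoin F {x}) (Algebra.discr F⟮x⟯ b • (1 : κ) * y) := by
    refine isIntegral_discr_mul_of_mem_traceDual (B := BB F x) (1 : Submodule (BB F x) κ) hb
      (Submodule.mem_one.2 ⟨1, map_one _⟩) ?_
    rw [Submodule.mem_traceDual]
    intro a ha
    obtain ⟨a, rfl⟩ := Submodule.mem_one.1 ha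
    obtain ⟨p, hp⟩ := h a a.2
    refine ⟨⟨Polynomial.aeval x p, ?_⟩, ?_⟩
    · rw [Algebra.adjoin_singleton_eq_range_aeval]
      exact ⟨p, rfl⟩
    · refine (algebraMap F⟮x⟯ κ).injective ?_
      rw [← IsScalarTower.algebraMap_apply]
      rw [Algebra.traceForm_apply, mul_comm]
      exact hp.symm
  have h7 : algebraMap F⟮x⟯ κ (Algebra.discr F⟮x⟯ b) * y ∈ w.R := by
    refine bb_mem (x := x) ?_ w hw
    rw [Algebra.smul_def, mul_one] at h6
    exact h6
  rw [← ord_nonneg w _ (mul_ne_zero hd1 hy), ord_mul w _ _ hd1 hy] at h7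
  omega

end Pool.Agent.H61.AB
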