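import Pool.Agent.H61.AB.Def

/-!
# [H61 AB Nq] ABUNDANCE (MP_e49dc9_ag), (H4): a module over the polynomials

`nq`: if all `x ^ n z` are sums of a polynomial in `x` and of a quotient of degree `≤ -2`, then `z` is a polynomial in `x`.
PROOF.  `z = p₀(x) + z₁`, `z₁ q(x) = p(x)`, `deg p + 2 ≤ deg q`.  If `p = 0` then `z₁ = 0` (`q(x) ≠ 0`, `x` is transcendental).  Otherwise `r := natDegree q - natDegree p ≥ 2`; `x ^ (r - 1) z = a(x) + z₂`, `z₂ q₂(x) = p₂(x)`, `deg p₂ + 2 ≤ deg q₂`.
So `(X ^ (r - 1) p q₂ - p₂ q)(x) = (a - X ^ (r - 1) p₀)(x) (q q₂)(x)`, an identity of polynomials as `x` is transcendental.  The left side has degree exactly `natDegree q + natDegree q₂ - 1` (the first product has this degree, the second a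
smaller one), the right side is `0` or has degree `≥ natDegree q + natDegree q₂`: contradiction.
-/

set_option autoImplicit false

open scoped IntermediateField

namespace Pool.Agent.H61.AB

open Pool.Agent.H54.RV Pool.Agent.H83.TU

variable {F κ : Type} [Field F] [Field κ] [Algebra F κ]

theorem nq {x : κ} (hx : Transcendental F x) (z : κ)
    (h : ∀ n : ℕ, ∃ z₀ z₁ : κ, RX F x z₀ ∧ D2 F x z₁ ∧ x ^ n * z = z₀ + z₁) : RX F x z := by
  have hinj : Function.Injective (Polynomial.aeval x : Polynomial F →ₐ[F] κ) := transcendental_iff_injective.1 hx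
  obtain ⟨z₀, z₁, ⟨p₀, rfl⟩, ⟨p, q, hq, hpq, hz⟩, h0⟩ := h 0
  rw [pow_zero, one_mul] at h0
  have hqx : Polynomial.aeval x q ≠ 0 := by
    intro h1
    rw [← map_zero (Polynomial.aeval x : Polynomial F →ₐ[F] κ)] at h1
    exact hq (hinj h1)
  by_cases hp : p = 0
  · rw [hp, map_zero] at hz
    have h1 := (mul_eq_zero.1 hz).resolve_right hqx
    exact ⟨p₀, by rw [h0, h1, add_zero]⟩
  exfalso
  rw [Polynomial.degree_eq_natDegree hp, Polynomial.degree_eq_natDegree hq] at hpq
  have hpq' : p.natDegree + 2 ≤ q.natDegree := by exact_mod_cast hpq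
  obtain ⟨_, z₂, ⟨a, rfl⟩, ⟨p₂, q₂, hq₂, hpq₂, hz₂⟩, h1⟩ := h (q.natDegree - p.natDegree - 1)
  obtain ⟨r, hr⟩ : ∃ r, r = q.natDegree - p.natDegree - 1 := ⟨_, rfl⟩
  rw [← hr] at h1
  have key : Polynomial.X ^ r * p * q₂ - p₂ * q = (a - Polynomial.X ^ r * p₀) * (q * q₂) := by
    apply hinj
    rw [map_sub, map_mul, map_mul, map_mul, map_mul, map_mul, map_sub, map_mul, map_pow, Polynomial.aeval_X,
      ← hz, ← hz₂]
    rw [h0] at h1
    linear_combination (Polynomial.aeval x q) * (Polynomial.aeval x q₂) * h1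
  have hX : (Polynomial.X ^ r * p * q₂ : Polynomial F) ≠ 0 :=
    mul_ne_zero (mul_ne_zero (pow_ne_zero _ Polynomial.X_ne_zero) hp) hq₂
  have hd : (Polynomial.X ^ r * p * q₂ : Polynomial F).degree = ((r + p.natDegree + q₂.natDegree : ℕ) : WithBot ℕ) := by
    rw [Polynomial.degree_eq_natDegree hX, Polynomial.natDegree_mul
      (mul_ne_zero (pow_ne_zero _ Polynomial.X_ne_zero) hp) hq₂,
      Polynomial.natDegree_mul (pow_ne_zero _ Polynomial.X_ne_zero) hp, Polynomial.natDegree_X_pow]
  have hlt : (p₂ * q).degree < (Polynomial.X ^ r * p * q₂ : Polynomial F).degree := by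
    rw [hd]
    by_cases hp₂ : p₂ = 0
    · rw [hp₂, zero_mul, Polynomial.degree_zero]
      exact WithBot.bot_lt_coe _
    · rw [Polynomial.degree_eq_natDegree hp₂, Polynomial.degree_eq_natDegree hq₂] at hpq₂
      have h3 : p₂.natDegree + 2 ≤ q₂.natDegree := by exact_mod_cast hpq₂
      rw [Polynomial.degree_eq_natDegree (mul_ne_zero hp₂ hq), Polynomial.natDegree_mul hp₂ hq]
      have h4 : p₂.natDegree + q.natDegree < r + p.natDegree + q₂.natDegree := by omega
      exact_mod_cast h4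
  have h5 := Polynomial.degree_sub_eq_left_of_degree_lt hlt
  rw [key, hd] at h5
  by_cases ha : a - Polynomial.X ^ r * p₀ = 0
  · rw [ha, zero_mul, Polynomial.degree_zero] at h5
    exact WithBot.bot_ne_coe h5
  · rw [Polynomial.degree_eq_natDegree (mul_ne_zero ha (mul_ne_zero hq hq₂)),
      Polynomial.natDegree_mul ha (mul_ne_zero hq hq₂), Polynomial.natDegree_mul hq hq₂] at h5
    have h6 : (a - Polynomial.X ^ r * p₀).natDegree + (q.natDegree + q₂.natDegree) =
        r + p.natDegree + q₂.natDegree := by exact_mod_cast h5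
    omega

end Pool.Agent.H61.AB
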