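import Pool.Agent.H61.AB.TrG

/-!
# [H61 AB TrI] ABUNDANCE (MP_e49dc9_ag), (H4): the trace of a section of `α`, places at infinity

`tr_inf`: `g * α w ∈ w.R` at the places `w` with `x ∉ w.R`: the trace of `g / δ x` has degree `≤ -2` in `x`.
PROOF.  `T := x⁻¹`, transcendental, `F⟮T⟯ = F⟮x⟯` (`a3_eq`), so `tr F T y = tr F x y` (transport along the equality of the fields).  `δ T = - T ^ 2 δ x` (`δ x ≠ 0`: `ram` at a place over a zero of `T`... or: if `δ x = 0` the quotient is `0`: trivial).
So `g / δ x = - T ^ 2 (g / δ T)`, `tr F x (g / δ x) = - T ^ 2 tr F T (g / δ T)`.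
CLAIM: there is `s ∈ F[X]`, `s(0) ≠ 0`, with `s(T) tr F T (g / δ T) = a(T)`, `a ∈ F[X]`.  `s` := the product of large powers of the irreducible polynomials `m ≠ X` (up to constants), `m(T)` of positive order at one of the finitely many places
`w`, `T ∈ w.R`, at which `g * α w ∉ w.R` (`hα.fin`, `fin_ordD`).  At such a place `ord T ≤ 0` (if `ord T > 0` then `x ∉ w.R` and `g * α w ∈ w.R` by `hg`), `T ∈ w.R`, so `ord T = 0`; there is an irreducible polynomial `m` with `ord m(T) > 0` (the
residue field of `w` is finite over `F`: `deg_pos`; the minimal polynomial of the class of `T`), `m(0) ≠ 0`.  Then `g s(T) * α w ∈ w.R` for all `w` with `T ∈ w.R`, and `tr_fg` for `T` and `g s(T)`, and `tr_pmul`.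
So `tr F x (g / δ x) * x ^ 2 * s(T) = - a(T)`; multiply by `x ^ N`, `N = max (natDegree s) (natDegree a)`: `q := X ^ 2 * (X ^ N s(1/X))` (a reverse polynomial times a power of `X`), of degree exactly `N + 2` since `s(0) ≠ 0`, `p := - X ^ N a(1/X)` of
degree `≤ N` (`Polynomial.reverse`, `Polynomial.reflect N`, `Polynomial.eval₂_reflect_mul_pow`).
-/

set_option autoImplicit false

open scoped IntermediateField

namespace Pool.Agent.H61.AB

open Pool.Agent.H54.RV Pool.Agent.H83.TU

variable {F κ : Type} [Field F] [Field κ] [Algebra F κ]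

private theorem tri_poly (w : Place F κ) {T : κ} (hT : T ∈ w.R) (m : Polynomial F) :
    Polynomial.aeval T m ∈ w.R := by
  induction m using Polynomial.induction_on' with
  | add p q hp hq =>
    rw [map_add]
    exact w.R.add_mem _ _ hp hq
  | monomial n c =>
    rw [Polynomial.aeval_monomial]
    exact w.R.mul_mem _ _ (w.mem c) (pow_mem hT n)

private theorem tri_min [CharZero F] (htr : Algebra.trdeg F κ = 1) (hfg : (⊤ : IntermediateField F κ).FG)
    {T : κ} (hTt : Transcendental F T) (w : Place F κ) (hT : T ∈ w.R) (h0 : w.ord T = 0) :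
    ∃ m : Polynomial F, m.coeff 0 ≠ 0 ∧ Polynomial.aeval T m ≠ 0 ∧ 0 < w.ord (Polynomial.aeval T m) := by
  have hT0 : T ≠ 0 := by
    rintro rfl
    exact hTt isAlgebraic_zero
  have hd := deg_pos htr hfg w
  unfold deg at hd
  have hf : Module.Finite F (IsLocalRing.ResidueField w.R) := Module.finite_of_finrank_pos hd
  set c : IsLocalRing.ResidueField w.R := algebraMap w.R _ ⟨T, hT⟩ with hc
  have hi : IsIntegral F c := Algebra.IsIntegral.isIntegral c
  have hc0 : c ≠ 0 := by
    intro h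
    have h1 : (⟨T, hT⟩ : w.R) ∈ IsLocalRing.maximalIdeal w.R := by
      rw [← IsLocalRing.residue_eq_zero_iff]
      exact h
    rw [pf2_max w T hT hT0, h0] at h1
    exact lt_irrefl _ h1
  have hm0 : minpoly F c ≠ 0 := minpoly.ne_zero hi
  have hne : Polynomial.aeval T (minpoly F c) ≠ 0 := by
    intro h
    exact hTt ⟨minpoly F c, hm0, h⟩
  refine ⟨minpoly F c, minpoly.coeff_zero_ne_zero hi hc0, hne, ?_⟩
  have h1 : algebraMap w.R (IsLocalRing.ResidueField w.R) (Polynomial.aeval (⟨T, hT⟩ : w.R) (minpoly F c)) = 0 := by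
    rw [← Polynomial.aeval_algebraMap_apply, ← hc]
    exact minpoly.aeval F c
  have h2 : algebraMap w.R κ (Polynomial.aeval (⟨T, hT⟩ : w.R) (minpoly F c)) = Polynomial.aeval T (minpoly F c) := by
    rw [← Polynomial.aeval_algebraMap_apply]
    rfl
  have h3 : Polynomial.aeval T (minpoly F c) ∈ w.R := tri_poly w hT _
  rw [← pf2_max w _ h3 hne, ← IsLocalRing.residue_eq_zero_iff]
  have h4 : (⟨Polynomial.aeval T (minpoly F c), h3⟩ : w.R) = Polynomial.aeval (⟨T, hT⟩ : w.R) (minpoly F c) :=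
    Subtype.ext h2.symm
  rw [h4]
  exact h1

private theorem tri_pow (w : Place F κ) (a : κ) (ha : a ≠ 0) (n : ℕ) : w.ord (a ^ n) = n * w.ord a := by
  induction n with
  | zero => rw [pow_zero, ord_one]; simp
  | succ n ih =>
    rw [pow_succ, ord_mul w _ _ (pow_ne_zero _ ha) ha, ih]
    push_cast
    ring

private theorem tri_congr {L L' : IntermediateField F κ} (h : L = L') (y : κ) :
    algebraMap L κ (Algebra.trace L κ y) = algebraMap L' κ (Algebra.trace L' κ y) := by
  subst h
  rfl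

/-- the polynomial which kills the poles at the finite places of `T` -/
private theorem tri_s [CharZero F] (htr : Algebra.trdeg F κ = 1) (hfg : (⊤ : IntermediateField F κ).FG)
    {T : κ} (hTt : Transcendental F T) {α : Place F κ → κ} (hα : Dv α) (g : κ)
    (hg : ∀ w : Place F κ, 0 < w.ord T → g * α w ∈ w.R) :
    ∃ s : Polynomial F, s.coeff 0 ≠ 0 ∧ ∀ w : Place F κ, T ∈ w.R → g * Polynomial.aeval T s * α w ∈ w.R := by
  classical
  have hT0 : T ≠ 0 := by
    rintro rfl
    exact hTt isAlgebraic_zero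
  by_cases hg0 : g = 0
  · refine ⟨1, by simp, fun w _ => ?_⟩
    rw [hg0, zero_mul, zero_mul]
    exact w.R.zero_mem
  have hfin : {w : Place F κ | T ∈ w.R ∧ g * α w ∉ w.R}.Finite := by
    refine (hα.fin.union (fin_ordD htr hfg g hg0)).subset ?_
    rintro w ⟨-, hw⟩
    by_contra hcon
    rw [Set.mem_union, not_or, Set.mem_ofPred_eq, Set.mem_ofPred_eq, not_not, not_not] at hcon
    apply hw
    rw [← ord_nonneg w _ (mul_ne_zero hg0 (hα.ne w)), ord_mul w _ _ hg0 (hα.ne w), hcon.1, hcon.2]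
    exact le_rfl
  have hm : ∀ w : Place F κ, ∃ m : Polynomial F, m.coeff 0 ≠ 0 ∧ Polynomial.aeval T m ≠ 0 ∧
      (T ∈ w.R → g * α w ∉ w.R → 0 < w.ord (Polynomial.aeval T m)) := by
    intro w
    by_cases hw : T ∈ w.R ∧ g * α w ∉ w.R
    · have h1 : w.ord T = 0 := by
        have h2 : 0 ≤ w.ord T := (ord_nonneg w T hT0).2 hw.1
        have h3 : ¬ 0 < w.ord T := fun h => hw.2 (hg w h)
        omega
      obtain ⟨m, h2, h3, h4⟩ := tri_min htr hfg hTt w hw.1 h1
      exact ⟨m, h2, h3, fun _ _ => h4⟩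
    · refine ⟨1, by simp, by simp, fun h1 h2 => absurd ⟨h1, h2⟩ hw⟩
  choose m hm0 hm1 hm2 using hm
  refine ⟨∏ w ∈ hfin.toFinset, m w ^ (-w.ord (g * α w)).toNat, ?_, ?_⟩
  · rw [Polynomial.coeff_zero_eq_eval_zero, Polynomial.eval_prod, Finset.prod_ne_zero_iff]
    intro w _
    rw [Polynomial.eval_pow, ← Polynomial.coeff_zero_eq_eval_zero]
    exact pow_ne_zero _ (hm0 w)
  · intro w hTw
    by_cases hw : g * α w ∈ w.R
    · have e : g * Polynomial.aeval T (∏ w ∈ hfin.toFinset, m w ^ (-w.ord (g * α w)).toNat) * α w =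
          (g * α w) * Polynomial.aeval T (∏ w ∈ hfin.toFinset, m w ^ (-w.ord (g * α w)).toNat) := by ring
      rw [e]
      exact w.R.mul_mem _ _ hw (tri_poly w hTw _)
    · have hmem : w ∈ hfin.toFinset := by
        rw [Set.Finite.mem_toFinset]
        exact ⟨hTw, hw⟩
      rw [← Finset.mul_prod_erase _ _ hmem, map_mul, map_pow]
      have e : g * (Polynomial.aeval T (m w) ^ (-w.ord (g * α w)).toNat *
          Polynomial.aeval T (∏ x ∈ hfin.toFinset.erase w, m x ^ (-x.ord (g * α x)).toNat)) * α w =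
          ((g * α w) * Polynomial.aeval T (m w) ^ (-w.ord (g * α w)).toNat) *
          Polynomial.aeval T (∏ x ∈ hfin.toFinset.erase w, m x ^ (-x.ord (g * α x)).toNat) := by ring
      rw [e]
      refine w.R.mul_mem _ _ ?_ (tri_poly w hTw _)
      have hga : g * α w ≠ 0 := mul_ne_zero hg0 (hα.ne w)
      have hmp : Polynomial.aeval T (m w) ^ (-w.ord (g * α w)).toNat ≠ 0 := pow_ne_zero _ (hm1 w)
      rw [← ord_nonneg w _ (mul_ne_zero hga hmp), ord_mul w _ _ hga hmp, tri_pow w _ (hm1 w)]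
      have h1 := hm2 w hTw hw
      have h2 : (-w.ord (g * α w)) ≤ ((-w.ord (g * α w)).toNat : ℤ) := Int.self_le_toNat _
      have h3 : (0 : ℤ) ≤ ((-w.ord (g * α w)).toNat : ℤ) := Int.natCast_nonneg _
      nlinarith

theorem tr_inf [CharZero F] (htr : Algebra.trdeg F κ = 1) (hfg : (⊤ : IntermediateField F κ).FG) {x : κ}
    (hx : Transcendental F x) (δ : Derivation F κ κ) {α : Place F κ → κ} (hα : Dv α) (hδ : Dual δ α) (g : κ)
    (hg : ∀ w : Place F κ, x ∉ w.R → g * α w ∈ w.R) : D2 F x (tr F x (g / δ x)) := by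
  by_cases hδx : δ x = 0
  · refine ⟨0, 1, one_ne_zero, ?_, ?_⟩
    · rw [Polynomial.degree_zero, WithBot.bot_add]
      exact bot_le
    · unfold tr
      rw [hδx, div_zero, map_zero, map_zero, map_zero, zero_mul]
  have hx0 : x ≠ 0 := by
    rintro rfl
    exact hx isAlgebraic_zero
  obtain ⟨T, hT⟩ : ∃ T : κ, T = x⁻¹ := ⟨_, rfl⟩
  have hT0 : T ≠ 0 := by
    rw [hT]
    exact inv_ne_zero hx0
  have hTt : Transcendental F T := by
    intro h
    apply hx
    have h1 := h.inv
    rwa [hT, inv_inv] at h1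
  have hxT : x * T = 1 := by
    rw [hT, mul_inv_cancel₀ hx0]
  have hδT : δ T = -(T ^ 2 * δ x) := by
    rw [hT, Derivation.leibniz_inv, smul_eq_mul, inv_pow]
    ring
  have hδT0 : δ T ≠ 0 := by
    rw [hδT]
    exact neg_ne_zero.2 (mul_ne_zero (pow_ne_zero _ hT0) hδx)
  have htr' : ∀ y : κ, tr F x y = tr F T y := by
    intro y
    unfold tr
    refine tri_congr ?_ y
    rw [hT]
    exact (Pool.Agent.H54.RV.a3_eq x).symm
  obtain ⟨s, hs0, hs⟩ := tri_s htr hfg hTt hα g (by
    intro w hw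
    apply hg
    intro h1
    have h2 := (ord_nonneg w x hx0).2 h1
    rw [hT, ord_inv] at hw
    omega)
  obtain ⟨a, ha⟩ := tr_fg htr hfg hTt δ hα hδ (g * Polynomial.aeval T s) (fun w hw => hs w hw)
  have e1 : g * Polynomial.aeval T s / δ T = Polynomial.aeval T s * (g / δ T) := by ring
  rw [e1, tr_pmul] at ha
  have e2 : g / δ x = Polynomial.aeval T (-(Polynomial.X ^ 2) : Polynomial F) * (g / δ T) := by
    rw [map_neg, map_pow, Polynomial.aeval_X, hδT]
    have hT2 : T ^ 2 ≠ 0 := pow_ne_zero _ hT0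
    field_simp
  have e3 : tr F x (g / δ x) = -T ^ 2 * tr F T (g / δ T) := by
    rw [htr', e2, tr_pmul, map_neg, map_pow, Polynomial.aeval_X]
  have e4 : tr F x (g / δ x) * Polynomial.aeval T s = -T ^ 2 * Polynomial.aeval T a := by
    rw [e3, ← ha]
    ring
  obtain ⟨N, hN⟩ : ∃ N, N = max s.natDegree a.natDegree := ⟨_, rfl⟩
  have hNs : s.natDegree ≤ N := by rw [hN]; exact le_max_left _ _
  have hNa : a.natDegree ≤ N := by rw [hN]; exact le_max_right _ _
  have hrev : ∀ f : Polynomial F, f.natDegree ≤ N → Polynomial.aeval x (Polynomial.reflect N f) * T ^ N = Polynomial.aeval T f := by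
    intro f hf
    letI : Invertible T := invertibleOfNonzero hT0
    have h1 := Polynomial.eval₂_reflect_mul_pow (algebraMap F κ) T N f hf
    have h2 : (⅟T : κ) = x := by
      rw [invOf_eq_inv, hT, inv_inv]
    rw [h2] at h1
    exact h1
  refine ⟨-Polynomial.reflect N a, Polynomial.X ^ 2 * Polynomial.reflect N s, ?_, ?_, ?_⟩
  · intro h
    have h1 : (Polynomial.X ^ 2 * Polynomial.reflect N s).coeff (N + 2) = 0 := by
      rw [h, Polynomial.coeff_zero]
    rw [Polynomial.coeff_X_pow_mul, Polynomial.coeff_reflect, Polynomial.revAt_le le_rfl, Nat.sub_self] at h1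
    exact hs0 h1
  · have h1 : ((N + 2 : ℕ) : WithBot ℕ) ≤ (Polynomial.X ^ 2 * Polynomial.reflect N s).degree := by
      apply Polynomial.le_degree_of_ne_zero
      rw [Polynomial.coeff_X_pow_mul, Polynomial.coeff_reflect, Polynomial.revAt_le le_rfl, Nat.sub_self]
      exact hs0
    have h2 : (-Polynomial.reflect N a).degree ≤ (N : WithBot ℕ) := by
      rw [Polynomial.degree_neg, Polynomial.degree_le_iff_coeff_zero]
      intro i hi
      have hi' : N < i := by exact_mod_cast hi
      rw [Polynomial.coeff_reflect, Polynomial.revAt_eq_self_of_lt hi']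
      exact Polynomial.coeff_eq_zero_of_natDegree_lt (lt_of_le_of_lt hNa hi')
    calc (-Polynomial.reflect N a).degree + 2 ≤ (N : WithBot ℕ) + 2 := add_le_add_left h2 2
      _ = ((N + 2 : ℕ) : WithBot ℕ) := by push_cast; rfl
      _ ≤ _ := h1
  · rw [map_mul, map_pow, Polynomial.aeval_X, map_neg]
    have hTN : T ^ N ≠ 0 := pow_ne_zero _ hT0
    apply mul_right_cancel₀ hTN
    have h1 := hrev s hNs
    have h2 := hrev a hNa
    calc tr F x (g / δ x) * (x ^ 2 * Polynomial.aeval x (Polynomial.reflect N s)) * T ^ N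
        = x ^ 2 * (tr F x (g / δ x) * (Polynomial.aeval x (Polynomial.reflect N s) * T ^ N)) := by ring
      _ = x ^ 2 * (-T ^ 2 * Polynomial.aeval T a) := by rw [h1, e4]
      _ = -((x * T) ^ 2 * Polynomial.aeval T a) := by ring
      _ = -(Polynomial.aeval x (Polynomial.reflect N a) * T ^ N) := by rw [hxT, one_pow, one_mul, h2]
      _ = -Polynomial.aeval x (Polynomial.reflect N a) * T ^ N := by ring

end Pool.Agent.H61.AB
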