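import Pool.Agent.H61.AB.Fd
import Pool.Agent.H61.AB.TrI
import Pool.Agent.H61.AB.Nq
import Pool.Agent.H61.AB.Du

/-!
# [H61 AB Drp] ABUNDANCE (MP_e49dc9_ag), (H4): the drop

`h1_drop`: `κ / F` a function field of one variable, characteristic `0`, `δ` a derivation whose dual differential has divisor `≥ α`, `β` effective, not `0`: `dim L(α + j β) ≤ dim L(α) + j deg β - 1` for large `j`.
PROOF.  Otherwise, by `bdj`, there are arbitrarily large `j` with `dim L(α + j β) = dim L(α) + j deg β` (*).  `x` from `xch` for `S = {w | ord (β w) ≠ 0}`.  `M_j := LS (x ∈ w.R) (α β ^ j)`, stable under the multiplication by `BB F x` (`bb_mem`).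
CLAIM: for `j` with (*) and `g ∈ M_j` the trace of `g / δ x` is a polynomial in `x`.  `nq`: `x ^ n g ∈ M_j`; by `sur` (`P w := x ∈ w.R`, `γ = β ^ j`) `x ^ n g = l + m`, `l ∈ LD (α β ^ j)`, `m ∈ LS (x ∈ w.R) α`; `tr_fg` for `m`; `tr_inf` for `l` (at the places with
`x ∉ w.R` the element `β w` is a unit, so `l * α w ∈ w.R`); `tr_add`, `tr_pmul` (`x ^ n g / δ x`).
So for `j` with (*), `g ∈ M_j`, `b ∈ BB F x`: `tr (b (g / δ x))` is a polynomial; `dual_bd` at `w₁` with `ord (β w₁) > 0` (`w₁ ∈ S`): `ord (g / δ x) ≥ -C` for `g ≠ 0`, `C` independent of `j`.  `ex_g` for `ε = α β ^ j`: `g ∈ M_j` with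
`ord g = - ord (α w₁) - j ord (β w₁)`: contradiction for large `j` (`δ x ≠ 0`: `ram` at `w₁` with the minimal polynomial of the class of `x`, or `hδ` and the chain rule).
-/

set_option autoImplicit false

open scoped IntermediateField

namespace Pool.Agent.H61.AB

open Pool.Agent.H54.RV Pool.Agent.H83.TU

variable {F κ : Type} [Field F] [Field κ] [Algebra F κ]

/-- the trace of `g / δ x` is a polynomial in `x` if the bound for the dimension is attained -/
private theorem drp_claim [CharZero F] (htr : Algebra.trdeg F κ = 1) (hfg : (⊤ : IntermediateField F κ).FG)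
    {α β : Place F κ → κ} (hα : Dv α) (hβ : Dv β) (hβR : ∀ w : Place F κ, β w ∈ w.R)
    (δ : Derivation F κ κ) (hδ : Dual δ α) {x : κ} (hx : Transcendental F x)
    (hxS : ∀ w : Place F κ, w.ord (β w) ≠ 0 → x ∈ w.R) (j : ℕ)
    (heq : (Module.finrank F (LD fun w => α w * β w ^ j) : ℤ) = Module.finrank F (LD α) + j * dD β) (g : κ)
    (hg : g ∈ LS (fun w : Place F κ => x ∈ w.R) fun w => α w * β w ^ j) : RX F x (tr F x (g / δ x)) := by
  refine nq hx _ fun n => ?_
  have h1 : x ^ n * g ∈ LS (fun w : Place F κ => x ∈ w.R) fun w => α w * β w ^ j := by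
    rw [mem_LS]
    intro w hw
    rw [mul_assoc]
    exact w.R.mul_mem _ _ (pow_mem hw n) ((mem_LS _ _ g).1 hg w hw)
  have hR : ∀ w : Place F κ, β w ^ j ∈ w.R := fun w => pow_mem (hβR w) j
  have hP : ∀ w : Place F κ, w.ord (β w ^ j) ≠ 0 → x ∈ w.R := by
    intro w hw
    refine hxS w fun h0 => hw ?_
    obtain ⟨h2, h3⟩ := (ord_eq_zero w (β w) (hβ.ne w)).1 h0
    refine (ord_eq_zero w _ (pow_ne_zero j (hβ.ne w))).2 ⟨pow_mem h2 j, ?_⟩
    rw [← inv_pow]
    exact pow_mem h3 j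
  have heq' : (Module.finrank F (LD fun w => α w * β w ^ j) : ℤ) =
      Module.finrank F (LD α) + dD fun w => β w ^ j := by
    rw [heq, dD_pow hβ j]
  obtain ⟨l, hl, hgl⟩ := sur htr hfg (fun w : Place F κ => x ∈ w.R) hα (hβ.pow j) hR hP heq' (x ^ n * g) h1
  refine ⟨tr F x ((x ^ n * g - l) / δ x), tr F x (l / δ x), ?_, ?_, ?_⟩
  · exact tr_fg htr hfg hx δ hα hδ _ fun w hw => (mem_LS _ _ _).1 hgl w hw
  · refine tr_inf htr hfg hx δ hα hδ l fun w hw => ?_
    have h0 : w.ord (β w) = 0 := by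
      by_contra h0
      exact hw (hxS w h0)
    obtain ⟨-, h3⟩ := (ord_eq_zero w (β w) (hβ.ne w)).1 h0
    have h4 : l * α w = l * (α w * β w ^ j) * (β w)⁻¹ ^ j := by
      rw [inv_pow]
      have := pow_ne_zero j (hβ.ne w)
      field_simp
    rw [h4]
    exact w.R.mul_mem _ _ ((mem_LD _ _).1 hl w) (pow_mem h3 j)
  · rw [← tr_add, ← add_div, sub_add_cancel, mul_div_assoc]
    have h5 := tr_pmul (F := F) x (Polynomial.X ^ n) (g / δ x)
    rw [map_pow, Polynomial.aeval_X] at h5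
    exact h5.symm

theorem h1_drop [CharZero F] (htr : Algebra.trdeg F κ = 1) (hfg : (⊤ : IntermediateField F κ).FG)
    {α β : Place F κ → κ} (hα : Dv α) (hβ : Dv β) (hβR : ∀ w : Place F κ, β w ∈ w.R) (hβn : ∃ w : Place F κ, 0 < w.ord (β w))
    (δ : Derivation F κ κ) (hδ : Dual δ α) :
    ∃ j₁ : ℕ, ∀ j ≥ j₁, (Module.finrank F (LD fun w => α w * β w ^ j) : ℤ) + 1 ≤
      Module.finrank F (LD α) + j * dD β := by
  by_contra hcon
  push Not at hcon
  obtain ⟨x, hx, hxS⟩ := xch htr hfg {w : Place F κ | w.ord (β w) ≠ 0} hβ.fin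
  have hxS' : ∀ w : Place F κ, w.ord (β w) ≠ 0 → x ∈ w.R := fun w hw => hxS w hw
  obtain ⟨w₁, hw₁⟩ := hβn
  have hxw : x ∈ w₁.R := hxS' w₁ (ne_of_gt hw₁)
  have hδx : δ x ≠ 0 := by
    have h1 : Transcendental F x⁻¹ := by
      intro h
      have h2 := h.inv
      rw [inv_inv] at h2
      exact hx h2
    obtain ⟨p, hp⟩ := exists_pole htr hfg x⁻¹ h1
    obtain ⟨π, -, hπ⟩ := ord_unif p
    refine (ram htr hfg δ p π hπ (hδ p π hπ).1 x Polynomial.X Polynomial.irreducible_X ?_).1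
    rw [Polynomial.aeval_X]
    rw [ord_inv] at hp
    omega
  obtain ⟨C, hC⟩ := dual_bd htr hfg hx w₁ hxw
  obtain ⟨j, hj, hjlt⟩ := hcon (C - w₁.ord (α w₁) - w₁.ord (δ x) + 1).toNat
  have heq : (Module.finrank F (LD fun w => α w * β w ^ j) : ℤ) = Module.finrank F (LD α) + j * dD β := by
    have := bdj htr hfg hα hβ hβR j
    omega
  have hε : Dv fun w => α w * β w ^ j := hα.mul (hβ.pow j)
  obtain ⟨g, hg0, hg1, hg2⟩ := ex_g htr hfg hx w₁ hxw hε
  have h3 : ∀ b ∈ BB F x, RX F x (tr F x (b * (g / δ x))) := by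
    intro b hb
    rw [← mul_div_assoc]
    refine drp_claim htr hfg hα hβ hβR δ hδ hx hxS' j heq (b * g) ?_
    rw [mem_LS]
    intro w hw
    rw [mul_assoc]
    exact w.R.mul_mem _ _ (bb_mem hb w hw) (hg2 w hw)
  have h4 := hC (g / δ x) (div_ne_zero hg0 hδx) h3
  rw [div_eq_mul_inv, ord_mul w₁ g _ hg0 (inv_ne_zero hδx), ord_inv] at h4
  have h5 : w₁.ord (β w₁ ^ j) = j * w₁.ord (β w₁) := by
    clear * - hβ
    induction j with
    | zero => simp [ord_one]
    | succ n ih =>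
      rw [pow_succ, ord_mul w₁ _ _ (pow_ne_zero n (hβ.ne w₁)) (hβ.ne w₁), ih]
      push_cast
      ring
  rw [ord_mul w₁ g _ hg0 (hε.ne w₁), ord_mul w₁ _ _ (hα.ne w₁) (pow_ne_zero j (hβ.ne w₁)), h5] at hg1
  have h6 : (j : ℤ) ≤ j * w₁.ord (β w₁) := by
    have : (0 : ℤ) ≤ j := Int.natCast_nonneg j
    nlinarith
  have h7 : C - w₁.ord (α w₁) - w₁.ord (δ x) + 1 ≤ j :=
    (Int.self_le_toNat _).trans (by exact_mod_cast hj)
  linarith

end Pool.Agent.H61.AB
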