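import Pool.Agent.H61.AB.Cs2
import Pool.Agent.H61.AB.Drp

/-!
# [H61 AB Cs3] ABUNDANCE (MP_e49dc9_ag), (H4): the drop on a normal curve

`cs_drop`: `h1_drop` (Drp.lean) for a normal curve: `cs_sec`, `cs_deg`, `cs_dv` (`cq h (D * E ^ j) = fun w => cq h D w * cq h E w ^ j` by `mul_eq`, `pow_eq` of
H54/RV/Grp), `K_fg` (H83/TU/RA) for the finite generation, `Crv.tr`; some `ord (β.eq) > 0` because `0 < dg β = dD (cq h β)`.
-/

set_option autoImplicit false

namespace Pool.Agent.H61.AB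

open Pool.Agent.H54.RV Pool.Agent.H83.TU Pool.Agent.H83.AY Pool.Agent.H41.TK

variable {F κ : Type} [Field F] [Field κ] [Algebra F κ] {C : Mod F κ}

theorem cs_drop [CharZero F] (h : Crv C) (hN : Nml C) (α β : Cart C) (hβ : Effective β) (h0 : 0 < dg β)
    (δ : Derivation F κ κ) (hδ : Dual δ (cq h α)) :
    ∃ j₁ : ℕ, ∀ j ≥ j₁, (Pool.Agent.H83.TU.h0 (α * β ^ j) 1 : ℤ) + 1 ≤ Pool.Agent.H83.TU.h0 α 1 + j * dg β := by
  have hmul : ∀ j : ℕ, cq h (α * β ^ j) = fun w => cq h α w * cq h β w ^ j := by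
    intro j
    funext w
    show (α * β ^ j).eq _ = α.eq _ * β.eq _ ^ j
    rw [mul_eq, pow_eq]
  have hdeg : dg β = dD (cq h β) := cs_deg h hN β hβ
  have hβR : ∀ w : Place F κ, cq h β w ∈ w.R := fun w => (cs_mem h hN w _).1 (hβ _)
  have hβn : ∃ w : Place F κ, 0 < w.ord (cq h β w) := by
    by_contra hno
    push Not at hno
    have h1 : dD (cq h β) ≤ 0 := by
      have h2 : 0 ≤ ∑ᶠ w : Place F κ, -(w.ord (cq h β w) * (deg w : ℤ)) := by
        refine finsum_nonneg fun w => ?_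
        have h3 := hno w
        have h4 : (0 : ℤ) ≤ (deg w : ℤ) := Int.natCast_nonneg _
        nlinarith
      rw [finsum_neg_distrib] at h2
      have h3 : dD (cq h β) = ∑ᶠ w : Place F κ, w.ord (cq h β w) * (deg w : ℤ) := rfl
      rw [h3]
      linarith
    rw [← hdeg] at h1
    exact absurd h0 (not_lt.2 h1)
  obtain ⟨j₁, hj⟩ := h1_drop h.tr (K_fg h.var h.gen) (cs_dv h hN α) (cs_dv h hN β) hβR hβn δ hδ
  refine ⟨j₁, fun j hj1 => ?_⟩
  have h1 := hj j hj1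
  rw [← hmul, ← cs_sec h hN, ← cs_sec h hN, ← hdeg] at h1
  exact h1

end Pool.Agent.H61.AB
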