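import Pool.Agent.H61.AB.GDef

/-!
# [H61 AB Fr] ABUNDANCE (MP_e49dc9_ag), (H4c): `ζ` and two quotients of sections are independent

`K / k` of transcendence degree `3`, `ζ` transcendental over `k`, `K` algebraic over `k(s o / s j, o)`: two of the quotients and `ζ` are
algebraically independent over `k`.
PROOF.  `exists_isTranscendenceBasis_between` (or the exchange property, matroid) for `{ζ} ⊆ {ζ} ∪ {s o / s j}`: a transcendence basis contained in
`{ζ} ∪ {s o / s j}` and containing `ζ`; it has three elements.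
-/

set_option autoImplicit false

namespace Pool.Agent.H61.AB

variable {k K : Type} [Field k] [Field K] [Algebra k K] {σ : Type}

private theorem alg_mono {A B : Subalgebra k K} (h : A ≤ B) {b : K} (hb : IsAlgebraic A b) :
    IsAlgebraic B b := by
  obtain ⟨p, hp, hp0⟩ := hb
  have hinj : Function.Injective (Subalgebra.inclusion h : A →+* B) :=
    Subalgebra.inclusion_injective h
  refine ⟨p.map (Subalgebra.inclusion h : A →+* B), ?_, ?_⟩
  · rwa [Ne, Polynomial.map_eq_zero_iff hinj]
  · rw [Polynomial.aeval_def, Polynomial.eval₂_map]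
    rw [Polynomial.aeval_def] at hp0
    exact hp0

theorem fr_ind (htr : Algebra.trdeg k K = 3) {ζ : K} (hζ : Transcendental k ζ) {s : Option σ → K} {j : Option σ}
    (hs : ∀ b : K, IsAlgebraic (Algebra.adjoin k (Set.range fun o => s o / s j)) b) :
    ∃ i₁ i₂ : Option σ, AlgebraicIndependent k ![ζ, s i₁ / s j, s i₂ / s j] := by
  classical
  have h1 : AlgebraicIndepOn k id ({ζ} : Set K) := by
    have : Unique ({ζ} : Set K) := Set.uniqueSingleton ζ
    refine algebraicIndependent_unique_type_iff.2 ?_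
    have h0 : ((default : ({ζ} : Set K)) : K) = ζ := (default : ({ζ} : Set K)).2
    change Transcendental k ((default : ({ζ} : Set K)) : K)
    rw [h0]
    exact hζ
  have h2 : Algebra.IsAlgebraic
      (Algebra.adjoin k ({ζ} ∪ Set.range fun o => s o / s j : Set K)) K :=
    ⟨fun b => alg_mono (Algebra.adjoin_mono Set.subset_union_right) (hs b)⟩
  obtain ⟨u, hu1, hu2, hu⟩ := exists_isTranscendenceBasis_between ({ζ} : Set K)
    ({ζ} ∪ Set.range fun o => s o / s j) Set.subset_union_left h1
  have hc := hu.cardinalMk_eq_trdeg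
  rw [htr] at hc
  have hn : u.ncard = 3 := by
    rw [← Nat.card_coe_set_eq, Nat.card, hc]
    simp
  have hfin : u.Finite := Set.finite_of_ncard_ne_zero (by rw [hn]; norm_num)
  have hζu : ζ ∈ u := hu1 (Set.mem_singleton ζ)
  have h3 : (u \ {ζ}).ncard = 2 := by
    rw [Set.ncard_sdiff_singleton_of_mem hζu, hn]
  obtain ⟨x, y, hxy, hxyu⟩ := Set.ncard_eq_two.1 h3
  have hx : x ∈ u \ {ζ} := by
    rw [hxyu]
    exact Set.mem_insert x _
  have hy : y ∈ u \ {ζ} := by
    rw [hxyu]
    exact Set.mem_insert_of_mem _ rfl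
  have hr : ∀ z ∈ u \ {ζ}, ∃ o, s o / s j = z := by
    intro z hz
    rcases hu2 hz.1 with h4 | h4
    · exact absurd h4 hz.2
    · exact h4
  obtain ⟨i₁, hi₁⟩ := hr x hx
  obtain ⟨i₂, hi₂⟩ := hr y hy
  refine ⟨i₁, i₂, ?_⟩
  rw [hi₁, hi₂]
  have h4 : ∀ i : Fin 3, (![ζ, x, y] : Fin 3 → K) i ∈ u := by
    intro i
    fin_cases i
    · exact hζu
    · exact hx.1
    · exact hy.1
  have hinj : Function.Injective (fun i : Fin 3 => (⟨![ζ, x, y] i, h4 i⟩ : u)) := by
    intro a b hab
    have h5 : (![ζ, x, y] : Fin 3 → K) a = ![ζ, x, y] b := congrArg Subtype.val hab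
    have n1 : ζ ≠ x := fun h => hx.2 h.symm
    have n2 : ζ ≠ y := fun h => hy.2 h.symm
    fin_cases a <;> fin_cases b <;> simp_all
  exact hu.1.comp (fun i : Fin 3 => (⟨![ζ, x, y] i, h4 i⟩ : u)) hinj

end Pool.Agent.H61.AB
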