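import Pool.Agent.H61.AB.GDef
import Pool.Agent.H83.TK.GsC

/-!
# [H61 AB Gq] ABUNDANCE (MP_e49dc9_ag), (H4): the function field of the generic member

`Y : Mod F K`, `s` sections of `S` without common zeros, `z` the generic point of the generic member (`gs_pt`: `z.x = g`, the ideal of `z` is generated by
the linear form).  `kap z` contains `K` (`j`), it is generated by `K` and the `l i`, with the one linear relation.
PROOF.  `Y.O z.x = ⊤` (`Gen.top`), so `algebraMap K K' a ∈ bcO h z` for all `a` (`alg_mem`, H83/TK/BcG) and `j` is the residue map of `bcO h z` after it (a ring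
homomorphism; `rs` is the residue map on the elements of the local ring, see `gsc_res` in GsC).  (1) on `F`: `algebraMap F K'` factors through `F'`.
(2) `gsec K' l s * algebraMap (S.eq g)` is a nonunit of `bcO h z` (`ev_lin` and `un_ev`, `hq`) and `S.eq g` is a unit: `rs z (gsec K' l s) = 0`.
(3) every element of `kap z` is `rs z (ev f / ev q)` with `ev q` a unit at `z` (`mem_bcO`, residue map surjective), or `resH_frac`, H83/TK/BcE.
(4) the kernel of `P ↦ eval₂ j l P` on `MvPolynomial σ K` is the ideal generated by `lin s` (`hq`; see `gs_key` in GsB), and a polynomial in the variables `i ≠ j₀` divisible by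
`lin s` is `0` (`lin_rename`, H83/TK/GsA, for `s (some j₀) ≠ 0`).
-/

set_option autoImplicit false

namespace Pool.Agent.H61.AB

open Pool.Agent.H54.RV Pool.Agent.H83.TU Pool.Agent.H83.TK MvPolynomial

variable {F K F' K' : Type} [Field F] [Field K] [Field F'] [Field K'] [Algebra F K] [Algebra F F'] [Algebra K K']
  [Algebra F' K'] [Algebra F K'] [IsScalarTower F K K'] [IsScalarTower F F' K'] {σ : Type} [Fintype σ] {Y : Mod F K}
  {l : σ → F'}

private theorem gq_res {k K : Type} [Field k] [Field K] [Algebra k K] (M : Mod k K) (z : M.P) :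
    ∃ res : M.O z →+* M.kap z, (∀ a : M.O z, res a = M.rs z a) ∧ Function.Surjective res ∧
      ∀ c, res (algebraMap k (M.O z) c) = algebraMap k (M.kap z) c := by
  refine ⟨IsLocalRing.residue (M.O z), fun a => ?_, IsLocalRing.residue_surjective, fun c => rfl⟩
  unfold Mod.rs
  rw [dif_pos a.2]
  rfl

private theorem gq_lin {K Ω σ : Type} [Field K] [Field Ω] [Fintype σ] (j : K →+* Ω) (t : σ → Ω) (s : Option σ → K)
    (e : K) : eval₂ j t (lin (fun i => s i * e)) = lf j t s * j e := by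
  unfold lin lf
  rw [eval₂_add, eval₂_C, eval₂_sum, add_mul, map_mul, Finset.sum_mul]
  congr 1
  refine Finset.sum_congr rfl fun i _ => ?_
  rw [eval₂_mul, eval₂_X, eval₂_C, map_mul, mul_assoc]

theorem gq [T0Space Y.P] (hY : IsVar Y) {g : Y.P} (hg : Gen Y g) (h : BC F K F' K' l) {S : Cart Y} {s : Option σ → K}
    (hs : LSys Y S s) (z : BP Y σ) (hz : z.x = g)
    (hq : ∀ f : MvPolynomial σ (Y.O z.x), red Y σ z.x f ∈ z.q ↔
      map ((Y.O z.x).val : Y.O z.x →+* K) (linO hs z.x) ∣ map ((Y.O z.x).val : Y.O z.x →+* K) f) :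
    ∃ j : K →+* (bcM Y h).kap z, (∀ a, j a = (bcM Y h).rs z (algebraMap K K' a)) ∧
      (∀ c : F, j (algebraMap F K c) = algebraMap F' ((bcM Y h).kap z) (algebraMap F F' c)) ∧
      lf j (fun i => algebraMap F' ((bcM Y h).kap z) (l i)) s = 0 ∧
      (∀ b : (bcM Y h).kap z, ∃ f q : MvPolynomial σ K, eval₂ j (fun i => algebraMap F' ((bcM Y h).kap z) (l i)) q ≠ 0 ∧
        b * eval₂ j (fun i => algebraMap F' ((bcM Y h).kap z) (l i)) q =
          eval₂ j (fun i => algebraMap F' ((bcM Y h).kap z) (l i)) f) ∧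
      ∀ j₀ : σ, s (some j₀) ≠ 0 → ∀ P : MvPolynomial {i : σ // i ≠ j₀} K,
        eval₂ j (fun i : {i : σ // i ≠ j₀} => algebraMap F' ((bcM Y h).kap z) (l i.1)) P = 0 → P = 0 := by
  classical
  have hm : ∀ a : K, a ∈ Y.O z.x := by
    intro a
    rw [hz, hg.top]
    exact Algebra.mem_top
  obtain ⟨res, hr1, hr2, hr3⟩ : ∃ res : bcO h z →+* (bcM Y h).kap z,
    (∀ a : bcO h z, res a = (bcM Y h).rs z a) ∧ Function.Surjective res ∧
      ∀ c, res (algebraMap F' (bcO h z) c) = algebraMap F' ((bcM Y h).kap z) c := gq_res (bcM Y h) z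
  have hr0 : ∀ a : bcO h z, res a = 0 ↔ ¬ Un (bcO h z) (a : K') := by
    intro a
    have h1 := rs_ne (X := bcM Y h) z (a := (a : K')) a.2
    rw [hr1]
    exact not_iff_comm.1 h1 |>.symm
  let ρ : Y.O z.x →+* (bcM Y h).kap z := res.comp
    (((ev K' l (Y.O z.x)).codRestrict (bcO h z) (ev_mem h z)).comp C)
  let ιK : K →+* Y.O z.x := (RingHom.id K).codRestrict (Y.O z.x) hm
  obtain ⟨j, hj⟩ : ∃ j : K →+* (bcM Y h).kap z, j = ρ.comp ιK := ⟨_, rfl⟩
  have hK : ∀ a : K, j a = res ⟨ev K' l (Y.O z.x) (C ⟨a, hm a⟩), ev_mem h z _⟩ := by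
    intro a
    rw [hj]
    rfl
  obtain ⟨t, ht⟩ : ∃ t : σ → (bcM Y h).kap z, t = fun i => algebraMap F' ((bcM Y h).kap z) (l i) := ⟨_, rfl⟩
  have hev : ∀ f : MvPolynomial σ (Y.O z.x), eval₂ j t (map ((Y.O z.x).val : Y.O z.x →+* K) f) =
      res ⟨ev K' l (Y.O z.x) f, ev_mem h z f⟩ := by
    intro f
    have h1 : (eval₂Hom j t).comp (map ((Y.O z.x).val : Y.O z.x →+* K)) = res.comp
        ((ev K' l (Y.O z.x)).codRestrict (bcO h z) (ev_mem h z)) := by
      refine MvPolynomial.ringHom_ext (fun r => ?_) (fun i => ?_)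
      · rw [RingHom.comp_apply, map_C, coe_eval₂Hom, eval₂_C]
        change j (r : K) = _
        rw [hK]
        rfl
      · rw [RingHom.comp_apply, map_X, coe_eval₂Hom, eval₂_X, ht]
        change algebraMap F' ((bcM Y h).kap z) (l i) = res _
        rw [← hr3]
        congr 1
        apply Subtype.ext
        change algebraMap F' K' (l i) = ev K' l (Y.O z.x) (MvPolynomial.X i)
        unfold ev
        rw [coe_eval₂Hom, eval₂_X]
    exact DFunLike.congr_fun h1 f
  have hsur : ∀ P : MvPolynomial σ K, ∃ f : MvPolynomial σ (Y.O z.x),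
      map ((Y.O z.x).val : Y.O z.x →+* K) f = P := by
    intro P
    refine ⟨map ιK P, ?_⟩
    rw [map_map]
    have h1 : ((Y.O z.x).val : Y.O z.x →+* K).comp ιK = RingHom.id K := rfl
    rw [h1, map_id]
  obtain ⟨u, hu⟩ : ∃ u : Option σ → K, u = fun i => s i * S.eq z.x := ⟨_, rfl⟩
  have hlin : map ((Y.O z.x).val : Y.O z.x →+* K) (linO hs z.x) = lin u := by
    unfold linO
    rw [map_lin, hu]
    rfl
  have hzero : ∀ P : MvPolynomial σ K, eval₂ j t P = 0 ↔ lin u ∣ P := by
    intro P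
    obtain ⟨f, rfl⟩ := hsur P
    rw [← hlin, ← hq, hev, hr0, un_ev h z]
    exact not_not
  have hje : j (S.eq z.x) ≠ 0 := by
    rw [Ne, map_eq_zero]
    exact S.ne z.x
  refine ⟨j, ?_, ?_, ?_, ?_, ?_⟩
  · intro a
    rw [hK, hr1]
    change (bcM Y h).rs z (ev K' l (Y.O z.x) (C ⟨a, hm a⟩)) = _
    rw [ev_C]
  · intro c
    rw [hK, ← hr3]
    congr 1
    apply Subtype.ext
    change ev K' l (Y.O z.x) (C ⟨algebraMap F K c, hm _⟩) = algebraMap F' K' (algebraMap F F' c)
    rw [ev_C]
    change algebraMap K K' (algebraMap F K c) = _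
    rw [← IsScalarTower.algebraMap_apply F F' K', ← IsScalarTower.algebraMap_apply F K K']
  · have h1 := (hzero (lin u)).2 (dvd_refl _)
    have h2 : eval₂ j t (lin u) = lf j t s * j (S.eq z.x) := by
      rw [hu]
      exact gq_lin j t s (S.eq z.x)
    rw [h2] at h1
    rw [← ht]
    exact (mul_eq_zero.1 h1).resolve_right hje
  · intro c
    rw [← ht]
    obtain ⟨⟨a, ha⟩, rfl⟩ := hr2 c
    obtain ⟨f, q, h1, h2⟩ := (mem_bcO h z a).1 ha
    refine ⟨map ((Y.O z.x).val : Y.O z.x →+* K) f, map ((Y.O z.x).val : Y.O z.x →+* K) q, ?_, ?_⟩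
    · rw [Ne, hzero, ← hlin, ← hq]
      exact h1
    · rw [hev, hev, ← map_mul]
      congr 1
      exact Subtype.ext h2
  · intro j₀ hj₀ P hP
    have h1 : eval₂ j t (rename Subtype.val P) = 0 := by
      rw [eval₂_rename, ht]
      exact hP
    have huj : IsUnit (u (some j₀)) := by
      rw [hu]
      exact isUnit_iff_ne_zero.2 (mul_ne_zero hj₀ (S.ne z.x))
    exact lin_rename u j₀ huj P ((hzero _).1 h1)

end Pool.Agent.H61.AB
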