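import Pool.Agent.H61.AB.Gd
import Pool.Agent.H61.AB.Fr
import Pool.Agent.H61.AB.Gq
import Pool.Agent.H61.AB.Cs3
import Pool.Agent.H83.AY.Nrm

/-!
# [H61 AB H4f] ABUNDANCE (MP_e49dc9_ag): (H4), THE DROP on the generic curve

`X` a threefold over `k` with `Jac X J κ` (canonical class `κ⁻¹`), `s` sections of `H` without common zeros, `K` algebraic over `k(s o / s j₀)`; `F ⊆ K` algebraic over
`k(ζ)`, `ζ ∈ F` transcendental over `k`; `Y : Mod F K` a normal surface over `F` with a map `π : Y.P → X.P` (`X.O (π y) ⊆ Y.O y`), `S` on `Y` with `LSys Y S s` (pull back of `H`),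
`D` the pull back of `H * κ⁻¹`; `F' = F(l)`, `K' = K(l)`, `z` the generic point of the generic member of `s` on `bcM Y h` (`gs_full`, H83/AY/Nrm), `Γ = subM _ z` the generic curve,
`φ = resD ∘ bcD : Cart Y → Cart Γ`; `W` effective on `Y`, `0 < dg (φ W)`:
`h0 (φ D * φ W ^ j) 1 + 1 ≤ h0 (φ D) 1 + j * dg (φ W)` for large `j`.

PROOF.  `M = (bcM Y h).kap z`, `j : K → M` from `gq`.  Instances (all inside the proof, with `let`): `Algebra k F'` (composition `k → F → F'`), `Algebra k M` (composition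
`k → F → F' → M`), `Algebra K M` (`j`), towers `k F' M` (`rfl`), `k K M` (`j` on `F`, tower `k F K`).  `GD k M (algebraMap F K ζ) (algebraMap F F' ζ) l s`:
`zz`: `gq`; `ind`: `l` is algebraically independent over `K` in `K'` (`BC.ind`), so over `F` in `F'` (`F ⊆ K`, `F' ⊆ K'`), and `ζ` is transcendental over `k`
(`AlgebraicIndependent.option..`; or: a polynomial in `ζ` and `l` over `k` is a polynomial in `l` over `F`); `alg`: `F' = F(l)` (`BC.genk`) and `F` is algebraic over
`k(ζ)` (transitivity); `rel`, `gen`, `indj`: `gq` (`gsec M l s = lf j _ s` by unfolding).  `δ` from `gd_der` (Dx).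
`C = subM (isVar_bc hY _ h) z` is a curve: `Crv C`: `isVar_sub`, `gen_sub`, ample: `res_ample`, `bc_ample`, `trdeg F' M = 1` (hypothesis `htr'`); `Nml C` (hypothesis `hNC`, from `gs_full`).
Let `w` be a place of `M / F'`, `y` its centre on `C` (`cenK`), `y.1 : BP Y σ`, `x = π y.1.x`.  `j a ∈ w.R` for `a ∈ X.O x`: `a ∈ Y.O y.1.x`, `algebraMap K K' a ∈ bcO h y.1` (`alg_mem`),
`rs z .. ∈ C.O y` (`rs_mem_subO`), `⊆ w.R` (`cenK_dom`).  `gen_dual` (Gd; two independent quotients of sections: `fr_ind`, Fr, with `ζ` transcendental over `k` in `K`):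
`ord (δ π) + ord (j (H.eq x / κ.eq x)) ≤ 0`.  `(φ D).eq y = j (D.eq y.1.x / D.eq z.x)` (`resD_eq`, `bcD` by definition `algebraMap K K' (D.eq y.x)`), so for `δ' = c • δ`,
`c = j (D.eq z.x) ≠ 0`, `Dual δ' (cq _ (φ D))` holds.  `W`: `(φ W).eq y = j (W.eq y.1.x / W.eq z.x)`; `β = φ W * prin C (j (W.eq z.x))` is effective (`W.eq y.1.x ∈ Y.O y.1.x`), `dg β = dg (φ W)`
(`dg_mul`, `dg_prin`), `h0 (φ D * β ^ j) 1 = h0 (φ D * φ W ^ j) 1` (`h0_prin`).  `cs_drop` (Cs3).
-/

set_option autoImplicit false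

namespace Pool.Agent.H61.AB

open Pool.Agent.H54.RV Pool.Agent.H83.TU Pool.Agent.H83.TK Pool.Agent.H83.AY Pool.Agent.H41.TK Pool.Agent.H43.WR

variable {k F K F' K' : Type} [Field k] [Field F] [Field K] [Field F'] [Field K'] [Algebra k F] [Algebra k K] [Algebra F K]
  [IsScalarTower k F K] [Algebra F F'] [Algebra K K'] [Algebra F' K'] [Algebra F K'] [IsScalarTower F K K'] [IsScalarTower F F' K']
  {σ : Type} [Fintype σ]

omit [IsScalarTower k F K] in
/-- the data `GD` of the generic curve, from an embedding of `K` -/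
private theorem gd_mk {M : Type} [Field M] [Algebra F' M] [Algebra k F'] [Algebra k M] [Algebra K M]
    [IsScalarTower k F F'] [IsScalarTower k F' M] [IsScalarTower k K M] {l : σ → F'} (h : BC F K F' K' l) {ζ : F}
    (hζ : Transcendental k ζ) (hF : ∀ c : F, IsAlgebraic (Algebra.adjoin k {ζ}) c)
    (hjF : ∀ c : F, algebraMap K M (algebraMap F K c) = algebraMap F' M (algebraMap F F' c)) {s : Option σ → K}
    (hrel : gsec M l s = 0)
    (hgen : ∀ b : M, ∃ f g : MvPolynomial σ K, MvPolynomial.aeval (fun i => algebraMap F' M (l i)) g ≠ 0 ∧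
      b * MvPolynomial.aeval (fun i => algebraMap F' M (l i)) g = MvPolynomial.aeval (fun i => algebraMap F' M (l i)) f)
    (hind : ∀ j : σ, s (some j) ≠ 0 → AlgebraicIndependent K (fun i : {i : σ // i ≠ j} => algebraMap F' M (l i.1))) :
    GD k M (algebraMap F K ζ) (algebraMap F F' ζ) l s where
  zz := hjF ζ
  ind := by
    have h1 : AlgebraicIndependent F l := by
      have h2 : AlgebraicIndependent F (fun i => algebraMap F' K' (l i)) :=
        h.ind.restrictScalars (algebraMap F K).injective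
      exact AlgebraicIndependent.of_comp (IsScalarTower.toAlgHom F F' K') h2
    have h3 : AlgebraicIndependent k (fun _ : Unit => ζ) := algebraicIndependent_unique_type_iff.2 hζ
    have h4 := h3.sumElim_comp h1
    let e : Option σ → σ ⊕ Unit := fun o => o.elim (Sum.inr ()) Sum.inl
    have he : Function.Injective e := by
      rintro (_ | a) (_ | b) hab
      · rfl
      · exact absurd hab (by simp [e])
      · exact absurd hab (by simp [e])
      · have : (Sum.inl a : σ ⊕ Unit) = Sum.inl b := hab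
        rw [Sum.inl_injective this]
    have h5 := h4.comp e he
    have h6 : (fun o : Option σ => o.elim (algebraMap F F' ζ) l) =
        Sum.elim l (algebraMap F F' ∘ fun _ : Unit => ζ) ∘ e := by
      funext o
      cases o <;> rfl
    rw [h6]
    exact h5
  alg := by
    intro c
    set A := Algebra.adjoin k (Set.range (fun o : Option σ => o.elim (algebraMap F F' ζ) l)) with hA
    have hl : ∀ i, l i ∈ A := fun i => Algebra.subset_adjoin ⟨some i, rfl⟩
    have hz : algebraMap F F' ζ ∈ A := Algebra.subset_adjoin ⟨none, rfl⟩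
    have hle : ∀ a ∈ Algebra.adjoin k {ζ}, algebraMap F F' a ∈ A := by
      intro a ha
      have h1 : Algebra.adjoin k {ζ} ≤ A.comap (IsScalarTower.toAlgHom k F F') := by
        refine Algebra.adjoin_le ?_
        rintro _ rfl
        exact hz
      exact h1 ha
    let f : Algebra.adjoin k {ζ} →+* A :=
      ((algebraMap F F').comp (Algebra.adjoin k {ζ}).val.toRingHom).codRestrict A (fun a => hle a.1 a.2)
    have hf : Function.Injective f := by
      intro a b hab
      have h1 : algebraMap F F' a.1 = algebraMap F F' b.1 := congrArg Subtype.val hab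
      exact Subtype.ext ((algebraMap F F').injective h1)
    have hFA : ∀ c : F, IsAlgebraic A (algebraMap F F' c) := fun c =>
      (hF c).ringHom_of_comp_eq f (algebraMap F F') hf (by
        ext a
        rfl)
    have hlA : ∀ i, IsAlgebraic A (l i) := fun i => isAlgebraic_algebraMap (⟨l i, hl i⟩ : A)
    have hP : ∀ p : MvPolynomial σ F, IsAlgebraic A (MvPolynomial.aeval l p) := by
      intro p
      induction p using MvPolynomial.induction_on with
      | C a =>
        rw [MvPolynomial.aeval_C]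
        exact hFA a
      | add p q hp hq =>
        rw [map_add]
        exact hp.add hq
      | mul_X p i hp =>
        rw [map_mul, MvPolynomial.aeval_X]
        exact hp.mul (hlA i)
    obtain ⟨p, q, hq, hpq⟩ := h.genk c
    have hq0 : MvPolynomial.aeval l q ≠ 0 := by
      intro h0
      have h1 : AlgebraicIndependent F l := by
        have h2 : AlgebraicIndependent F (fun i => algebraMap F' K' (l i)) :=
          h.ind.restrictScalars (algebraMap F K).injective
        exact AlgebraicIndependent.of_comp (IsScalarTower.toAlgHom F F' K') h2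
      exact hq (h1 (h0.trans (map_zero _).symm))
    have h2 : c = MvPolynomial.aeval l p * (MvPolynomial.aeval l q)⁻¹ := by
      rw [← hpq, mul_assoc, mul_inv_cancel₀ hq0, mul_one]
    rw [h2]
    exact (hP p).mul (hP q).inv
  rel := hrel
  gen := hgen
  indj := hind

/-- the drop, from the data of the generic curve -/
private theorem core [CharZero k] {M : Type} [Field M] [Algebra F' M] [Algebra k F'] [Algebra k M] [Algebra K M]
    [IsScalarTower k F' M] [IsScalarTower k K M] (htr : Algebra.trdeg k K = 3) (hfg : (⊤ : IntermediateField k K).FG)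
    {X : Mod k K} {J : K → K → K → K} {κ : Cart X} (hJ : Jac X J κ) {H : Cart X} {s : Option σ → K} (hs : LSys X H s)
    {j₀ : Option σ} (hsj : s j₀ ≠ 0)
    (hsK : ∀ b : K, IsAlgebraic (Algebra.adjoin k (Set.range fun o => s o / s j₀)) b)
    {ζ : K} (hζ : Transcendental k ζ) {ζ' : F'} {l : σ → F'} (hG : GD k M ζ ζ' l s)
    {C : Mod F' M} (hC : Crv C) (hN : Nml C) (D W : Cart C) (px : C.P → X.P)
    (hpx : ∀ y, ∀ a ∈ X.O (px y), algebraMap K M a ∈ C.O y) {dz wz : K} (hdz : dz ≠ 0) (hwz : wz ≠ 0)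
    (hD : ∀ y, D.eq y = algebraMap K M (H.eq (px y) / κ.eq (px y) / dz)) (wq : C.P → K)
    (hW : ∀ y, W.eq y = algebraMap K M (wq y / wz)) (hwq : ∀ y, algebraMap K M (wq y) ∈ C.O y) (hpos : 0 < dg W) :
    ∃ j₁ : ℕ, ∀ j ≥ j₁, (h0 (D * W ^ j) 1 : ℤ) + 1 ≤ h0 D 1 + j * dg W := by
  have : CharZero F' := charZero_of_injective_algebraMap (algebraMap k F').injective
  have hsσ : ∃ j : σ, s (some j) ≠ 0 := by
    by_contra hcon
    push Not at hcon
    obtain ⟨i, j, hj, ht⟩ := hs.tr
    cases j with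
    | some j => exact hj (hcon j)
    | none =>
      cases i with
      | none =>
        rw [div_self hj] at ht
        exact ht isAlgebraic_one
      | some i =>
        rw [hcon i, zero_div] at ht
        exact ht isAlgebraic_zero
  obtain ⟨δ, hδ⟩ := gd_der hJ hG hsσ
  obtain ⟨i₁, i₂, hi⟩ := fr_ind htr hζ hsK
  have hM : (⊤ : IntermediateField F' M).FG := K_fg hC.var hC.gen
  have hw0 : algebraMap K M wz ≠ 0 := (map_ne_zero _).2 hwz
  have hd0 : algebraMap K M dz ≠ 0 := (map_ne_zero _).2 hdz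
  have hdual : Dual (algebraMap K M dz • δ) (cq hC D) := by
    intro w π hπ
    obtain ⟨h1, h2⟩ := gen_dual htr hfg hJ hG hs ⟨i₁, i₂, j₀, hsj, hi⟩ hC.tr hM δ hδ w
      (px (cenK hC.var hC.gen w)) (fun a ha => cenK_le hC.var hC.gen w _ (hpx _ a ha)) π hπ
    have h3 : (algebraMap K M dz • δ) π = algebraMap K M dz * δ π := rfl
    have h4 : algebraMap K M (H.eq (px (cenK hC.var hC.gen w)) / κ.eq (px (cenK hC.var hC.gen w))) ≠ 0 :=
      (map_ne_zero _).2 (div_ne_zero (H.ne _) (κ.ne _))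
    refine ⟨by rw [h3]; exact mul_ne_zero hd0 h1, ?_⟩
    have h5 : cq hC D w = algebraMap K M (H.eq (px (cenK hC.var hC.gen w)) / κ.eq (px (cenK hC.var hC.gen w))) *
        (algebraMap K M dz)⁻¹ := by
      show D.eq (cenK hC.var hC.gen w) = _
      rw [hD, map_div₀ (algebraMap K M) _ dz, div_eq_mul_inv]
    rw [h3, h5, ord_mul w _ _ hd0 h1, ord_mul w _ _ h4 (inv_ne_zero hd0), ord_inv]
    linarith
  have hβe : Effective (W * prin C (algebraMap K M wz) hw0) := by
    intro y
    show W.eq y * algebraMap K M wz ∈ C.O y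
    rw [hW y, ← map_mul, div_mul_cancel₀ _ hwz]
    exact hwq y
  have hβd : dg (W * prin C (algebraMap K M wz) hw0) = dg W := by
    rw [dg_mul hC, dg_prin hC, add_zero]
  obtain ⟨j₁, hj₁⟩ := cs_drop hC hN D (W * prin C (algebraMap K M wz) hw0) hβe (by rw [hβd]; exact hpos) _ hdual
  refine ⟨j₁, fun j hj => ?_⟩
  have h1 := hj₁ j hj
  have h2 : D * (W * prin C (algebraMap K M wz) hw0) ^ j =
      D * W ^ j * prin C (algebraMap K M wz ^ j) (pow_ne_zero j hw0) := by
    have h3 : prin C (algebraMap K M wz) hw0 ^ j = prin C (algebraMap K M wz ^ j) (pow_ne_zero j hw0) := by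
      refine Cart.ext' _ _ fun y => ?_
      rw [pow_eq]
      rfl
    rw [mul_pow, h3, mul_assoc]
  rw [h2, h0_prin, hβd] at h1
  exact h1

theorem h4_drop [CharZero k] (htr : Algebra.trdeg k K = 3) (hfg : (⊤ : IntermediateField k K).FG) {X : Mod k K}
    {J : K → K → K → K} {κ : Cart X} (hJ : Jac X J κ) {H : Cart X} {s : Option σ → K} (hs : LSys X H s) {j₀ : Option σ}
    (hsj : s j₀ ≠ 0) (hsK : ∀ b : K, IsAlgebraic (Algebra.adjoin k (Set.range fun o => s o / s j₀)) b)
    {ζ : F} (hζ : Transcendental k ζ) (hF : ∀ c : F, IsAlgebraic (Algebra.adjoin k {ζ}) c)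
    {Y : Mod F K} [T0Space Y.P] (hY : IsVar Y) {g : Y.P} (hg : Gen Y g) (hA : ∃ A : Cart Y, Ample A)
    (π : Y.P → X.P) (hπ : ∀ y, ∀ a ∈ X.O (π y), a ∈ Y.O y) {S : Cart Y} (hsY : LSys Y S s) (D : Cart Y)
    (hD : ∀ y, D.eq y = H.eq (π y) / κ.eq (π y)) {l : σ → F'} (h : BC F K F' K' l) (z : BP Y σ) (hz : z.x = g)
    (hq : ∀ f : MvPolynomial σ (Y.O z.x), red Y σ z.x f ∈ z.q ↔
      MvPolynomial.map ((Y.O z.x).val : Y.O z.x →+* K) (linO hsY z.x) ∣ MvPolynomial.map ((Y.O z.x).val : Y.O z.x →+* K) f)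
    (htr' : Algebra.trdeg F' ((bcM Y h).kap z) = 1) (hNC : Nml (subM (isVar_bc hY ⟨g, hg⟩ h) z))
    (W : Cart Y) (hW : Effective W)
    (hpos : 0 < dg (((resD (isVar_bc hY ⟨g, hg⟩ h) z).comp (bcD hY ⟨g, hg⟩ h)) W)) :
    ∃ j₁ : ℕ, ∀ j ≥ j₁, (h0 (((resD (isVar_bc hY ⟨g, hg⟩ h) z).comp (bcD hY ⟨g, hg⟩ h)) D *
        ((resD (isVar_bc hY ⟨g, hg⟩ h) z).comp (bcD hY ⟨g, hg⟩ h)) W ^ j) 1 : ℤ) + 1 ≤
      h0 (((resD (isVar_bc hY ⟨g, hg⟩ h) z).comp (bcD hY ⟨g, hg⟩ h)) D) 1 +
        j * dg (((resD (isVar_bc hY ⟨g, hg⟩ h) z).comp (bcD hY ⟨g, hg⟩ h)) W) := by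
  obtain ⟨j, hj, hjF, hj0, hjg, hji⟩ := gq hY hg h hsY z hz hq
  let iA : Algebra k F' := ((algebraMap F F').comp (algebraMap k F)).toAlgebra
  let iB : Algebra k ((bcM Y h).kap z) := ((algebraMap F' ((bcM Y h).kap z)).comp (algebraMap k F')).toAlgebra
  let iC : Algebra K ((bcM Y h).kap z) := j.toAlgebra
  have t1 : IsScalarTower k F F' := IsScalarTower.of_algebraMap_eq' rfl
  have t2 : IsScalarTower k F' ((bcM Y h).kap z) := IsScalarTower.of_algebraMap_eq' rfl
  have t3 : IsScalarTower k K ((bcM Y h).kap z) := by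
    refine IsScalarTower.of_algebraMap_eq fun c => ?_
    have h1 : algebraMap k K c = algebraMap F K (algebraMap k F c) := IsScalarTower.algebraMap_apply k F K c
    have h2 : algebraMap K ((bcM Y h).kap z) (algebraMap k K c) = j (algebraMap F K (algebraMap k F c)) := by
      rw [h1]
      rfl
    rw [h2, hjF]
    rfl
  have hG : GD k ((bcM Y h).kap z) (algebraMap F K ζ) (algebraMap F F' ζ) l s :=
    gd_mk h hζ hF hjF hj0 hjg (fun j₁ hj₁ => algebraicIndependent_iff.2 fun p hp => hji j₁ hj₁ p hp)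
  have hζK : Transcendental k (algebraMap F K ζ) := by
    intro hcon
    exact hζ ((isAlgebraic_algebraMap_iff (algebraMap F K).injective).1 hcon)
  have hV : IsVar (bcM Y h) := isVar_bc hY ⟨g, hg⟩ h
  have hCr : Crv (subM (isVar_bc hY ⟨g, hg⟩ h) z) := by
    obtain ⟨A, hA⟩ := hA
    exact ⟨isVar_sub (isVar_bc hY ⟨g, hg⟩ h) z, ⟨subG (isVar_bc hY ⟨g, hg⟩ h) z, gen_sub (isVar_bc hY ⟨g, hg⟩ h) z⟩,
      ⟨_, res_ample (isVar_bc hY ⟨g, hg⟩ h) z _ (bc_ample hY ⟨g, hg⟩ h A hA)⟩, htr'⟩
  have hrs : ∀ a b : K, (bcM Y h).rs z (algebraMap K K' a / algebraMap K K' b) = j (a / b) := by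
    intro a b
    rw [← map_div₀, hj]
  refine core htr hfg hJ hs hsj hsK hζK hG hCr hNC _ _ (fun y => π y.1.x) ?_ (D.ne z.x) (W.ne z.x) ?_
    (fun y => W.eq y.1.x) ?_ ?_ hpos
  · intro y a ha
    show j a ∈ subO (bcM Y h) z y.1
    rw [hj]
    exact rs_mem_subO hV y.2 (alg_mem h y.1 (hπ _ a ha))
  · intro y
    show (bcM Y h).rs z (algebraMap K K' (D.eq y.1.x) / algebraMap K K' (D.eq z.x)) = j _
    rw [hrs, hD y.1.x]
  · intro y
    show (bcM Y h).rs z (algebraMap K K' (W.eq y.1.x) / algebraMap K K' (W.eq z.x)) = j _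
    rw [hrs]
  · intro y
    show j (W.eq y.1.x) ∈ subO (bcM Y h) z y.1
    rw [hj]
    exact rs_mem_subO hV y.2 (alg_mem h y.1 (hW y.1.x))

end Pool.Agent.H61.AB
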