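import Pool.Agent.H61.AB.Qu

/-!
# [H61 AB Cod] ABUNDANCE (MP_e49dc9_ag), (H4): the codimension of a system of order conditions

`cod`: the inclusion `LS P ε ≤ LS P (ε γ)` for `γ w ∈ w.R` has codimension at most the degree of `γ`.
PROOF.  For a finite set `T` of places put `γT w := γ w` for `w ∈ T`, `1` otherwise (classical `if`).  Claim: `dim LS P (ε γT) / LS P ε ≤ ∑_(w ∈ T) ord γ w deg w`, by `Finset.induction_on`: for `T = insert w₀ T'`
use `quo` with `w₀`, `c = ε w₀ * γ w₀` (`w₀ ∉ T'`, so `γT' w₀ = 1`), `n = ord (γ w₀)`, `V = LS P (ε γT)`, `V' = LS P (ε γT')`: if `n ≤ ord (g c)` then `g ε w₀ = g c / γ w₀ ∈ w₀.R` (if `P w₀` fails the two spaces are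
equal).  (`deg_pos` for `0 < deg w₀`.)  Quotients: `dim A / C ≤ dim A / B + dim B / C` for `C ≤ B ≤ A`, all finite.  With `T` the finite set of the places with `ord γ w ≠ 0`: `LS P (ε γT) = LS P (ε γ)` as the other
`γ w` are units (`ord_eq_zero`), and `dD γ` is the sum over `T` (`finsum_eq_sum_of_support_subset`).
-/

set_option autoImplicit false

open scoped IntermediateField

namespace Pool.Agent.H61.AB

open Pool.Agent.H54.RV Pool.Agent.H83.TU

variable {F κ : Type} [Field F] [Field κ] [Algebra F κ]

theorem ls_le (P : Place F κ → Prop) (ε γ : Place F κ → κ) (hR : ∀ w, γ w ∈ w.R) :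
    LS P ε ≤ LS P (fun w => ε w * γ w) := by
  intro g hg w hw
  rw [← mul_assoc]
  exact w.R.mul_mem _ _ (hg w hw) (hR w)

private theorem cod_tri (A B C : Submodule F κ) (hBA : B ≤ A) (hCB : C ≤ B)
    (h1 : Module.Finite F (A ⧸ B.submoduleOf A)) (h2 : Module.Finite F (B ⧸ C.submoduleOf B)) :
    Module.Finite F (A ⧸ C.submoduleOf A) ∧
      Module.finrank F (A ⧸ C.submoduleOf A) ≤
        Module.finrank F (A ⧸ B.submoduleOf A) + Module.finrank F (B ⧸ C.submoduleOf B) := by
  have hle : C.submoduleOf A ≤ B.submoduleOf A := fun x hx => hCB hx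
  have hcm : C.submoduleOf B ≤ (C.submoduleOf A).comap (Submodule.inclusion hBA) := fun x hx => hx
  let f : (B ⧸ C.submoduleOf B) →ₗ[F] (A ⧸ C.submoduleOf A) :=
    Submodule.mapQ _ _ (Submodule.inclusion hBA) hcm
  let N : Submodule F (A ⧸ C.submoduleOf A) := (B.submoduleOf A).map (C.submoduleOf A).mkQ
  let e : ((A ⧸ C.submoduleOf A) ⧸ N) ≃ₗ[F] A ⧸ B.submoduleOf A :=
    Submodule.quotientQuotientEquivQuotient _ _ hle
  have hN : N ≤ LinearMap.range f := by
    rintro _ ⟨x, hx, rfl⟩
    exact ⟨Submodule.Quotient.mk ⟨(x : κ), hx⟩, rfl⟩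
  have hrf : Module.Finite F (LinearMap.range f) := inferInstance
  have hNf : Module.Finite F N := Submodule.finiteDimensional_of_le hN
  have hQf : Module.Finite F ((A ⧸ C.submoduleOf A) ⧸ N) := Module.Finite.equiv e.symm
  have hM : Module.Finite F (A ⧸ C.submoduleOf A) := Module.Finite.of_submodule_quotient N
  refine ⟨hM, ?_⟩
  rw [← Submodule.finrank_quotient_add_finrank N, e.finrank_eq]
  exact Nat.add_le_add_left ((Submodule.finrank_mono hN).trans (LinearMap.finrank_range_le f)) _

private theorem cod_self (A B : Submodule F κ) (h : A ≤ B) :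
    Module.Finite F (A ⧸ B.submoduleOf A) ∧ Module.finrank F (A ⧸ B.submoduleOf A) = 0 := by
  have hs : Subsingleton (A ⧸ B.submoduleOf A) := by
    rw [Submodule.Quotient.subsingleton_iff]
    exact Submodule.submoduleOf_eq_top.2 h
  exact ⟨inferInstance, Module.finrank_zero_of_subsingleton⟩

theorem cod [CharZero F] (htr : Algebra.trdeg F κ = 1) (hfg : (⊤ : IntermediateField F κ).FG) (P : Place F κ → Prop)
    (ε γ : Place F κ → κ) (hε : ∀ w, ε w ≠ 0) (hγ : Dv γ) (hR : ∀ w, γ w ∈ w.R) :
    Module.Finite F (LS P (fun w => ε w * γ w) ⧸ (LS P ε).submoduleOf (LS P fun w => ε w * γ w)) ∧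
      (Module.finrank F (LS P (fun w => ε w * γ w) ⧸ (LS P ε).submoduleOf (LS P fun w => ε w * γ w)) : ℤ) ≤ dD γ := by
  classical
  obtain ⟨gT, hgT⟩ : ∃ gT : Finset (Place F κ) → Place F κ → κ,
      gT = fun T w => if w ∈ T then γ w else 1 := ⟨_, rfl⟩
  have hin : ∀ T w, w ∈ T → gT T w = γ w := fun T w h => by
    rw [hgT]
    exact if_pos h
  have hout : ∀ T w, w ∉ T → gT T w = 1 := fun T w h => by
    rw [hgT]
    exact if_neg h
  have hgR : ∀ T w, gT T w ∈ w.R := by
    intro T w
    by_cases h : w ∈ T
    · rw [hin T w h]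
      exact hR w
    · rw [hout T w h]
      exact w.R.one_mem
  have key : ∀ T : Finset (Place F κ),
      Module.Finite F (LS P (fun w => ε w * gT T w) ⧸
        (LS P ε).submoduleOf (LS P fun w => ε w * gT T w)) ∧
      (Module.finrank F (LS P (fun w => ε w * gT T w) ⧸
        (LS P ε).submoduleOf (LS P fun w => ε w * gT T w)) : ℤ) ≤
          ∑ w ∈ T, w.ord (γ w) * (deg w : ℤ) := by
    intro T
    induction T using Finset.induction_on with
    | empty =>
      have h : LS P (fun w => ε w * gT ∅ w) ≤ LS P ε := by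
        intro g hg w hw
        have h1 := hg w hw
        beta_reduce at h1 ⊢
        rw [hout ∅ w (Finset.notMem_empty w), mul_one] at h1
        exact h1
      obtain ⟨h1, h2⟩ := cod_self _ _ h
      refine ⟨h1, ?_⟩
      rw [h2, Finset.sum_empty, Nat.cast_zero]
    | insert w₀ T' hw₀ ih =>
      obtain ⟨ih1, ih2⟩ := ih
      have hlow : LS P ε ≤ LS P (fun w => ε w * gT T' w) := ls_le P ε (gT T') (hgR T')
      have hsame : ∀ w, w ≠ w₀ → gT (insert w₀ T') w = gT T' w := by
        intro w hw
        by_cases h : w ∈ T'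
        · rw [hin _ w h, hin _ w (Finset.mem_insert_of_mem h)]
        · rw [hout _ w h, hout _ w (by
            rw [Finset.mem_insert, not_or]
            exact ⟨hw, h⟩)]
      have h0 : gT T' w₀ = 1 := hout _ _ hw₀
      have h0' : gT (insert w₀ T') w₀ = γ w₀ := hin _ _ (Finset.mem_insert_self _ _)
      have hmid : LS P (fun w => ε w * gT T' w) ≤ LS P (fun w => ε w * gT (insert w₀ T') w) := by
        intro g hg w hw
        have h1 := hg w hw
        beta_reduce at h1 ⊢
        by_cases h : w = w₀
        · subst h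
          rw [h0, mul_one] at h1
          rw [h0', ← mul_assoc]
          exact w.R.mul_mem _ _ h1 (hR w)
        · rw [hsame w h]
          exact h1
      have hord : 0 ≤ w₀.ord (γ w₀) := (ord_nonneg w₀ _ (hγ.ne w₀)).2 (hR w₀)
      have hstep : Module.Finite F (LS P (fun w => ε w * gT (insert w₀ T') w) ⧸
          (LS P (fun w => ε w * gT T' w)).submoduleOf
            (LS P fun w => ε w * gT (insert w₀ T') w)) ∧
          Module.finrank F (LS P (fun w => ε w * gT (insert w₀ T') w) ⧸
          (LS P (fun w => ε w * gT T' w)).submoduleOf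
            (LS P fun w => ε w * gT (insert w₀ T') w)) ≤ (w₀.ord (γ w₀)).toNat * deg w₀ := by
        by_cases hP : P w₀
        · refine quo w₀ (deg_pos htr hfg w₀) _ _ hmid (ε w₀ * γ w₀)
            (mul_ne_zero (hε w₀) (hγ.ne w₀)) (fun g hg => ?_) _ (fun g hg hg' w hw => ?_)
          · have h1 := hg w₀ hP
            beta_reduce at h1 ⊢
            rw [h0'] at h1
            exact h1
          · by_cases h : w = w₀
            · subst h
              beta_reduce
              rw [h0, mul_one]
              rcases hg' with rfl | hg'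
              · rw [zero_mul]
                exact w.R.zero_mem
              · by_cases hg0 : g = 0
                · rw [hg0, zero_mul]
                  exact w.R.zero_mem
                · rw [Int.toNat_of_nonneg hord, ← mul_assoc,
                    ord_mul _ _ _ (mul_ne_zero hg0 (hε w)) (hγ.ne w)] at hg'
                  exact (ord_nonneg w _ (mul_ne_zero hg0 (hε w))).1 (by omega)
            · have h1 := hg w hw
              beta_reduce at h1 ⊢
              rw [hsame w h] at h1
              exact h1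
        · have h : LS P (fun w => ε w * gT (insert w₀ T') w) ≤
              LS P (fun w => ε w * gT T' w) := by
            intro g hg w hw
            have h1 := hg w hw
            beta_reduce at h1 ⊢
            rw [hsame w (fun h => hP (h ▸ hw))] at h1
            exact h1
          obtain ⟨h1, h2⟩ := cod_self _ _ h
          exact ⟨h1, by rw [h2]; exact Nat.zero_le _⟩
      obtain ⟨hs1, hs2⟩ := hstep
      obtain ⟨ht1, ht2⟩ := cod_tri _ _ _ hmid hlow hs1 ih1
      refine ⟨ht1, ?_⟩
      rw [Finset.sum_insert hw₀]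
      have h1 : (((w₀.ord (γ w₀)).toNat * deg w₀ : ℕ) : ℤ) = w₀.ord (γ w₀) * (deg w₀ : ℤ) := by
        rw [Nat.cast_mul, Int.toNat_of_nonneg hord]
      rw [← h1]
      have h2 : ((Module.finrank F (LS P (fun w => ε w * gT (insert w₀ T') w) ⧸
          (LS P ε).submoduleOf (LS P fun w => ε w * gT (insert w₀ T') w)) : ℕ) : ℤ) ≤
          ((Module.finrank F (LS P (fun w => ε w * gT (insert w₀ T') w) ⧸
          (LS P (fun w => ε w * gT T' w)).submoduleOf
            (LS P fun w => ε w * gT (insert w₀ T') w)) : ℕ) : ℤ) +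
          ((Module.finrank F (LS P (fun w => ε w * gT T' w) ⧸
            (LS P ε).submoduleOf (LS P fun w => ε w * gT T' w)) : ℕ) : ℤ) := by
        exact_mod_cast ht2
      have h3 : ((Module.finrank F (LS P (fun w => ε w * gT (insert w₀ T') w) ⧸
          (LS P (fun w => ε w * gT T' w)).submoduleOf
            (LS P fun w => ε w * gT (insert w₀ T') w)) : ℕ) : ℤ) ≤
          (((w₀.ord (γ w₀)).toNat * deg w₀ : ℕ) : ℤ) := by
        exact_mod_cast hs2
      linarith
  have hEq : LS P (fun w => ε w * gT hγ.fin.toFinset w) = LS P (fun w => ε w * γ w) := by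
    apply le_antisymm
    · intro g hg w hw
      have h1 := hg w hw
      beta_reduce at h1 ⊢
      by_cases h : w ∈ hγ.fin.toFinset
      · rw [hin _ w h] at h1
        exact h1
      · rw [hout _ w h, mul_one] at h1
        rw [← mul_assoc]
        exact w.R.mul_mem _ _ h1 (hR w)
    · intro g hg w hw
      have h1 := hg w hw
      beta_reduce at h1 ⊢
      by_cases h : w ∈ hγ.fin.toFinset
      · rw [hin _ w h]
        exact h1
      · rw [hout _ w h, mul_one]
        have h2 : w.ord (γ w) = 0 := by
          by_contra h3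
          exact h (hγ.fin.mem_toFinset.2 h3)
        have h3 := ((ord_eq_zero w _ (hγ.ne w)).1 h2).2
        have h4 := w.R.mul_mem _ _ h1 h3
        have h5 : g * (ε w * γ w) * (γ w)⁻¹ = g * ε w := by
          rw [← mul_assoc, mul_assoc, mul_inv_cancel₀ (hγ.ne w), mul_one]
        rw [h5] at h4
        exact h4
  have hd : dD γ = ∑ w ∈ hγ.fin.toFinset, w.ord (γ w) * (deg w : ℤ) := by
    unfold dD
    refine finsum_eq_sum_of_support_subset _ fun w hw => ?_
    rw [Finset.mem_coe, Set.Finite.mem_toFinset]
    intro h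
    apply hw
    change w.ord (γ w) * (deg w : ℤ) = 0
    rw [h, zero_mul]
  rw [hd, ← hEq]
  exact key _

end Pool.Agent.H61.AB
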