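import Pool.Agent.H61.AB.Def
import Pool.Agent.H41.TK.H1
import Pool.Agent.H41.TK.DG
import Pool.Agent.H83.AY.Hrt

/-!
# [H61 AB Cs1] ABUNDANCE (MP_e49dc9_ag), (H4): the places of a normal curve

`C` a normal curve (`Crv C`, `Nml C`), `cenK` the centre of a place (H83/TU/Cen).
`cs_mem`: the local ring at the centre of `w` is `w.R`.
PROOF.  `x` the centre, `A = C.O x`; `A ≠ ⊤` (otherwise `w.R` is everything by `cenK_dom`; but `w.ord` has the value `1`, `ord_unif`).  `A` is noetherian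
(`noe_O`), integrally closed (`ic_O`), local, its quotient field is the function field (`fr_O`), not a field, and it has dimension one: for a nonunit
`u ≠ 0` and `b ∈ A`, `b ≠ 0`: `u ^ n * b⁻¹ ∈ A` (`dim1`, H41/TK/D1), so `u` is in every prime ideal which contains `b`, and the only nonzero prime ideal is the
maximal ideal.  So `A` is a discrete valuation ring (`IsDiscreteValuationRing.TFAE` / `IsDedekindDomain`), `place_of_dvr` (H83/AY/Hrt): `A = p.R`.  `p.R ⊆ w.R`
(`cenK_dom`) and `p.R` is a maximal subring: if `a ∈ w.R`, `a ∉ p.R` then `a⁻¹` is in the maximal ideal of `p.R`, `(a⁻¹)⁻¹ ∈ w.R`, so by `cenK_dom` `a ∈ A`.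
`cs_surj`: every point `x` with `C.O x ≠ ⊤` is the centre of a place (`exists_dom`, H41/TK/PL; `cenK_eq`).
-/

set_option autoImplicit false

namespace Pool.Agent.H61.AB

open Pool.Agent.H54.RV Pool.Agent.H83.TU Pool.Agent.H83.AY Pool.Agent.H41.TK

variable {F κ : Type} [Field F] [Field κ] [Algebra F κ] {C : Mod F κ}

private theorem cs_top (h : Crv C) (w : Place F κ) : C.O (cenK h.var h.gen w) ≠ ⊤ := by
  intro ht
  have hw := w.dvr
  apply hw.not_a_field
  rw [eq_bot_iff]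
  intro a ha
  by_contra h0
  have h1 : (a : κ) ≠ 0 := fun hc => h0 (by
    rw [Ideal.mem_bot]
    exact Subtype.ext hc)
  have h2 : (a : κ)⁻¹ ∈ w.R := cenK_le h.var h.gen w _ (by
    rw [ht]
    exact Algebra.mem_top)
  rw [IsLocalRing.mem_maximalIdeal, mem_nonunits_iff] at ha
  exact ha (IsUnit.of_mul_eq_one ⟨_, h2⟩ (Subtype.ext (mul_inv_cancel₀ h1)))

private theorem cs_un {A : Subalgebra F κ} (a : A) (ha : Un A a) : IsUnit a :=
  IsUnit.of_mul_eq_one ⟨_, ha.2.2⟩ (Subtype.ext (mul_inv_cancel₀ ha.1))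

private theorem cs_dvr (h : Crv C) (hN : Nml C) (x : C.P) (hx : C.O x ≠ ⊤) : IsDiscreteValuationRing (C.O x) := by
  have hno := noe_O h.var x
  have hic := ic_O h.var h.gen hN x
  have hfr := fr_O h.var h.gen x
  have hnf : ¬ IsField (C.O x) := by
    intro hf
    apply hx
    rw [eq_top_iff]
    intro a _
    obtain ⟨n, d, hd, hnd⟩ := IsFractionRing.div_surjective (A := C.O x) a
    have hd0 : d ≠ 0 := nonZeroDivisors.ne_zero hd
    obtain ⟨e, he⟩ := hf.mul_inv_cancel hd0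
    have he' : (d : κ) * (e : κ) = 1 := congrArg Subtype.val he
    have h1 : a = (n : κ) * (e : κ) := by
      rw [← hnd]
      change (n : κ) / (d : κ) = _
      rw [div_eq_mul_inv, inv_eq_of_mul_eq_one_right he']
    rw [h1]
    exact (C.O x).mul_mem n.2 e.2
  have hmax : IsLocalRing.maximalIdeal (C.O x) ≠ ⊥ := fun hc => hnf (IsLocalRing.isField_iff_maximalIdeal_eq.2 hc)
  have hT : IsDiscreteValuationRing (C.O x) ↔
      (IsIntegrallyClosed (C.O x) ∧ ∃! P : Ideal (C.O x), P ≠ ⊥ ∧ P.IsPrime) :=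
    (IsDiscreteValuationRing.TFAE (C.O x) hnf).out 0 3
  refine hT.2 ⟨hic, IsLocalRing.maximalIdeal (C.O x), ⟨hmax, inferInstance⟩, ?_⟩
  rintro P ⟨hP0, hP⟩
  refine le_antisymm (IsLocalRing.le_maximalIdeal hP.ne_top) fun u hu => ?_
  by_cases hu0 : u = 0
  · rw [hu0]
    exact P.zero_mem
  obtain ⟨b, hb, hb0⟩ := Submodule.exists_mem_ne_zero_of_ne_bot hP0
  have hb0' : (b : κ) ≠ 0 := fun hc => hb0 (Subtype.ext hc)
  obtain ⟨n, hn⟩ := dim1 h x u u.2 (fun hc => hu0 (Subtype.ext hc)) (fun hc => by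
    rw [IsLocalRing.mem_maximalIdeal, mem_nonunits_iff] at hu
    exact hu (cs_un u hc)) ((b : κ)⁻¹)
  have h1 : u ^ n = ⟨_, hn⟩ * b := by
    refine Subtype.ext ?_
    show (u : κ) ^ n = (u : κ) ^ n * (b : κ)⁻¹ * b
    rw [mul_assoc, inv_mul_cancel₀ hb0', mul_one]
  exact hP.mem_of_pow_mem n (by
    rw [h1]
    exact P.mul_mem_left _ hb)

theorem cs_mem [CharZero F] (h : Crv C) (hN : Nml C) (w : Place F κ) (a : κ) :
    a ∈ C.O (cenK h.var h.gen w) ↔ a ∈ w.R := by
  refine ⟨cenK_le h.var h.gen w a, fun ha => ?_⟩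
  obtain ⟨p, hp⟩ := place_of_dvr _ (fr_O h.var h.gen _) (cs_dvr h hN _ (cs_top h w))
  by_contra hcon
  have h1 : a⁻¹ ∈ p.R := (p.R.mem_or_inv_mem a).resolve_left fun hc => hcon ((hp a).2 hc)
  have h0 : a ≠ 0 := by
    rintro rfl
    exact hcon (zero_mem _)
  have h2 := (cenK_dom h.var h.gen w _ ((hp _).2 h1)).2 (inv_ne_zero h0)
  rw [inv_inv] at h2
  exact hcon (h2 ha)

theorem cs_surj [CharZero F] (h : Crv C) (x : C.P) (hx : C.O x ≠ ⊤) : ∃ w : Place F κ, cenK h.var h.gen w = x := by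
  obtain ⟨p, hp⟩ := exists_dom h x hx
  exact ⟨p, (cenK_eq h.var h.gen p x hp).symm⟩

end Pool.Agent.H61.AB
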