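import Pool.Agent.H61.AB.Cod

/-!
# [H61 AB Fd] ABUNDANCE (MP_e49dc9_ag), (H4): the spaces are finite dimensional

`fd`: PROOF.  Let `w₀` be a place (if there is none: `exists_pole` gives one, `κ` contains an element transcendental over `F`), `π` with `ord π = 1` at `w₀`.  For `n : ℕ` let `ε' w₀ := ε w₀ / π ^ n`, `ε' w := ε w` otherwise; `dD ε' = dD ε - n deg w₀`,
negative for large `n`.  Then `LD ε' = 0`: for `g ≠ 0` in `LD ε'` all `ord (g ε' w) ≥ 0`, so `0 ≤ ∑ ord (g ε' w) deg w = 0 + dD ε'` (`sum_ordD`, `fin_ordD`, `finsum_add_distrib`).  `cod` with `P = True`, `γ w₀ = π ^ n`, `γ w = 1`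
otherwise: `LD ε / LD ε'` is finite, so `LD ε` is.
`bd`: from `cod` with `P = True` and `Submodule.finrank_quotient_add_finrank`.
`dD_pow`, `Dv.mul`, `Dv.pow`, `dD_mul`: `ord_mul`, finite sums.
`bdj`: `bd` for `γ = β ^ j`.
`sur`: PROOF.  The linear map `LD (ε γ) / LD ε → LS P (ε γ) / LS P ε` is injective: if `l ∈ LD (ε γ)` and `l ∈ LS P ε` then `l ∈ LD ε`: at the places without `P` the element `γ w` is a unit (`hP`, `ord_eq_zero`).  By `heq` the first space has
dimension `dD γ` (it is finite dimensional: `fd`), the second has dimension at most `dD γ` (`cod`); so the map is onto.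
-/

set_option autoImplicit false

open scoped IntermediateField

namespace Pool.Agent.H61.AB

open Pool.Agent.H54.RV Pool.Agent.H83.TU

variable {F κ : Type} [Field F] [Field κ] [Algebra F κ]

private theorem fd_sub {M : Type} [AddCommGroup M] [Module F M] {N N' : Submodule F M} (x : N) :
    x ∈ N'.submoduleOf N ↔ (x : M) ∈ N' := Iff.rfl

private theorem fd_supp {ε : Place F κ → κ} (hε : {w : Place F κ | w.ord (ε w) ≠ 0}.Finite) :
    (Function.support fun w : Place F κ => w.ord (ε w) * (deg w : ℤ)).Finite := by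
  refine hε.subset fun w hw h0 => hw ?_
  change w.ord (ε w) * (deg w : ℤ) = 0
  rw [h0, zero_mul]

private theorem fd_mul {ε γ : Place F κ → κ} (hε : Dv ε) (hγ : Dv γ) :
    dD (fun w => ε w * γ w) = dD ε + dD γ := by
  unfold dD
  rw [← finsum_add_distrib (fd_supp hε.fin) (fd_supp hγ.fin)]
  refine finsum_congr fun w => ?_
  rw [ord_mul w _ _ (hε.ne w) (hγ.ne w), add_mul]

theorem Dv.mul {ε γ : Place F κ → κ} (hε : Dv ε) (hγ : Dv γ) : Dv (fun w => ε w * γ w) := by
  refine ⟨fun w => mul_ne_zero (hε.ne w) (hγ.ne w), (hε.fin.union hγ.fin).subset ?_⟩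
  intro w hw
  by_contra h
  rw [Set.mem_union, not_or] at h
  have h1 : w.ord (ε w) = 0 := not_not.1 h.1
  have h2 : w.ord (γ w) = 0 := not_not.1 h.2
  apply hw
  change w.ord (ε w * γ w) = 0
  rw [ord_mul w _ _ (hε.ne w) (hγ.ne w), h1, h2, add_zero]

theorem Dv.pow {ε : Place F κ → κ} (hε : Dv ε) (n : ℕ) : Dv (fun w => ε w ^ n) := by
  induction n with
  | zero =>
    refine ⟨fun w => by rw [pow_zero]; exact one_ne_zero, ?_⟩
    refine Set.finite_empty.subset fun w hw => hw ?_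
    rw [pow_zero, ord_one]
  | succ n ih =>
    simp only [pow_succ]
    exact ih.mul hε

theorem dD_pow {ε : Place F κ → κ} (hε : Dv ε) (n : ℕ) : dD (fun w => ε w ^ n) = n * dD ε := by
  induction n with
  | zero =>
    unfold dD
    simp only [pow_zero, ord_one, zero_mul, finsum_zero, Nat.cast_zero]
  | succ n ih =>
    simp only [pow_succ]
    rw [fd_mul (hε.pow n) hε, ih]
    push_cast
    ring

theorem fd [CharZero F] (htr : Algebra.trdeg F κ = 1) (hfg : (⊤ : IntermediateField F κ).FG) {ε : Place F κ → κ}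
    (hε : Dv ε) : FiniteDimensional F (LD ε) := by
  classical
  have hnat : ∃ f : κ, Transcendental F f := by
    by_contra hcon
    push Not at hcon
    have h1 : Algebra.IsAlgebraic F κ := ⟨fun x => by
      by_contra hx
      exact hcon x hx⟩
    rw [trdeg_eq_zero] at htr
    exact zero_ne_one htr
  obtain ⟨f, hf⟩ := hnat
  obtain ⟨w₀, -⟩ := exists_pole htr hfg f hf
  obtain ⟨π, hπ0, hπ⟩ := ord_unif w₀
  obtain ⟨n, hn⟩ : ∃ n : ℕ, dD ε < n := ⟨(dD ε).toNat + 1, by omega⟩
  have hdeg : 0 < deg w₀ := deg_pos htr hfg w₀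
  obtain ⟨γ, hγ⟩ : ∃ γ : Place F κ → κ, ∀ w, γ w = if w = w₀ then π ^ n else 1 := ⟨_, fun w => rfl⟩
  have hγ0 : ∀ w, γ w ≠ 0 := by
    intro w
    rw [hγ]
    split_ifs
    · exact pow_ne_zero n hπ0
    · exact one_ne_zero
  have hπn : w₀.ord (π ^ n) = n := by
    clear hn hγ hγ0
    induction n with
    | zero => rw [pow_zero, ord_one, Nat.cast_zero]
    | succ n ih =>
      rw [pow_succ, ord_mul w₀ _ _ (pow_ne_zero n hπ0) hπ0, ih, hπ, Nat.cast_succ]
  have hγo : ∀ w, w ≠ w₀ → w.ord (γ w) = 0 := by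
    intro w hw
    rw [hγ, if_neg hw, ord_one]
  have hγD : Dv γ := ⟨hγ0, (Set.finite_singleton w₀).subset fun w hw => by
    by_contra h
    exact hw (hγo w h)⟩
  have hdγ : dD γ = n * deg w₀ := by
    unfold dD
    rw [finsum_eq_single _ w₀ (fun w hw => by rw [hγo w hw, zero_mul]), hγ, if_pos rfl, hπn]
  obtain ⟨ε', hε'⟩ : ∃ ε' : Place F κ → κ, ∀ w, ε' w = ε w * (γ w)⁻¹ := ⟨_, fun w => rfl⟩
  have hmul : ∀ w, ε' w * γ w = ε w := by
    intro w
    rw [hε', inv_mul_cancel_right₀ (hγ0 w)]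
  have hε'0 : ∀ w, ε' w ≠ 0 := by
    intro w
    rw [hε']
    exact mul_ne_zero (hε.ne w) (inv_ne_zero (hγ0 w))
  have hε'D : Dv ε' := by
    refine ⟨hε'0, (hε.fin.union hγD.fin).subset ?_⟩
    intro w hw
    by_contra h
    rw [Set.mem_union, not_or] at h
    have h1 : w.ord (ε w) = 0 := not_not.1 h.1
    have h2 : w.ord (γ w) = 0 := not_not.1 h.2
    apply hw
    change w.ord (ε' w) = 0
    rw [hε', ord_mul w _ _ (hε.ne w) (inv_ne_zero (hγ0 w)), ord_inv, h1, h2, neg_zero, add_zero]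
  have hfun : (fun w => ε' w * γ w) = ε := funext hmul
  have hneg : dD ε' < 0 := by
    have h1 := fd_mul hε'D hγD
    rw [hfun, hdγ] at h1
    have h2 : (n : ℤ) * 1 ≤ n * deg w₀ := mul_le_mul_of_nonneg_left (by exact_mod_cast hdeg) (by positivity)
    linarith
  have hbot : LD ε' = ⊥ := by
    rw [Submodule.eq_bot_iff]
    intro g hg
    by_contra hg0
    have h1 : ∀ w : Place F κ, 0 ≤ (w.ord g + w.ord (ε' w)) * (deg w : ℤ) := by
      intro w
      have h2 := (ord_nonneg w _ (mul_ne_zero hg0 (hε'0 w))).2 ((mem_LD ε' g).1 hg w)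
      rw [ord_mul w _ _ hg0 (hε'0 w)] at h2
      exact mul_nonneg h2 (Int.natCast_nonneg _)
    have h3 := finsum_nonneg h1
    have h4 : ∀ w : Place F κ, (w.ord g + w.ord (ε' w)) * (deg w : ℤ) =
        w.ord g * (deg w : ℤ) + w.ord (ε' w) * (deg w : ℤ) := fun w => add_mul _ _ _
    rw [finsum_congr h4, finsum_add_distrib (fd_supp (ε := fun _ => g) (fin_ordD htr hfg g hg0))
      (fd_supp hε'D.fin), sum_ordD htr hfg g hg0, zero_add] at h3
    exact absurd h3 (not_le.2 hneg)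
  have hR : ∀ w, γ w ∈ w.R := by
    intro w
    rw [← ord_nonneg w _ (hγ0 w)]
    by_cases hw : w = w₀
    · rw [hw, hγ, if_pos rfl, hπn]
      exact Int.natCast_nonneg _
    · rw [hγo w hw]
  have h5 := (cod htr hfg (fun _ => True) ε' γ hε'0 hγD hR).1
  rw [hfun] at h5
  have h6 : (LS (fun _ => True) ε').submoduleOf (LS (fun _ => True) ε) = ⊥ := by
    have h7 : LS (fun _ => True) ε' = ⊥ := hbot
    rw [h7]
    ext x
    rw [fd_sub, Submodule.mem_bot, Submodule.mem_bot]
    exact ⟨fun h => Subtype.ext h, fun h => by rw [h]; rfl⟩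
  have h8 : Module.Finite F (LS (fun _ => True) ε) :=
    Module.Finite.equiv (Submodule.quotEquivOfEqBot _ h6)
  exact h8

theorem bd [CharZero F] (htr : Algebra.trdeg F κ = 1) (hfg : (⊤ : IntermediateField F κ).FG) {ε γ : Place F κ → κ}
    (hε : Dv ε) (hγ : Dv γ) (hR : ∀ w, γ w ∈ w.R) :
    (Module.finrank F (LD fun w => ε w * γ w) : ℤ) ≤ Module.finrank F (LD ε) + dD γ := by
  have h1 := fd htr hfg (hε.mul hγ)
  have h2 := (cod htr hfg (fun _ => True) ε γ hε.ne hγ hR).2
  have h3 := Submodule.finrank_quotient_add_finrank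
    ((LD ε).submoduleOf (LD fun w => ε w * γ w))
  have h4 : LD ε ≤ LD fun w => ε w * γ w := ls_le _ ε γ hR
  have h5 := (Submodule.submoduleOfEquivOfLe h4).finrank_eq
  have h6 : (Module.finrank F (LD (fun w => ε w * γ w) ⧸
      (LD ε).submoduleOf (LD fun w => ε w * γ w)) : ℤ) ≤ dD γ := h2
  rw [h5] at h3
  rw [← h3]
  push_cast
  linarith

theorem bdj [CharZero F] (htr : Algebra.trdeg F κ = 1) (hfg : (⊤ : IntermediateField F κ).FG) {ε β : Place F κ → κ}
    (hε : Dv ε) (hβ : Dv β) (hR : ∀ w, β w ∈ w.R) (j : ℕ) :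
    (Module.finrank F (LD fun w => ε w * β w ^ j) : ℤ) ≤ Module.finrank F (LD ε) + j * dD β := by
  have h1 := bd htr hfg hε (hβ.pow j) (fun w => w.R.pow_mem (hR w) j)
  rwa [dD_pow hβ] at h1

theorem sur [CharZero F] (htr : Algebra.trdeg F κ = 1) (hfg : (⊤ : IntermediateField F κ).FG) (P : Place F κ → Prop)
    {ε γ : Place F κ → κ} (hε : Dv ε) (hγ : Dv γ) (hR : ∀ w, γ w ∈ w.R) (hP : ∀ w, w.ord (γ w) ≠ 0 → P w)
    (heq : (Module.finrank F (LD fun w => ε w * γ w) : ℤ) = Module.finrank F (LD ε) + dD γ) (g : κ)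
    (hg : g ∈ LS P fun w => ε w * γ w) : ∃ l ∈ LD (fun w => ε w * γ w), g - l ∈ LS P ε := by
  have hU := fd htr hfg (hε.mul hγ)
  obtain ⟨hfin, hle⟩ := cod htr hfg P ε γ hε.ne hγ hR
  have hUV : LD (fun w => ε w * γ w) ≤ LS P fun w => ε w * γ w := fun l hl w _ => hl w trivial
  obtain ⟨φ, hφ⟩ : ∃ φ : LD (fun w => ε w * γ w) →ₗ[F]
      (LS P (fun w => ε w * γ w) ⧸ (LS P ε).submoduleOf (LS P fun w => ε w * γ w)),
      φ = (Submodule.mkQ _).comp (Submodule.inclusion hUV) := ⟨_, rfl⟩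
  have hφ0 : ∀ l, φ l = 0 ↔ (l : κ) ∈ LS P ε := by
    intro l
    rw [hφ, LinearMap.comp_apply, Submodule.mkQ_apply, Submodule.Quotient.mk_eq_zero,
      fd_sub]
    rfl
  have hker : LinearMap.ker φ = (LD ε).submoduleOf (LD fun w => ε w * γ w) := by
    ext l
    rw [LinearMap.mem_ker, hφ0, fd_sub, mem_LD]
    constructor
    · intro h w
      by_cases hw : P w
      · exact h w hw
      · have h1 : w.ord (γ w) = 0 := by
          by_contra h2
          exact hw (hP w h2)
        have h2 := ((ord_eq_zero w _ (hγ.ne w)).1 h1).2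
        have h3 := w.R.mul_mem _ _ ((mem_LD _ _).1 l.2 w) h2
        have h4 : (l : κ) * (ε w * γ w) * (γ w)⁻¹ = l * ε w := by
          rw [← mul_assoc, mul_inv_cancel_right₀ (hγ.ne w)]
        rwa [h4] at h3
    · intro h w _
      exact h w
  have hle' : LD ε ≤ LD fun w => ε w * γ w := ls_le _ ε γ hR
  have h5 := (Submodule.submoduleOfEquivOfLe hle').finrank_eq
  have h6 := LinearMap.finrank_range_add_finrank_ker φ
  rw [hker, h5] at h6
  have h7 : LinearMap.range φ = ⊤ := by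
    refine Submodule.eq_top_of_finrank_eq (le_antisymm (Submodule.finrank_le _) ?_)
    have h8 : ((Module.finrank F (LinearMap.range φ) + Module.finrank F (LD ε) : ℕ) : ℤ) =
        Module.finrank F (LD fun w => ε w * γ w) := by rw [h6]
    push_cast at h8
    have h9 : (Module.finrank F (LS P (fun w => ε w * γ w) ⧸
        (LS P ε).submoduleOf (LS P fun w => ε w * γ w)) : ℤ) ≤ Module.finrank F (LinearMap.range φ) := by
      linarith
    exact_mod_cast h9
  have h8 : (Submodule.mkQ ((LS P ε).submoduleOf (LS P fun w => ε w * γ w))) ⟨g, hg⟩ ∈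
      LinearMap.range φ := by
    rw [h7]
    exact Submodule.mem_top
  obtain ⟨l, hl⟩ := h8
  refine ⟨l, l.2, ?_⟩
  rw [hφ, LinearMap.comp_apply, Submodule.mkQ_apply, Submodule.mkQ_apply, eq_comm,
    Submodule.Quotient.eq, fd_sub] at hl
  exact hl

end Pool.Agent.H61.AB
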