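import Pool.Agent.H61.AB.Cs1
import Pool.Agent.H61.AB.Fd

/-!
# [H61 AB Cs2] ABUNDANCE (MP_e49dc9_ag), (H4): sections and degrees on a normal curve by the places

`C` a normal curve; `cq h D w` the local equation of `D` at the centre of the place `w`.
* `cs_dv`: `Dv (cq h D)`: finitely many points `x` with `D.eq x` not a unit (`fin_cart`, H41/TK/FU), `ord (D.eq x) = 0` if it is a unit (`cs_mem`), and
  different places have different centres (`cs_mem`: the centre determines `w.R`; `Place` is determined by `R`).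
* `cs_sec`: `secL D 1 = LD (cq h D)`: `cs_mem`, `cs_surj`; nothing to check at the points with `C.O x = ⊤`.
* `cs_deg`: `dg D = dD (cq h D)` for effective `D`.
PROOF of `cs_deg`.  (i) `dg D ≤ dD D` for effective `D`: `n * dg D + chi C ≤ h0 (D ^ n) 1` (`rr`, H41/TK/RR, `dg_pow`), `h0 (D ^ n) 1 = finrank (LD ..)` (`cs_sec`; `cq` is
multiplicative up to `rfl`) `≤ finrank (LD 1) + n * dD D` (`bdj`, Fd.lean), for all `n`.  (ii) Let `U, t, H` be a parameter (`par`, H41/TK/PR), `H` effective, `d = [κ : F(t)]`.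
`dg H ≤ d` (`deg_le`, H41/TK/DL; `dg H = qd ..` by `ix_le`) and `dD (cq h H) = d`: the places with `ord (H.eq) ≠ 0` are the poles of `t`, `ord (H.eq) = - ord t` there
(`Par.reg`, `Par.pol`), `zerosD` (H83/TU/PF3) for `t⁻¹`, `a3_eq` (`F(t⁻¹) = F(t)`).  And `d ≤ dg H`: `growth` (H41/TK/HG) `d (n + 1) ≤ h0 (H ^ (n + m)) 1` and `h0_le_dg` (H41/TK/DG)
`h0 (H ^ n) 1 ≤ n * dg H + h0 1 1`.  So `dg H = dD H = d > 0`.  (iii) `D` effective: for large `n` `h0 (H ^ n * D⁻¹) 1 > 0` (`rr`): `f ≠ 0` a section,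
`E := H ^ n * D⁻¹ * prin f` is effective, `dg D + dg E = n * dg H` (`dg_mul`, `dg_prin`, ..), `dD D + dD E = n * dD H` (`sum_ordD` for `f`).  With (i) for `D` and `E`: equality.
-/

set_option autoImplicit false

namespace Pool.Agent.H61.AB

open Pool.Agent.H54.RV Pool.Agent.H83.TU Pool.Agent.H83.AY Pool.Agent.H41.TK

variable {F κ : Type} [Field F] [Field κ] [Algebra F κ] {C : Mod F κ}

/-- the local equations at the places -/
noncomputable def cq (h : Crv C) (D : Cart C) : Place F κ → κ := fun w => D.eq (cenK h.var h.gen w)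

theorem cs_dv [CharZero F] (h : Crv C) (hN : Nml C) (D : Cart C) : Dv (cq h D) := by
  refine ⟨fun w => D.ne _, ?_⟩
  have hinj : Function.Injective (fun w : Place F κ => cenK h.var h.gen w) := by
    intro w w' (hw : cenK h.var h.gen w = cenK h.var h.gen w')
    apply place_ext
    ext a
    rw [← cs_mem h hN w a, ← cs_mem h hN w' a, hw]
  refine ((fin_cart h D).preimage hinj.injOn).subset ?_
  intro w hw hun
  apply hw
  exact (ord_eq_zero w _ (D.ne _)).2 ⟨(cs_mem h hN w _).1 hun.2.1, (cs_mem h hN w _).1 hun.2.2⟩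

theorem cs_sec [CharZero F] (h : Crv C) (hN : Nml C) (D : Cart C) : secL D 1 = LD (cq h D) := by
  ext g
  rw [mem_secL, mem_LD]
  constructor
  · intro hg w
    have h1 := hg (cenK h.var h.gen w)
    rw [pow_one] at h1
    exact (cs_mem h hN w _).1 h1
  · intro hg x
    rw [pow_one]
    by_cases hx : C.O x = ⊤
    · rw [hx]
      exact Algebra.mem_top
    · obtain ⟨w, rfl⟩ := cs_surj h x hx
      exact (cs_mem h hN w _).2 (hg w)

private theorem cs2_supp {ε : Place F κ → κ} (hε : {w : Place F κ | w.ord (ε w) ≠ 0}.Finite) :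
    (Function.support fun w : Place F κ => w.ord (ε w) * (deg w : ℤ)).Finite := by
  refine hε.subset fun w hw h0 => hw ?_
  change w.ord (ε w) * (deg w : ℤ) = 0
  rw [h0, zero_mul]

private theorem cs2_add {ε γ : Place F κ → κ} (hε : Dv ε) (hγ : Dv γ) :
    dD (fun w => ε w * γ w) = dD ε + dD γ := by
  unfold dD
  rw [← finsum_add_distrib (cs2_supp hε.fin) (cs2_supp hγ.fin)]
  refine finsum_congr fun w => ?_
  rw [ord_mul w _ _ (hε.ne w) (hγ.ne w), add_mul]

private theorem cs2_le [CharZero F] (h : Crv C) (hN : Nml C) (D : Cart C) (hD : Effective D) :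
    dg D ≤ dD (cq h D) := by
  have hfg := K_fg h.var h.gen
  have hβ := cs_dv h hN D
  have h1Dv : Dv (fun _ : Place F κ => (1 : κ)) := by
    refine ⟨fun _ => one_ne_zero, Set.finite_empty.subset fun w hw => hw ?_⟩
    exact ord_one w
  have hR : ∀ w : Place F κ, cq h D w ∈ w.R := fun w => (cs_mem h hN w _).1 (hD _)
  by_contra hcon
  rw [not_le] at hcon
  obtain ⟨c, hc⟩ : ∃ c : ℤ, c = (Module.finrank F (LD fun _ : Place F κ => (1 : κ)) : ℤ) := ⟨_, rfl⟩
  have key : ∀ n : ℕ, (n : ℤ) * dg D + chi C ≤ c + n * dD (cq h D) := by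
    intro n
    have e1 := rr h (D ^ n)
    rw [dg_pow h] at e1
    have e0 : cq h (D ^ n) = fun w => (1 : κ) * cq h D w ^ n := funext fun w => by
      rw [one_mul]
      exact pow_eq D n _
    have e2 : h0 (D ^ n) 1 = Module.finrank F (LD fun w : Place F κ => (1 : κ) * cq h D w ^ n) := by
      unfold h0
      rw [cs_sec h hN, e0]
    have e3 := bdj h.tr hfg h1Dv hβ hR n
    rw [← e2, ← hc] at e3
    have e4 : (0 : ℤ) ≤ hh (D ^ n) := Int.natCast_nonneg _
    linarith
  have h2 := key ((c - chi C).toNat + 1)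
  have h3 : c - chi C ≤ ((c - chi C).toNat : ℤ) := Int.self_le_toNat _
  have h4 : (0 : ℤ) ≤ ((c - chi C).toNat : ℤ) := Int.natCast_nonneg _
  push_cast at h2
  nlinarith

private theorem cs2_eff {U : Set C.P} {t : κ} {H : Cart C} (hP : Par C U t H) : Effective H := by
  intro x
  by_cases hx : x ∈ U
  · exact (hP.reg x hx).2.2.1
  · obtain ⟨h1, -, h2⟩ := hP.pol x hx
    have ht : t ≠ 0 := fun h0 => h2.1 (by rw [h0, mul_zero])
    have h3 := (C.O x).mul_mem h2.2.1 h1
    rwa [mul_assoc, mul_inv_cancel₀ ht, mul_one] at h3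

open scoped IntermediateField in
private theorem cs2_par [CharZero F] (h : Crv C) (hN : Nml C) {U : Set C.P} {t : κ} {H : Cart C} (hP : Par C U t H) :
    dD (cq h H) = (Module.finrank F⟮t⟯ κ : ℤ) := by
  have hfg := K_fg h.var h.gen
  have htt : Transcendental F t⁻¹ := by
    intro h1
    have h2 := h1.inv
    rw [inv_inv] at h2
    exact hP.tr h2
  have ht0 : t ≠ 0 := by
    rintro rfl
    exact hP.tr isAlgebraic_zero
  have hti0 : t⁻¹ ≠ 0 := inv_ne_zero ht0
  have hs := (zerosD h.tr hfg t⁻¹ htt).2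
  have h2 : Module.finrank F⟮t⁻¹⟯ κ = Module.finrank F⟮t⟯ κ :=
    congrArg (fun L : IntermediateField F κ => Module.finrank L κ) (a3_eq t)
  rw [h2, finsum_mem_def] at hs
  rw [← hs]
  unfold dD
  refine finsum_congr fun w => ?_
  rw [Set.indicator_apply]
  have hcw : cq h H w = H.eq (cenK h.var h.gen w) := rfl
  by_cases hx : cenK h.var h.gen w ∈ U
  · obtain ⟨h3, h4⟩ := hP.reg _ hx
    have h5 : 0 ≤ w.ord t := (ord_nonneg w t ht0).2 ((cs_mem h hN w _).1 h3)
    have h6 : w.ord (H.eq (cenK h.var h.gen w)) = 0 :=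
      (ord_eq_zero w _ (H.ne _)).2 ⟨(cs_mem h hN w _).1 h4.2.1, (cs_mem h hN w _).1 h4.2.2⟩
    rw [hcw, h6, zero_mul, if_neg]
    rw [Set.mem_ofPred_eq, ord_inv]
    omega
  · obtain ⟨h3, h4, h5⟩ := hP.pol _ hx
    have h6 : 0 ≤ w.ord t⁻¹ := (ord_nonneg w _ hti0).2 ((cs_mem h hN w _).1 h3)
    have h7 : w.ord t⁻¹ ≠ 0 := by
      intro h8
      apply h4
      obtain ⟨h9, h10⟩ := (ord_eq_zero w _ hti0).1 h8
      exact ⟨hti0, (cs_mem h hN w _).2 h9, (cs_mem h hN w _).2 h10⟩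
    have h8 : w.ord (H.eq (cenK h.var h.gen w) * t) = 0 :=
      (ord_eq_zero w _ h5.1).2 ⟨(cs_mem h hN w _).1 h5.2.1, (cs_mem h hN w _).1 h5.2.2⟩
    rw [ord_mul w _ _ (H.ne _) ht0] at h8
    rw [hcw, if_pos (show w ∈ {p : Place F κ | 0 < p.ord t⁻¹} from lt_of_le_of_ne h6 (Ne.symm h7)), ord_inv]
    congr 1
    omega

open scoped IntermediateField in
private theorem cs2_dg [CharZero F] (h : Crv C) {U : Set C.P} {t : κ} {H : Cart C} (hP : Par C U t H) :
    dg H = (Module.finrank F⟮t⟯ κ : ℤ) := by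
  have hH := cs2_eff hP
  have hle : AdD (1 : Cart C) ≤ AdD H := ad_mono H 1 fun x => by
    rw [one_eq, div_one]
    exact hH x
  have h1 : dg H = qd (AdD H) (AdD (1 : Cart C)) := ix_le hle
  have h2 := deg_le h hP
  have h3 : 0 ≤ dg H := dg_eff H hH
  obtain ⟨m, hm⟩ := growth h hP
  generalize Module.finrank F⟮t⟯ κ = d at *
  refine le_antisymm (by rw [h1]; exact_mod_cast h2) ?_
  by_contra hcon
  rw [not_le] at hcon
  obtain ⟨c, hc⟩ : ∃ c : ℕ, c = h0 (1 : Cart C) 1 := ⟨_, rfl⟩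
  have h4 := hm (m * d + c)
  have h5 := h0_le_dg h (H ^ (m * d + c + m)) (by
    rw [dg_pow h]
    exact mul_nonneg (Int.natCast_nonneg _) h3)
  rw [dg_pow h, ← hc] at h5
  have h6 : ((d * (m * d + c + 1) : ℕ) : ℤ) ≤ ((m * d + c + m : ℕ) : ℤ) * dg H + c := by
    refine le_trans ?_ h5
    exact_mod_cast h4
  have h7 : ((m * d + c + m : ℕ) : ℤ) * dg H ≤ ((m * d + c + m : ℕ) : ℤ) * (d - 1) :=
    mul_le_mul_of_nonneg_left (by omega) (Int.natCast_nonneg _)
  have hd : (1 : ℤ) ≤ d := by omega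
  have hm0 : (0 : ℤ) ≤ m := Int.natCast_nonneg _
  push_cast at h6 h7
  nlinarith

open scoped IntermediateField in
theorem cs_deg [CharZero F] (h : Crv C) (hN : Nml C) (D : Cart C) (hD : Effective D) : dg D = dD (cq h D) := by
  have hfg := K_fg h.var h.gen
  obtain ⟨U, t, H, hP⟩ := par h
  have hH := cs2_eff hP
  have h1 := cs2_par h hN hP
  have h2 := cs2_dg h hP
  have hfin := a3_fin h.tr hfg t hP.tr
  have hd : 0 < Module.finrank F⟮t⟯ κ := Module.finrank_pos
  obtain ⟨d, hd'⟩ : ∃ d : ℤ, d = (Module.finrank F⟮t⟯ κ : ℤ) := ⟨_, rfl⟩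
  rw [← hd'] at h1 h2
  have hd1 : 1 ≤ d := by omega
  -- a section
  obtain ⟨n, f, hf0, hf⟩ : ∃ (n : ℕ) (f : κ), f ≠ 0 ∧ f ∈ secL (H ^ n * D⁻¹) 1 := by
    refine ⟨(dg D - chi C).toNat + 1, ?_⟩
    by_contra hcon
    push Not at hcon
    have e1 := rr h (H ^ ((dg D - chi C).toNat + 1) * D⁻¹)
    rw [dg_mul h, dg_pow h, dg_inv h, h2] at e1
    have e2 : h0 (H ^ ((dg D - chi C).toNat + 1) * D⁻¹) 1 = 0 := by
      unfold h0
      have e3 : secL (H ^ ((dg D - chi C).toNat + 1) * D⁻¹) 1 = ⊥ := by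
        rw [Submodule.eq_bot_iff]
        intro s hs
        by_contra hs0
        exact hcon s hs0 hs
      rw [e3]
      exact finrank_bot F κ
    rw [e2] at e1
    have e4 : dg D - chi C ≤ ((dg D - chi C).toNat : ℤ) := Int.self_le_toNat _
    have e5 : (0 : ℤ) ≤ ((dg D - chi C).toNat : ℤ) := Int.natCast_nonneg _
    have e6 : (0 : ℤ) ≤ hh (H ^ ((dg D - chi C).toNat + 1) * D⁻¹) := Int.natCast_nonneg _
    push_cast at e1
    nlinarith
  obtain ⟨E, hE⟩ : ∃ E : Cart C, E = H ^ n * D⁻¹ * prin C f hf0 := ⟨_, rfl⟩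
  have hEe : Effective E := by
    intro x
    have h3 := hf x
    rw [pow_one] at h3
    rw [hE, mul_eq, mul_comm]
    exact h3
  have e1 : dg E = n * d - dg D := by
    rw [hE, dg_mul h, dg_mul h, dg_pow h, dg_inv h, dg_prin h, h2]
    ring
  have hDvf : Dv (fun _ : Place F κ => f) := ⟨fun _ => hf0, fin_ordD h.tr hfg f hf0⟩
  have e2 : dD (cq h E) + dD (cq h D) = n * d := by
    rw [← cs2_add (cs_dv h hN E) (cs_dv h hN D)]
    have e3 : (fun w => cq h E w * cq h D w) = fun w => (fun w => cq h H w ^ n) w * (fun _ : Place F κ => f) w := by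
      funext w
      have e4 : cq h E w = cq h H w ^ n * (cq h D w)⁻¹ * f := by
        show E.eq _ = _
        rw [hE, mul_eq, mul_eq, pow_eq, inv_eq]
        rfl
      have e5 : cq h D w ≠ 0 := D.ne _
      rw [e4]
      field_simp
    rw [e3, cs2_add ((cs_dv h hN H).pow n) hDvf, dD_pow (cs_dv h hN H), h1]
    have e6 : dD (fun _ : Place F κ => f) = 0 := sum_ordD h.tr hfg f hf0
    rw [e6, add_zero]
  have e7 := cs2_le h hN D hD
  have e8 := cs2_le h hN E hEe
  linarith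

end Pool.Agent.H61.AB
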