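import Pool.Agent.H61.AB.Def

/-!
# [H61 AB Dd] ABUNDANCE (MP_e49dc9_ag), (H4): derivations and discrete valuation rings

`der_bd`: `κ / F` a function field of one variable, characteristic `0`, `w` a place, `π` a uniformizer, `δ π ≠ 0`: `δ u / δ π ∈ w.R` for `u ∈ w.R`.
PROOF.  `D := (δ π)⁻¹ δ`, `D π = 1` (`D u := δ u / δ π`, a derivation).
(1) The orders of `D u`, `u ∈ w.R`, are bounded below: `π` is transcendental over `F` (`ord_alg`).  `B = BB F π` (integral closure of `A = F[π]` in `κ`; finite over `A`: `IsIntegralClosure.finite`, as in `pf1_part`, H83/TU/PF1), `B ⊆ w.R`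
(`π ∈ w.R`, integrally closed), `w.R` is the localisation of `B` at a prime (`place_le`: for the prime `P = 𝔪 ∩ B`, of height one, `plP F P` and `w` are equal; or: every `u ∈ w.R` is `a / s` with `a, s ∈ B`, `ord s = 0`).
With generators `b_1, .., b_n` of `B` over `F[π]`: `D (∑ c_i(π) b_i) = ∑ c_i'(π) b_i + ∑ c_i(π) D b_i`, so `ord (D b) ≥ -C` for `b ∈ B` (`C` from the `D b_i`); `D (a / s) = (s D a - a D s) / s ^ 2`: the same bound.
(2) The residue field of `w.R` is finite over `F` (`deg_pos`), so (characteristic `0`, primitive element, `Field.exists_primitive_element`) generated by the class of some `θ ∈ w.R`; `g ∈ F[T]` its minimal polynomial: `g(θ) = π z₀`, `z₀ ∈ w.R`,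
`g'(θ)` a unit of `w.R`.  `g'(θ) D θ = D (g(θ)) = z₀ + π D z₀`.
(3) Every `u ∈ w.R` is `c(θ) + π z`, `c ∈ F[T]`, `z ∈ w.R`: `D u = c'(θ) D θ + z + π D z`.
(4) Let `N ≥ 0` be minimal with `π ^ N D u ∈ w.R` for all `u ∈ w.R` (`Nat.find`).  If `N ≥ 1`: by (2) `π ^ (N - 1) D θ ∈ w.R`, by (3) `π ^ (N - 1) D u ∈ w.R` for all `u`: contradiction.
-/

set_option autoImplicit false

open scoped IntermediateField

namespace Pool.Agent.H61.AB

open Pool.Agent.H54.RV Pool.Agent.H83.TU

variable {F κ : Type} [Field F] [Field κ] [Algebra F κ]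

private theorem dd_adj (p : Place F κ) (f : κ) (hf : f ∈ p.R) (a : κ)
    (ha : a ∈ Algebra.adjoin F {f}) : a ∈ p.R := by
  induction ha using Algebra.adjoin_induction with
  | mem x hx =>
    rw [Set.mem_singleton_iff] at hx
    rw [hx]
    exact hf
  | algebraMap r => exact p.mem r
  | add x y _ _ hx hy => exact p.R.add_mem _ _ hx hy
  | mul x y _ _ hx hy => exact p.R.mul_mem _ _ hx hy

private theorem dd_int (p : Place F κ) (f : κ) (hf : f ∈ p.R) (b : BB F f) :
    (b : κ) ∈ p.R := by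
  have hb : IsIntegral (Algebra.adjoin F {f}) (b : κ) := b.2
  obtain ⟨P, hP, hP0⟩ := hb
  let φ : Algebra.adjoin F {f} →+* p.R :=
    { toFun := fun x => ⟨x.1, dd_adj p f hf x.1 x.2⟩
      map_one' := rfl
      map_mul' := fun _ _ => rfl
      map_zero' := rfl
      map_add' := fun _ _ => rfl }
  have h1 : IsIntegral p.R (b : κ) := by
    refine ⟨P.map φ, hP.map φ, ?_⟩
    rw [Polynomial.eval₂_map]
    exact hP0
  obtain ⟨y, hy⟩ := IsIntegrallyClosed.isIntegral_iff.1 h1
  rw [← hy]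
  exact y.2

private theorem dd_der (p : Place F κ) (D : Derivation F κ κ) (f : κ) (hf : f ∈ p.R) (hD : D f = 1) (a : κ)
    (ha : a ∈ Algebra.adjoin F {f}) : a ∈ p.R ∧ D a ∈ p.R := by
  induction ha using Algebra.adjoin_induction with
  | mem x hx =>
    rw [Set.mem_singleton_iff] at hx
    rw [hx, hD]
    exact ⟨hf, p.R.one_mem⟩
  | algebraMap r =>
    rw [Derivation.map_algebraMap]
    exact ⟨p.mem r, p.R.zero_mem⟩
  | add x y _ _ hx hy =>
    rw [map_add]
    exact ⟨p.R.add_mem _ _ hx.1 hy.1, p.R.add_mem _ _ hx.2 hy.2⟩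
  | mul x y _ _ hx hy =>
    rw [Derivation.leibniz, smul_eq_mul, smul_eq_mul]
    exact ⟨p.R.mul_mem _ _ hx.1 hy.1, p.R.add_mem _ _ (p.R.mul_mem _ _ hx.1 hy.2)
      (p.R.mul_mem _ _ hy.1 hx.2)⟩

private theorem dd_ne (w : Place F κ) (π : κ) (hπ : w.ord π = 1) : π ≠ 0 := by
  rintro rfl
  simp [Place.ord] at hπ

private theorem dd_ordpow (w : Place F κ) (π : κ) (hπ : w.ord π = 1) (n : ℕ) : w.ord (π ^ n) = n := by
  have h0 := dd_ne w π hπ
  induction n with
  | zero => rw [pow_zero, ord_one]; rfl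
  | succ n ih =>
    rw [pow_succ, ord_mul w _ _ (pow_ne_zero n h0) h0, ih, hπ]
    push_cast
    ring

private theorem dd_pole (w : Place F κ) (π : κ) (hπ : w.ord π = 1) (x : κ) : ∃ n : ℕ, π ^ n * x ∈ w.R := by
  have h0 := dd_ne w π hπ
  by_cases hx : x = 0
  · exact ⟨0, by rw [hx, mul_zero]; exact w.R.zero_mem⟩
  · refine ⟨(- w.ord x).toNat, ?_⟩
    rw [← ord_nonneg w _ (mul_ne_zero (pow_ne_zero _ h0) hx), ord_mul w _ _ (pow_ne_zero _ h0) hx,
      dd_ordpow w π hπ]
    omega

private theorem dd_pi (w : Place F κ) (π : κ) (hπ : w.ord π = 1) : π ∈ w.R :=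
  (ord_nonneg w π (dd_ne w π hπ)).1 (by rw [hπ]; exact zero_le_one)

open scoped IntermediateField.algebraAdjoinAdjoin in
private theorem dd_bound [CharZero F] (htr : Algebra.trdeg F κ = 1) (hfg : (⊤ : IntermediateField F κ).FG)
    (D : Derivation F κ κ) (w : Place F κ) (π : κ) (hπ : w.ord π = 1) (hD : D π = 1) :
    ∃ N : ℕ, ∀ u ∈ w.R, π ^ N * D u ∈ w.R := by
  classical
  have h0 := dd_ne w π hπ
  have hπR := dd_pi w π hπ
  have htt : Transcendental F π := by
    intro h
    rw [ord_alg π h0 h w] at hπ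
    exact zero_ne_one hπ
  obtain ⟨hDd, hFr⟩ := pf_ded htr hfg π htt
  have h1 := a3_fin htr hfg π htt
  have h2 := a3_pid π htt
  have h3 : IsDedekindDomain (Algebra.adjoin F {π}) := inferInstance
  have h4 : CharZero F⟮π⟯ := charZero_of_injective_algebraMap (algebraMap F F⟮π⟯).injective
  have h5 : Algebra.IsSeparable F⟮π⟯ κ := inferInstance
  have h6 : Module.Finite (Algebra.adjoin F {π}) (BB F π) :=
    IsIntegralClosure.finite (Algebra.adjoin F {π}) F⟮π⟯ κ (BB F π)
  obtain ⟨S, hS⟩ := h6.fg_top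
  choose n hn using fun b : BB F π => dd_pole w π hπ (D (b : κ))
  have hBR : ∀ b : BB F π, (b : κ) ∈ w.R := fun b => dd_int w π hπR b
  have hpowR : ∀ m : ℕ, π ^ m ∈ w.R := fun m => pow_mem hπR m
  have key : ∀ b : BB F π, π ^ (∑ s ∈ S, n s) * D (b : κ) ∈ w.R := by
    intro b
    have hb : b ∈ Submodule.span (Algebra.adjoin F {π}) (S : Set (BB F π)) := by
      rw [hS]; trivial
    induction hb using Submodule.span_induction with
    | mem x hx =>
      have h7 : ∑ s ∈ S, n s = ∑ s ∈ S.erase x, n s + n x :=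
        (Finset.sum_erase_add _ _ hx).symm
      rw [h7, pow_add, mul_assoc]
      exact w.R.mul_mem _ _ (hpowR _) (hn x)
    | zero =>
      rw [ZeroMemClass.coe_zero, map_zero, mul_zero]
      exact w.R.zero_mem
    | add x y _ _ hx hy =>
      rw [AddMemClass.coe_add, map_add, mul_add]
      exact w.R.add_mem _ _ hx hy
    | smul a x _ hx =>
      have h7 : ((a • x : BB F π) : κ) = (a : κ) * (x : κ) := rfl
      obtain ⟨h8, h9⟩ := dd_der w D π hπR hD (a : κ) a.2
      rw [h7, Derivation.leibniz, smul_eq_mul, smul_eq_mul, mul_add, mul_left_comm]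
      refine w.R.add_mem _ _ (w.R.mul_mem _ _ h8 hx) ?_
      exact w.R.mul_mem _ _ (hpowR _) (w.R.mul_mem _ _ (hBR x) h9)
  obtain ⟨P, hP⟩ := plP_surj (B := BB F π) w (fun b => dd_int w π hπR b)
  refine ⟨∑ s ∈ S, n s, fun u hu => ?_⟩
  rw [← hP, plP_R, Valuation.mem_valuationSubring_iff] at hu
  have huR : u ∈ w.R := by
    rw [← hP, plP_R, Valuation.mem_valuationSubring_iff]
    exact hu
  obtain ⟨a, d, had⟩ := IsDedekindDomain.HeightOneSpectrum.exists_primeCompl_mul_eq_of_integer _ u hu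
  have hd : (d : BB F π) ∉ P.asIdeal := d.2
  have hd0 : (d : BB F π) ≠ 0 := by
    intro h
    apply hd
    rw [h]
    exact P.asIdeal.zero_mem
  have hdk : (algebraMap (BB F π) κ (d : BB F π)) ≠ 0 := by
    rw [ne_eq, FaithfulSMul.algebraMap_eq_zero_iff]
    exact hd0
  have hdinv : (algebraMap (BB F π) κ (d : BB F π))⁻¹ ∈ w.R := by
    have h7 : ¬ 0 < w.ord (algebraMap (BB F π) κ (d : BB F π)) := by
      rw [← hP, plP_pos (k := F) (κ := κ) P _ hd0]
      exact hd
    have h8 : 0 ≤ w.ord (algebraMap (BB F π) κ (d : BB F π)) := (ord_nonneg w _ hdk).2 (hBR _)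
    exact ((ord_eq_zero w _ hdk).1 (by omega)).2
  have h9 : u * D (algebraMap (BB F π) κ (d : BB F π)) + algebraMap (BB F π) κ (d : BB F π) * D u =
      D (algebraMap (BB F π) κ a) := by
    rw [← had, Derivation.leibniz, smul_eq_mul, smul_eq_mul]
  have h10 : D u = (algebraMap (BB F π) κ (d : BB F π))⁻¹ *
      (D (algebraMap (BB F π) κ a) - u * D (algebraMap (BB F π) κ (d : BB F π))) := by
    rw [← h9, add_sub_cancel_left, inv_mul_cancel_left₀ hdk]
  rw [h10, mul_left_comm, mul_sub]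
  refine w.R.mul_mem _ _ hdinv (sub_mem (key a) ?_)
  rw [mul_left_comm]
  exact w.R.mul_mem _ _ huR (key d)

private theorem dd_res [CharZero F] (htr : Algebra.trdeg F κ = 1) (hfg : (⊤ : IntermediateField F κ).FG)
    (w : Place F κ) (π : κ) (hπ : w.ord π = 1) :
    ∃ (θ : κ) (g : Polynomial F) (z₀ : κ), θ ∈ w.R ∧ z₀ ∈ w.R ∧ Polynomial.aeval θ g = π * z₀ ∧
      Polynomial.aeval θ (Polynomial.derivative g) ≠ 0 ∧
      (Polynomial.aeval θ (Polynomial.derivative g))⁻¹ ∈ w.R ∧
      ∀ u ∈ w.R, ∃ (c : Polynomial F) (z : κ), z ∈ w.R ∧ u = Polynomial.aeval θ c + π * z := by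
  have h0 := dd_ne w π hπ
  have hmax : ∀ x : w.R, IsLocalRing.residue w.R x = 0 → ∃ z ∈ w.R, (x : κ) = π * z := by
    intro x hx
    rw [IsLocalRing.residue_eq_zero_iff] at hx
    by_cases hx0 : (x : κ) = 0
    · exact ⟨0, w.R.zero_mem, by rw [hx0, mul_zero]⟩
    · have h1 : 0 < w.ord (x : κ) := (pf2_max w (x : κ) x.2 hx0).1 hx
      refine ⟨π⁻¹ * x, ?_, by rw [mul_inv_cancel_left₀ h0]⟩
      rw [← ord_nonneg w _ (mul_ne_zero (inv_ne_zero h0) hx0), ord_mul w _ _ (inv_ne_zero h0) hx0,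
        ord_inv, hπ]
      omega
  have hfin : Module.Finite F (IsLocalRing.ResidueField w.R) :=
    Module.finite_of_finrank_pos (deg_pos htr hfg w)
  have hsep : Algebra.IsSeparable F (IsLocalRing.ResidueField w.R) := inferInstance
  obtain ⟨α, hα⟩ := Field.exists_primitive_element F (IsLocalRing.ResidueField w.R)
  obtain ⟨θ, hθ⟩ := IsLocalRing.residue_surjective α
  have hae : ∀ c : Polynomial F, IsLocalRing.residue w.R (Polynomial.aeval θ c) = Polynomial.aeval α c := by
    intro c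
    rw [← hθ]
    exact (Polynomial.aeval_algebraMap_apply (IsLocalRing.ResidueField w.R) θ c).symm
  have hco : ∀ c : Polynomial F, ((Polynomial.aeval θ c : w.R) : κ) = Polynomial.aeval (θ : κ) c := by
    intro c
    exact (Polynomial.aeval_algebraMap_apply κ θ c).symm
  have hg0 : Polynomial.aeval α (minpoly F α) = 0 := minpoly.aeval F α
  have hg1 : Polynomial.aeval α (Polynomial.derivative (minpoly F α)) ≠ 0 :=
    (Algebra.IsSeparable.isSeparable F α).aeval_derivative_ne_zero hg0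
  obtain ⟨z₀, hz₀, hz⟩ := hmax (Polynomial.aeval θ (minpoly F α)) (by rw [hae, hg0])
  have hder : ((Polynomial.aeval θ (Polynomial.derivative (minpoly F α)) : w.R) : κ) ≠ 0 := by
    intro h
    apply hg1
    rw [← hae]
    have h1 : (Polynomial.aeval θ (Polynomial.derivative (minpoly F α)) : w.R) = 0 := Subtype.ext h
    rw [h1, map_zero]
  refine ⟨θ, minpoly F α, z₀, θ.2, hz₀, by rw [← hco, hz], by rw [← hco]; exact hder, ?_, ?_⟩
  · rw [← hco]
    have h1 : ¬ 0 < w.ord ((Polynomial.aeval θ (Polynomial.derivative (minpoly F α)) : w.R) : κ) := by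
      intro h2
      have h3 := (pf2_max w _ (Polynomial.aeval θ (Polynomial.derivative (minpoly F α)) : w.R).2 hder).2 h2
      apply hg1
      rw [← hae, IsLocalRing.residue_eq_zero_iff]
      exact h3
    have h2 := (ord_nonneg w _ hder).2 (Polynomial.aeval θ (Polynomial.derivative (minpoly F α)) : w.R).2
    exact ((ord_eq_zero w _ hder).1 (by omega)).2
  · intro u hu
    have h1 : IsLocalRing.residue w.R ⟨u, hu⟩ ∈ Algebra.adjoin F {α} := by
      rw [← IntermediateField.adjoin_simple_toSubalgebra_of_isAlgebraic (Algebra.IsAlgebraic.isAlgebraic α), hα]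
      trivial
    rw [Algebra.adjoin_singleton_eq_range_aeval] at h1
    obtain ⟨c, hc⟩ := h1
    have hc' : Polynomial.aeval α c = IsLocalRing.residue w.R ⟨u, hu⟩ := hc
    obtain ⟨z, hz, hz'⟩ := hmax (⟨u, hu⟩ - Polynomial.aeval θ c) (by rw [map_sub, hae, hc', sub_self])
    refine ⟨c, z, hz, ?_⟩
    rw [← hz', ← hco]
    show u = _ + (u - _)
    ring

theorem der_bd [CharZero F] (htr : Algebra.trdeg F κ = 1) (hfg : (⊤ : IntermediateField F κ).FG)
    (δ : Derivation F κ κ) (w : Place F κ) (π : κ) (hπ : w.ord π = 1) (hδ : δ π ≠ 0) (u : κ) (hu : u ∈ w.R) :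
    δ u / δ π ∈ w.R := by
  classical
  set D : Derivation F κ κ := (δ π)⁻¹ • δ with hDdef
  have hDa : ∀ x, D x = δ x / δ π := by
    intro x
    rw [hDdef, Derivation.smul_apply, smul_eq_mul, div_eq_mul_inv, mul_comm]
  have hD : D π = 1 := by rw [hDa, div_self hδ]
  have hπR := dd_pi w π hπ
  have hpowR : ∀ m : ℕ, π ^ m ∈ w.R := fun m => pow_mem hπR m
  have hex := dd_bound htr hfg D w π hπ hD
  obtain ⟨θ, g, z₀, hθ, hz₀, hg, hg', hginv, hall⟩ := dd_res htr hfg w π hπ
  have haR : ∀ c : Polynomial F, Polynomial.aeval θ c ∈ w.R := fun c =>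
    dd_adj w θ hθ _ (by rw [Algebra.adjoin_singleton_eq_range_aeval]; exact ⟨c, rfl⟩)
  have hN := Nat.find_spec hex
  have hmin : ∀ m, m < Nat.find hex → ¬ ∀ u ∈ w.R, π ^ m * D u ∈ w.R := fun m hm => Nat.find_min hex hm
  generalize Nat.find hex = N at hN hmin
  rcases N with _ | M
  · have h1 := hN u hu
    rw [pow_zero, one_mul, hDa] at h1
    exact h1
  · exfalso
    apply hmin M (Nat.lt_succ_self M)
    have hθD : π ^ M * D θ ∈ w.R := by
      have h1 : Polynomial.aeval θ (Polynomial.derivative g) * D θ = π * D z₀ + z₀ := by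
        have h2 := Derivation.map_aeval D g θ
        rw [hg, Derivation.leibniz, hD, smul_eq_mul, smul_eq_mul, smul_eq_mul, mul_one] at h2
        exact h2.symm
      have h2 : π ^ M * D θ = (Polynomial.aeval θ (Polynomial.derivative g))⁻¹ *
          (π ^ (M + 1) * D z₀ + π ^ M * z₀) := by
        have h3 : π ^ (M + 1) * D z₀ + π ^ M * z₀ = Polynomial.aeval θ (Polynomial.derivative g) * (π ^ M * D θ) := by
          rw [mul_left_comm, h1]
          ring
        rw [h3, inv_mul_cancel_left₀ hg']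
      rw [h2]
      exact w.R.mul_mem _ _ hginv (w.R.add_mem _ _ (hN z₀ hz₀) (w.R.mul_mem _ _ (hpowR M) hz₀))
    intro v hv
    obtain ⟨c, z, hz, rfl⟩ := hall v hv
    have h1 : π ^ M * D (Polynomial.aeval θ c + π * z) =
        Polynomial.aeval θ (Polynomial.derivative c) * (π ^ M * D θ) + (π ^ (M + 1) * D z + π ^ M * z) := by
      rw [map_add, Derivation.map_aeval, Derivation.leibniz, hD, smul_eq_mul, smul_eq_mul, smul_eq_mul]
      ring
    rw [h1]
    exact w.R.add_mem _ _ (w.R.mul_mem _ _ (haR _) hθD)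
      (w.R.add_mem _ _ (hN z hz) (w.R.mul_mem _ _ (hpowR M) hz))

end Pool.Agent.H61.AB
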