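import Pool.Agent.H61.AB.GDef
import Pool.Agent.H61.AB.Dd

/-!
# [H61 AB Db] ABUNDANCE (MP_e49dc9_ag), (H4c): derivations which preserve a discrete valuation ring

`db0`: `K / E` a function field of one variable, characteristic `0`, `v` a place, `π` a uniformizer, `D` an additive map `K → K` with the Leibniz rule
(not `E`-linear!) with `D(E) ⊆ v.R` and `D π ∈ v.R`: `D (v.R) ⊆ v.R`.
PROOF.  The same as the proof of `der_bd` in `H61/AB/Dd.lean` (copy the private lemmas; there `D` is `E`-linear and `D π = 1`; only `D(E) ⊆ v.R`,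
`D π ∈ v.R` are needed): (1) `D` maps `E[π]` into `v.R`; the orders of `D u`, `u ∈ v.R`, are bounded below (generators of the integral closure of `E[π]`);
(2) the residue field is `E(θ)`, `g(θ) = π z₀`, `g'(θ)` a unit: `g'(θ) D θ = D(π) z₀ + π D z₀ - g^D(θ)`, `g^D` the polynomial with coefficients
`D(coefficients)` (values in `v.R`); (3) `u = c(θ) + π z`: `D u = c^D(θ) + c'(θ) D θ + D(π) z + π D z`; (4) the minimal `N` with
`π ^ N D u ∈ v.R` for all `u` is `0`.

`db`: `K / k`, `trdeg = 3`, `v` a place of `K / k`, the residues of `ζ`, `z` independent over `k` (`U2`), `π` a uniformizer, `D` a `k`-derivation with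
`D ζ, D z, D π ∈ v.R`: `D (v.R) ⊆ v.R`.
PROOF.  `E = k(ζ, z)` (`IntermediateField.adjoin k {ζ, z}`) is in `v.R` (`U2`: quotients of polynomials in `ζ, z`), `D(E) ⊆ v.R`, `K / E` is finitely
generated of transcendence degree `3 - 2 = 1` (`ζ`, `z` are algebraically independent over `k`), `v.R` gives a place of `K / E`; `db0`.
-/

set_option autoImplicit false

namespace Pool.Agent.H61.AB

open Pool.Agent.H54.RV Pool.Agent.H83.TU

open scoped IntermediateField

section

variable {F κ : Type} [Field F] [Field κ] [Algebra F κ]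

private theorem dd_adj (p : Place F κ) (f : κ) (hf : f ∈ p.R) (a : κ)
    (ha : a ∈ Algebra.adjoin F {f}) : a ∈ p.R := by
  induction ha using Algebra.adjoin_induction with
  | mem x hx =>
    rw [Set.mem_singleton_iff] at hx
    rw [hx]
    exact hf
  | algebraMap r => exact p.mem r
  | add x y _ _ hx hy => exact p.R.add_mem _ _ hx hy
  | mul x y _ _ hx hy => exact p.R.mul_mem _ _ hx hy

private theorem dd_int (p : Place F κ) (f : κ) (hf : f ∈ p.R) (b : BB F f) :
    (b : κ) ∈ p.R := by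
  have hb : IsIntegral (Algebra.adjoin F {f}) (b : κ) := b.2
  obtain ⟨P, hP, hP0⟩ := hb
  let φ : Algebra.adjoin F {f} →+* p.R :=
    { toFun := fun x => ⟨x.1, dd_adj p f hf x.1 x.2⟩
      map_one' := rfl
      map_mul' := fun _ _ => rfl
      map_zero' := rfl
      map_add' := fun _ _ => rfl }
  have h1 : IsIntegral p.R (b : κ) := by
    refine ⟨P.map φ, hP.map φ, ?_⟩
    rw [Polynomial.eval₂_map]
    exact hP0
  obtain ⟨y, hy⟩ := IsIntegrallyClosed.isIntegral_iff.1 h1
  rw [← hy]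
  exact y.2

private theorem dd_ne (w : Place F κ) (π : κ) (hπ : w.ord π = 1) : π ≠ 0 := by
  rintro rfl
  simp [Place.ord] at hπ

private theorem dd_ordpow (w : Place F κ) (π : κ) (hπ : w.ord π = 1) (n : ℕ) : w.ord (π ^ n) = n := by
  have h0 := dd_ne w π hπ
  induction n with
  | zero => rw [pow_zero, ord_one]; rfl
  | succ n ih =>
    rw [pow_succ, ord_mul w _ _ (pow_ne_zero n h0) h0, ih, hπ]
    push_cast
    ring

private theorem dd_pole (w : Place F κ) (π : κ) (hπ : w.ord π = 1) (x : κ) : ∃ n : ℕ, π ^ n * x ∈ w.R := by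
  have h0 := dd_ne w π hπ
  by_cases hx : x = 0
  · exact ⟨0, by rw [hx, mul_zero]; exact w.R.zero_mem⟩
  · refine ⟨(- w.ord x).toNat, ?_⟩
    rw [← ord_nonneg w _ (mul_ne_zero (pow_ne_zero _ h0) hx), ord_mul w _ _ (pow_ne_zero _ h0) hx,
      dd_ordpow w π hπ]
    omega

private theorem dd_pi (w : Place F κ) (π : κ) (hπ : w.ord π = 1) : π ∈ w.R :=
  (ord_nonneg w π (dd_ne w π hπ)).1 (by rw [hπ]; exact zero_le_one)

/-- additive maps with the Leibniz rule -/
private structure AL {κ : Type} [Field κ] (D : κ → κ) : Prop where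
  add : ∀ a b, D (a + b) = D a + D b
  mul : ∀ a b, D (a * b) = a * D b + b * D a

private theorem al_zero {D : κ → κ} (h : AL D) : D 0 = 0 := by
  have h1 := h.add 0 0
  rw [add_zero] at h1
  exact left_eq_add.1 h1

private theorem al_one {D : κ → κ} (h : AL D) : D 1 = 0 := by
  have h1 := h.mul 1 1
  rw [mul_one, one_mul] at h1
  exact left_eq_add.1 h1

private theorem al_pow {D : κ → κ} (h : AL D) (θ : κ) (n : ℕ) : D (θ ^ n) = (n : κ) * θ ^ (n - 1) * D θ := by
  induction n with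
  | zero => rw [pow_zero, al_one h, Nat.cast_zero, zero_mul, zero_mul]
  | succ n ih =>
    rw [pow_succ, h.mul, ih]
    rcases n with _ | n
    · simp
    · rw [Nat.add_sub_cancel, Nat.add_sub_cancel, pow_succ]
      push_cast
      ring

private theorem al_aeval {D : κ → κ} (h : AL D) (w : Place F κ) (hE : ∀ c : F, D (algebraMap F κ c) ∈ w.R) (θ : κ)
    (hθ : θ ∈ w.R) (c : Polynomial F) :
    ∃ r ∈ w.R, D (Polynomial.aeval θ c) = r + Polynomial.aeval θ (Polynomial.derivative c) * D θ := by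
  induction c using Polynomial.induction_on' with
  | add p q hp hq =>
    obtain ⟨r, hr, hr'⟩ := hp
    obtain ⟨s, hs, hs'⟩ := hq
    refine ⟨r + s, w.R.add_mem _ _ hr hs, ?_⟩
    rw [map_add, h.add, hr', hs', Polynomial.derivative_add, map_add]
    ring
  | monomial n a =>
    refine ⟨θ ^ n * D (algebraMap F κ a), w.R.mul_mem _ _ (pow_mem hθ n) (hE a), ?_⟩
    rw [Polynomial.aeval_monomial, h.mul, al_pow h, Polynomial.derivative_monomial, Polynomial.aeval_monomial, map_mul,
      map_natCast]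
    ring

private theorem dd_der (p : Place F κ) {D : κ → κ} (h : AL D) (hE : ∀ c : F, D (algebraMap F κ c) ∈ p.R) (f : κ)
    (hf : f ∈ p.R) (hD : D f ∈ p.R) (a : κ) (ha : a ∈ Algebra.adjoin F {f}) : a ∈ p.R ∧ D a ∈ p.R := by
  induction ha using Algebra.adjoin_induction with
  | mem x hx =>
    rw [Set.mem_singleton_iff] at hx
    rw [hx]
    exact ⟨hf, hD⟩
  | algebraMap r =>
    exact ⟨p.mem r, hE r⟩
  | add x y _ _ hx hy =>
    rw [h.add]
    exact ⟨p.R.add_mem _ _ hx.1 hy.1, p.R.add_mem _ _ hx.2 hy.2⟩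
  | mul x y _ _ hx hy =>
    rw [h.mul]
    exact ⟨p.R.mul_mem _ _ hx.1 hy.1, p.R.add_mem _ _ (p.R.mul_mem _ _ hx.1 hy.2)
      (p.R.mul_mem _ _ hy.1 hx.2)⟩

open scoped IntermediateField.algebraAdjoinAdjoin in
private theorem dd_bound [CharZero F] (htr : Algebra.trdeg F κ = 1) (hfg : (⊤ : IntermediateField F κ).FG)
    {D : κ → κ} (h : AL D) (w : Place F κ) (hE : ∀ c : F, D (algebraMap F κ c) ∈ w.R) (π : κ) (hπ : w.ord π = 1)
    (hD : D π ∈ w.R) :
    ∃ N : ℕ, ∀ u ∈ w.R, π ^ N * D u ∈ w.R := by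
  classical
  have h0 := dd_ne w π hπ
  have hπR := dd_pi w π hπ
  have htt : Transcendental F π := by
    intro h11
    rw [ord_alg π h0 h11 w] at hπ
    exact zero_ne_one hπ
  obtain ⟨hDd, hFr⟩ := pf_ded htr hfg π htt
  have h1 := a3_fin htr hfg π htt
  have h2 := a3_pid π htt
  have h3 : IsDedekindDomain (Algebra.adjoin F {π}) := inferInstance
  have h4 : CharZero F⟮π⟯ := charZero_of_injective_algebraMap (algebraMap F F⟮π⟯).injective
  have h5 : Algebra.IsSeparable F⟮π⟯ κ := inferInstance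
  have h6 : Module.Finite (Algebra.adjoin F {π}) (BB F π) :=
    IsIntegralClosure.finite (Algebra.adjoin F {π}) F⟮π⟯ κ (BB F π)
  obtain ⟨S, hS⟩ := h6.fg_top
  choose n hn using fun b : BB F π => dd_pole w π hπ (D (b : κ))
  have hBR : ∀ b : BB F π, (b : κ) ∈ w.R := fun b => dd_int w π hπR b
  have hpowR : ∀ m : ℕ, π ^ m ∈ w.R := fun m => pow_mem hπR m
  have key : ∀ b : BB F π, π ^ (∑ s ∈ S, n s) * D (b : κ) ∈ w.R := by
    intro b
    have hb : b ∈ Submodule.span (Algebra.adjoin F {π}) (S : Set (BB F π)) := by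
      rw [hS]; trivial
    induction hb using Submodule.span_induction with
    | mem x hx =>
      have h7 : ∑ s ∈ S, n s = ∑ s ∈ S.erase x, n s + n x :=
        (Finset.sum_erase_add _ _ hx).symm
      rw [h7, pow_add, mul_assoc]
      exact w.R.mul_mem _ _ (hpowR _) (hn x)
    | zero =>
      rw [ZeroMemClass.coe_zero, al_zero h, mul_zero]
      exact w.R.zero_mem
    | add x y _ _ hx hy =>
      rw [AddMemClass.coe_add, h.add, mul_add]
      exact w.R.add_mem _ _ hx hy
    | smul a x _ hx =>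
      have h7 : ((a • x : BB F π) : κ) = (a : κ) * (x : κ) := rfl
      obtain ⟨h8, h9⟩ := dd_der w h hE π hπR hD (a : κ) a.2
      rw [h7, h.mul, mul_add, mul_left_comm]
      refine w.R.add_mem _ _ (w.R.mul_mem _ _ h8 hx) ?_
      exact w.R.mul_mem _ _ (hpowR _) (w.R.mul_mem _ _ (hBR x) h9)
  obtain ⟨P, hP⟩ := plP_surj (B := BB F π) w (fun b => dd_int w π hπR b)
  refine ⟨∑ s ∈ S, n s, fun u hu => ?_⟩
  rw [← hP, plP_R, Valuation.mem_valuationSubring_iff] at hu
  have huR : u ∈ w.R := by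
    rw [← hP, plP_R, Valuation.mem_valuationSubring_iff]
    exact hu
  obtain ⟨a, d, had⟩ := IsDedekindDomain.HeightOneSpectrum.exists_primeCompl_mul_eq_of_integer _ u hu
  have hd : (d : BB F π) ∉ P.asIdeal := d.2
  have hd0 : (d : BB F π) ≠ 0 := by
    intro h11
    apply hd
    rw [h11]
    exact P.asIdeal.zero_mem
  have hdk : (algebraMap (BB F π) κ (d : BB F π)) ≠ 0 := by
    rw [ne_eq, FaithfulSMul.algebraMap_eq_zero_iff]
    exact hd0
  have hdinv : (algebraMap (BB F π) κ (d : BB F π))⁻¹ ∈ w.R := by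
    have h7 : ¬ 0 < w.ord (algebraMap (BB F π) κ (d : BB F π)) := by
      rw [← hP, plP_pos (k := F) (κ := κ) P _ hd0]
      exact hd
    have h8 : 0 ≤ w.ord (algebraMap (BB F π) κ (d : BB F π)) := (ord_nonneg w _ hdk).2 (hBR _)
    exact ((ord_eq_zero w _ hdk).1 (by omega)).2
  have h9 : u * D (algebraMap (BB F π) κ (d : BB F π)) + algebraMap (BB F π) κ (d : BB F π) * D u =
      D (algebraMap (BB F π) κ a) := by
    rw [← had, h.mul]
  have h10 : D u = (algebraMap (BB F π) κ (d : BB F π))⁻¹ *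
      (D (algebraMap (BB F π) κ a) - u * D (algebraMap (BB F π) κ (d : BB F π))) := by
    rw [← h9, add_sub_cancel_left, inv_mul_cancel_left₀ hdk]
  rw [h10, mul_left_comm, mul_sub]
  refine w.R.mul_mem _ _ hdinv (sub_mem (key a) ?_)
  rw [mul_left_comm]
  exact w.R.mul_mem _ _ huR (key d)

private theorem dd_res [CharZero F] (htr : Algebra.trdeg F κ = 1) (hfg : (⊤ : IntermediateField F κ).FG)
    (w : Place F κ) (π : κ) (hπ : w.ord π = 1) :
    ∃ (θ : κ) (g : Polynomial F) (z₀ : κ), θ ∈ w.R ∧ z₀ ∈ w.R ∧ Polynomial.aeval θ g = π * z₀ ∧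
      Polynomial.aeval θ (Polynomial.derivative g) ≠ 0 ∧
      (Polynomial.aeval θ (Polynomial.derivative g))⁻¹ ∈ w.R ∧
      ∀ u ∈ w.R, ∃ (c : Polynomial F) (z : κ), z ∈ w.R ∧ u = Polynomial.aeval θ c + π * z := by
  have h0 := dd_ne w π hπ
  have hmax : ∀ x : w.R, IsLocalRing.residue w.R x = 0 → ∃ z ∈ w.R, (x : κ) = π * z := by
    intro x hx
    rw [IsLocalRing.residue_eq_zero_iff] at hx
    by_cases hx0 : (x : κ) = 0
    · exact ⟨0, w.R.zero_mem, by rw [hx0, mul_zero]⟩
    · have h1 : 0 < w.ord (x : κ) := (pf2_max w (x : κ) x.2 hx0).1 hx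
      refine ⟨π⁻¹ * x, ?_, by rw [mul_inv_cancel_left₀ h0]⟩
      rw [← ord_nonneg w _ (mul_ne_zero (inv_ne_zero h0) hx0), ord_mul w _ _ (inv_ne_zero h0) hx0,
        ord_inv, hπ]
      omega
  have hfin : Module.Finite F (IsLocalRing.ResidueField w.R) :=
    Module.finite_of_finrank_pos (deg_pos htr hfg w)
  have hsep : Algebra.IsSeparable F (IsLocalRing.ResidueField w.R) := inferInstance
  obtain ⟨α, hα⟩ := Field.exists_primitive_element F (IsLocalRing.ResidueField w.R)
  obtain ⟨θ, hθ⟩ := IsLocalRing.residue_surjective α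
  have hae : ∀ c : Polynomial F, IsLocalRing.residue w.R (Polynomial.aeval θ c) = Polynomial.aeval α c := by
    intro c
    rw [← hθ]
    exact (Polynomial.aeval_algebraMap_apply (IsLocalRing.ResidueField w.R) θ c).symm
  have hco : ∀ c : Polynomial F, ((Polynomial.aeval θ c : w.R) : κ) = Polynomial.aeval (θ : κ) c := by
    intro c
    exact (Polynomial.aeval_algebraMap_apply κ θ c).symm
  have hg0 : Polynomial.aeval α (minpoly F α) = 0 := minpoly.aeval F α
  have hg1 : Polynomial.aeval α (Polynomial.derivative (minpoly F α)) ≠ 0 :=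
    (Algebra.IsSeparable.isSeparable F α).aeval_derivative_ne_zero hg0
  obtain ⟨z₀, hz₀, hz⟩ := hmax (Polynomial.aeval θ (minpoly F α)) (by rw [hae, hg0])
  have hder : ((Polynomial.aeval θ (Polynomial.derivative (minpoly F α)) : w.R) : κ) ≠ 0 := by
    intro h
    apply hg1
    rw [← hae]
    have h1 : (Polynomial.aeval θ (Polynomial.derivative (minpoly F α)) : w.R) = 0 := Subtype.ext h
    rw [h1, map_zero]
  refine ⟨θ, minpoly F α, z₀, θ.2, hz₀, by rw [← hco, hz], by rw [← hco]; exact hder, ?_, ?_⟩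
  · rw [← hco]
    have h1 : ¬ 0 < w.ord ((Polynomial.aeval θ (Polynomial.derivative (minpoly F α)) : w.R) : κ) := by
      intro h2
      have h3 := (pf2_max w _ (Polynomial.aeval θ (Polynomial.derivative (minpoly F α)) : w.R).2 hder).2 h2
      apply hg1
      rw [← hae, IsLocalRing.residue_eq_zero_iff]
      exact h3
    have h2 := (ord_nonneg w _ hder).2 (Polynomial.aeval θ (Polynomial.derivative (minpoly F α)) : w.R).2
    exact ((ord_eq_zero w _ hder).1 (by omega)).2
  · intro u hu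
    have h1 : IsLocalRing.residue w.R ⟨u, hu⟩ ∈ Algebra.adjoin F {α} := by
      rw [← IntermediateField.adjoin_simple_toSubalgebra_of_isAlgebraic (Algebra.IsAlgebraic.isAlgebraic α), hα]
      trivial
    rw [Algebra.adjoin_singleton_eq_range_aeval] at h1
    obtain ⟨c, hc⟩ := h1
    have hc' : Polynomial.aeval α c = IsLocalRing.residue w.R ⟨u, hu⟩ := hc
    obtain ⟨z, hz, hz'⟩ := hmax (⟨u, hu⟩ - Polynomial.aeval θ c) (by rw [map_sub, hae, hc', sub_self])
    refine ⟨c, z, hz, ?_⟩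
    rw [← hz', ← hco]
    show u = _ + (u - _)
    ring

end

theorem db0 {E K : Type} [Field E] [Field K] [Algebra E K] [CharZero E] (htr : Algebra.trdeg E K = 1)
    (hfg : (⊤ : IntermediateField E K).FG) (v : Place E K) (π : K) (hπ : v.ord π = 1) (D : K → K) (ha : ∀ a b, D (a + b) = D a + D b)
    (hl : ∀ a b, D (a * b) = a * D b + b * D a) (hE : ∀ c : E, D (algebraMap E K c) ∈ v.R) (hD : D π ∈ v.R) :
    ∀ u ∈ v.R, D u ∈ v.R := by
  classical
  have h : AL D := ⟨ha, hl⟩
  have hπR := dd_pi v π hπ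
  have hpowR : ∀ m : ℕ, π ^ m ∈ v.R := fun m => pow_mem hπR m
  have hex := dd_bound htr hfg h v hE π hπ hD
  obtain ⟨θ, g, z₀, hθ, hz₀, hg, hg', hginv, hall⟩ := dd_res htr hfg v π hπ
  have haR : ∀ c : Polynomial E, Polynomial.aeval θ c ∈ v.R := fun c =>
    dd_adj v θ hθ _ (by rw [Algebra.adjoin_singleton_eq_range_aeval]; exact ⟨c, rfl⟩)
  have hN := Nat.find_spec hex
  have hmin : ∀ m, m < Nat.find hex → ¬ ∀ u ∈ v.R, π ^ m * D u ∈ v.R := fun m hm => Nat.find_min hex hm
  generalize Nat.find hex = N at hN hmin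
  rcases N with _ | M
  · intro u hu
    have h1 := hN u hu
    rw [pow_zero, one_mul] at h1
    exact h1
  · exfalso
    apply hmin M (Nat.lt_succ_self M)
    have hθD : π ^ M * D θ ∈ v.R := by
      obtain ⟨r, hr, h2⟩ := al_aeval h v hE θ hθ g
      rw [hg, hl] at h2
      have h3 : π ^ M * D θ = (Polynomial.aeval θ (Polynomial.derivative g))⁻¹ *
          (π ^ (M + 1) * D z₀ + π ^ M * (z₀ * D π) - π ^ M * r) := by
        have h4 : π ^ (M + 1) * D z₀ + π ^ M * (z₀ * D π) - π ^ M * r =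
            Polynomial.aeval θ (Polynomial.derivative g) * (π ^ M * D θ) := by
          linear_combination π ^ M * h2
        rw [h4, inv_mul_cancel_left₀ hg']
      rw [h3]
      exact v.R.mul_mem _ _ hginv (sub_mem (v.R.add_mem _ _ (hN z₀ hz₀)
        (v.R.mul_mem _ _ (hpowR M) (v.R.mul_mem _ _ hz₀ hD))) (v.R.mul_mem _ _ (hpowR M) hr))
    intro u hu
    obtain ⟨c, z, hz, rfl⟩ := hall u hu
    obtain ⟨r, hr, h2⟩ := al_aeval h v hE θ hθ c
    have h1 : π ^ M * D (Polynomial.aeval θ c + π * z) =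
        Polynomial.aeval θ (Polynomial.derivative c) * (π ^ M * D θ) +
          (π ^ (M + 1) * D z + π ^ M * (r + z * D π)) := by
      rw [ha, hl, h2]
      ring
    rw [h1]
    exact v.R.add_mem _ _ (v.R.mul_mem _ _ (haR _) hθD)
      (v.R.add_mem _ _ (hN z hz) (v.R.mul_mem _ _ (hpowR M) (v.R.add_mem _ _ hr (v.R.mul_mem _ _ hz hD))))

open scoped IntermediateField.algebraAdjoinAdjoin in
theorem db {k K : Type} [Field k] [Field K] [Algebra k K] [CharZero k] (htr : Algebra.trdeg k K = 3)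
    (hfg : (⊤ : IntermediateField k K).FG) (v : Place k K) {ζ z π : K} (hu : U2 v ζ z) (hπ : v.ord π = 1) (D : Derivation k K K)
    (h1 : D ζ ∈ v.R) (h2 : D z ∈ v.R) (h3 : D π ∈ v.R) : ∀ u ∈ v.R, D u ∈ v.R := by
  classical
  have hi : AlgebraicIndependent k ![ζ, z] := by
    rw [algebraicIndependent_iff]
    intro p hp
    by_contra hp0
    exact (hu p hp0).1 hp
  have hm : (∀ j, ![ζ, z] j ∈ v.R) ∧ ∀ j, D (![ζ, z] j) ∈ v.R := by
    have hx : ∀ j : Fin 2, ![ζ, z] j ∈ v.R := by
      intro j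
      have h4 := hu (MvPolynomial.X j) (MvPolynomial.X_ne_zero j)
      rw [MvPolynomial.aeval_X] at h4
      exact ((ord_eq_zero v _ h4.1).1 h4.2).1
    refine ⟨hx, fun j => ?_⟩
    fin_cases j
    · exact h1
    · exact h2
  have hpol : ∀ p : MvPolynomial (Fin 2) k, MvPolynomial.aeval ![ζ, z] p ∈ v.R ∧ D (MvPolynomial.aeval ![ζ, z] p) ∈ v.R := by
    intro p
    induction p using MvPolynomial.induction_on with
    | C a =>
      rw [MvPolynomial.aeval_C, Derivation.map_algebraMap]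
      exact ⟨v.mem a, v.R.zero_mem⟩
    | add p q hp hq =>
      rw [map_add, map_add]
      exact ⟨v.R.add_mem _ _ hp.1 hq.1, v.R.add_mem _ _ hp.2 hq.2⟩
    | mul_X p j hp =>
      rw [map_mul, MvPolynomial.aeval_X, Derivation.leibniz, smul_eq_mul, smul_eq_mul]
      exact ⟨v.R.mul_mem _ _ hp.1 (hm.1 j), v.R.add_mem _ _ (v.R.mul_mem _ _ hp.1 (hm.2 j))
        (v.R.mul_mem _ _ (hm.1 j) hp.2)⟩
  have hE : ∀ e ∈ IntermediateField.adjoin k (Set.range ![ζ, z]), e ∈ v.R ∧ D e ∈ v.R := by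
    intro e he
    rw [IntermediateField.mem_adjoin_range_iff] at he
    obtain ⟨r, s, rfl⟩ := he
    by_cases hs : s = 0
    · rw [hs, map_zero, div_zero, map_zero]
      exact ⟨v.R.zero_mem, v.R.zero_mem⟩
    obtain ⟨h4, h5⟩ := hu s hs
    have h6 := ((ord_eq_zero v _ h4).1 h5).2
    rw [div_eq_mul_inv, Derivation.leibniz, smul_eq_mul, smul_eq_mul, Derivation.leibniz_inv, smul_eq_mul]
    refine ⟨v.R.mul_mem _ _ (hpol r).1 h6, v.R.add_mem _ _ (v.R.mul_mem _ _ (hpol r).1 ?_)
      (v.R.mul_mem _ _ h6 (hpol r).2)⟩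
    exact v.R.mul_mem _ _ (neg_mem (pow_mem h6 2)) (hpol s).2
  have e2 : Algebra.trdeg k (Algebra.adjoin k (Set.range ![ζ, z])) = 2 := by
    rw [← hi.aevalEquiv.trdeg_eq, MvPolynomial.trdeg_of_isDomain, Cardinal.lift_id, Cardinal.mk_fin]
    norm_num
  have e4 : Algebra.trdeg (Algebra.adjoin k (Set.range ![ζ, z]))
      (IntermediateField.adjoin k (Set.range ![ζ, z])) = 0 := by
    have h5 : Algebra.IsAlgebraic (Algebra.adjoin k (Set.range ![ζ, z]))
        (IntermediateField.adjoin k (Set.range ![ζ, z])) :=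
      IsLocalization.isAlgebraic _ (nonZeroDivisors _)
    exact _root_.trdeg_eq_zero
  have hF : Algebra.trdeg (IntermediateField.adjoin k (Set.range ![ζ, z])) K = 1 := by
    have h5 := _root_.trdeg_add_eq k (Algebra.adjoin k (Set.range ![ζ, z])) (A := K)
    have h6 := _root_.trdeg_add_eq (Algebra.adjoin k (Set.range ![ζ, z]))
      (IntermediateField.adjoin k (Set.range ![ζ, z])) (A := K)
    rw [e4, zero_add] at h6
    rw [e2, htr, ← h6] at h5
    have h7 : (2 : Cardinal) + 1 = 3 := by norm_num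
    have h8 : (2 : Cardinal) < Cardinal.aleph0 := by exact_mod_cast Cardinal.natCast_lt_aleph0 (n := 2)
    rw [← h7] at h5
    exact Cardinal.eq_of_add_eq_add_left h5 h8
  have hc : CharZero (IntermediateField.adjoin k (Set.range ![ζ, z])) :=
    charZero_of_injective_algebraMap (algebraMap k _).injective
  have hfg' : (⊤ : IntermediateField (IntermediateField.adjoin k (Set.range ![ζ, z])) K).FG := by
    have h5 : Algebra.EssFiniteType k K := IntermediateField.fg_top_iff.1 hfg
    exact IntermediateField.fg_top_iff.2 (Algebra.EssFiniteType.of_comp k _ K)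
  let v' : Place (IntermediateField.adjoin k (Set.range ![ζ, z])) K := ⟨v.R, fun c => (hE c.1 c.2).1, v.dvr⟩
  exact db0 hF hfg' v' π hπ D (map_add D) (fun a b => D.leibniz a b) (fun c => (hE c.1 c.2).2) h3

end Pool.Agent.H61.AB
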