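import Pool.Agent.H83.TU.PF3

/-!
# [H61 AB] ABUNDANCE (MP_e49dc9_ag), chapter (H4): sections on a curve, given by the places of its function field

`κ / F` a function field of one variable in characteristic `0`.  `ε : Place F κ → κ` are local equations.

* `LS P ε`: the elements `g` of `κ` with `g * ε w ∈ w.R` for all places `w` with `P w`; `LD ε`: for all places.
* `Dv ε`: the local equations are not `0`, almost all are units.  `dD ε`: the degree.
* `RX F x y`: `y ∈ κ` is a polynomial in `x`.  `D2 F x z`: `z` is a quotient of polynomials in `x` with `deg ≤ -2`.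
* `Dual δ α`: the differential `η` with `δ(x) η = dx` has no zeros of order less than the order of `α` (`div η ≥ α`).
-/

set_option autoImplicit false

open scoped IntermediateField

namespace Pool.Agent.H61.AB

open Pool.Agent.H54.RV Pool.Agent.H83.TU

variable {F κ : Type} [Field F] [Field κ] [Algebra F κ]

/-- the functions with poles bounded by the local equations `ε` at the places with `P` -/
def LS (P : Place F κ → Prop) (ε : Place F κ → κ) : Submodule F κ where
  carrier := {g | ∀ w, P w → g * ε w ∈ w.R}
  zero_mem' := fun w _ => by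
    rw [zero_mul]
    exact w.R.zero_mem
  add_mem' := fun {a b} ha hb w hw => by
    rw [add_mul]
    exact w.R.add_mem _ _ (ha w hw) (hb w hw)
  smul_mem' := fun c a ha w hw => by
    rw [Algebra.smul_mul_assoc, Algebra.smul_def]
    exact w.R.mul_mem _ _ (w.mem c) (ha w hw)

theorem mem_LS (P : Place F κ → Prop) (ε : Place F κ → κ) (g : κ) : g ∈ LS P ε ↔ ∀ w, P w → g * ε w ∈ w.R :=
  Iff.rfl

/-- the functions with poles bounded by the local equations `ε` -/
def LD (ε : Place F κ → κ) : Submodule F κ := LS (fun _ => True) ε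

theorem mem_LD (ε : Place F κ → κ) (g : κ) : g ∈ LD ε ↔ ∀ w, g * ε w ∈ w.R :=
  ⟨fun h w => h w trivial, fun h w _ => h w⟩

/-- the local equations of a divisor -/
structure Dv (ε : Place F κ → κ) : Prop where
  ne : ∀ w, ε w ≠ 0
  fin : {w : Place F κ | w.ord (ε w) ≠ 0}.Finite

/-- the degree -/
noncomputable def dD (ε : Place F κ → κ) : ℤ := ∑ᶠ w : Place F κ, w.ord (ε w) * (deg w : ℤ)

/-- `y` is a polynomial in `x` -/
def RX (F : Type) [Field F] [Algebra F κ] (x y : κ) : Prop := ∃ p : Polynomial F, y = Polynomial.aeval x p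

/-- `z` is a quotient of polynomials in `x`, of degree at most `-2` -/
def D2 (F : Type) [Field F] [Algebra F κ] (x z : κ) : Prop :=
  ∃ p q : Polynomial F, q ≠ 0 ∧ p.degree + 2 ≤ q.degree ∧ z * Polynomial.aeval x q = Polynomial.aeval x p

/-- the differential `η` with `δ(x) η = dx` has divisor `≥ α` -/
def Dual (δ : Derivation F κ κ) (α : Place F κ → κ) : Prop :=
  ∀ (w : Place F κ) (π : κ), w.ord π = 1 → δ π ≠ 0 ∧ w.ord (δ π) + w.ord (α w) ≤ 0

/-- the trace from `κ` to `F(x)`, as an element of `κ` -/
noncomputable def tr (F : Type) [Field F] [Algebra F κ] (x y : κ) : κ :=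
  algebraMap F⟮x⟯ κ (Algebra.trace F⟮x⟯ κ y)

end Pool.Agent.H61.AB
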