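import Pool.Agent.H61.AB.Db
import Pool.Agent.H43.WR.Coo

/-!
# [H61 AB Dt] ABUNDANCE (MP_e49dc9_ag), (H4c): `J` at a discrete valuation ring of the threefold

`v` a place of `K / k`, `trdeg k K = 3`, the residues of `ζ`, `z` algebraically independent over `k` (`U2`), `π` a uniformizer.  For `a, b, c ∈ v.R`:
`J a b c = d * J ζ z π` with `d ∈ v.R`.
PROOF.  `ζ, z, π` are algebraically independent over `k` (`∑ π ^ i p_i(ζ, z) = 0`: the terms have the different orders `i`), so a transcendence basis
(`trdeg = 3`).  Dual derivations `D i` (`H24.TU.exists_derivation`), every derivation `E` of `K` is `∑ E (c i) D i`, `c = ![ζ, z, π]` (the difference is `0`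
on the transcendence basis, characteristic `0`).  `jac_det` of H43/WR/Coo: `J a b e = J ζ z π * det (..)`; `D i` preserves `v.R` by `db` (its values at
`ζ, z, π` are `0` or `1`), so the determinant is in `v.R`.
`jac_le`: if `J a b c ≠ 0` for some `a b c ∈ v.R` then `J ζ z π ≠ 0` and `ord (J ζ z π) ≤ ord (J a b c)`.
-/

set_option autoImplicit false

namespace Pool.Agent.H61.AB

open Pool.Agent.H54.RV Pool.Agent.H83.TU Pool.Agent.H43.WR

variable {k K : Type} [Field k] [Field K] [Algebra k K]

private theorem dt_ind [CharZero k] (v : Place k K) {ζ z π : K} (hu : U2 v ζ z) (hπ : v.ord π = 1) :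
    AlgebraicIndependent k ![ζ, z, π] := by
  have hi : AlgebraicIndependent k ![ζ, z] := by
    rw [algebraicIndependent_iff]
    intro p hp
    by_contra hp0
    exact (hu p hp0).1 hp
  have hπ0 : π ≠ 0 := by
    rintro rfl
    simp [Place.ord] at hπ
  have hpol : ∀ p : MvPolynomial (Fin 2) k, MvPolynomial.aeval ![ζ, z] p ∈ v.R := by
    intro p
    by_cases hp : p = 0
    · rw [hp, map_zero]
      exact v.R.zero_mem
    · obtain ⟨h1, h2⟩ := hu p hp
      exact ((ord_eq_zero v _ h1).1 h2).1
  have hE : ∀ e ∈ IntermediateField.adjoin k (Set.range ![ζ, z]), e ∈ v.R := by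
    intro e he
    rw [IntermediateField.mem_adjoin_range_iff] at he
    obtain ⟨r, s, rfl⟩ := he
    by_cases hs : s = 0
    · rw [hs, map_zero, div_zero]
      exact v.R.zero_mem
    obtain ⟨h4, h5⟩ := hu s hs
    rw [div_eq_mul_inv]
    exact v.R.mul_mem _ _ (hpol r) ((ord_eq_zero v _ h4).1 h5).2
  let v' : Place (IntermediateField.adjoin k (Set.range ![ζ, z])) K := ⟨v.R, fun c => hE c.1 c.2, v.dvr⟩
  have htr : Transcendental (Algebra.adjoin k (Set.range ![ζ, z])) π := by
    intro h1
    have h2 : IsAlgebraic (IntermediateField.adjoin k (Set.range ![ζ, z])) π := by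
      obtain ⟨p, hp0, hp⟩ := h1
      let ι : Algebra.adjoin k (Set.range ![ζ, z]) →+* IntermediateField.adjoin k (Set.range ![ζ, z]) :=
        (Subalgebra.inclusion (IntermediateField.algebra_adjoin_le_adjoin k (Set.range ![ζ, z])) :
          Algebra.adjoin k (Set.range ![ζ, z]) →ₐ[k] (IntermediateField.adjoin k (Set.range ![ζ, z])).toSubalgebra)
      have hι : Function.Injective ι := Subalgebra.inclusion_injective
        (IntermediateField.algebra_adjoin_le_adjoin k (Set.range ![ζ, z]))
      refine ⟨p.map ι, (Polynomial.map_ne_zero_iff hι).2 hp0, ?_⟩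
      rw [Polynomial.aeval_def, Polynomial.eval₂_map]
      exact hp
    have h3 : v'.ord π = 0 := ord_alg π hπ0 h2 v'
    have h4 : v'.ord π = v.ord π := rfl
    rw [h4, hπ] at h3
    exact one_ne_zero h3
  have h3 := (hi.option_iff_transcendental π).2 htr
  have h4 := h3.comp (![some 0, some 1, none] : Fin 3 → Option (Fin 2)) (by
    intro a b hab
    fin_cases a <;> fin_cases b <;> simp_all)
  have h5 : (fun o : Option (Fin 2) => o.elim π ![ζ, z]) ∘ (![some 0, some 1, none] : Fin 3 → Option (Fin 2)) =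
      ![ζ, z, π] := by
    funext i
    fin_cases i <;> rfl
  rw [h5] at h4
  exact h4

theorem jac_top [CharZero k] (htr : Algebra.trdeg k K = 3) (hfg : (⊤ : IntermediateField k K).FG) {X : Mod k K}
    {J : K → K → K → K} {κ : Cart X} (hJ : Jac X J κ) (v : Place k K) {ζ z π : K} (hu : U2 v ζ z) (hπ : v.ord π = 1) :
    ∀ a ∈ v.R, ∀ b ∈ v.R, ∀ c ∈ v.R, ∃ d ∈ v.R, J a b c = d * J ζ z π := by
  classical
  have hi := dt_ind v hu hπ
  have hb : IsTranscendenceBasis k ![ζ, z, π] := hi.isTranscendenceBasis_of_trdeg_le_of_finite (by rw [htr]; simp)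
  choose D hD using fun i : Fin 3 =>
    Pool.Agent.H24.TU.exists_derivation hb (fun j => if j = i then (1 : K) else 0)
  have hs : ∀ (E : Derivation k K K) (f : K), E f = ∑ i, E (![ζ, z, π] i) * D i f := by
    intro E f
    have h1 : E - (E (![ζ, z, π] 0) • D 0 + E (![ζ, z, π] 1) • D 1 + E (![ζ, z, π] 2) • D 2) = 0 := by
      refine Pool.Agent.H24.TU.derivation_eq_zero hb _ fun j => ?_
      rw [Derivation.sub_apply, Derivation.add_apply, Derivation.add_apply, Derivation.smul_apply,
        Derivation.smul_apply, Derivation.smul_apply, hD, hD, hD, smul_eq_mul, smul_eq_mul, smul_eq_mul]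
      fin_cases j <;> simp
    have h2 := congrArg (fun d : Derivation k K K => d f) h1
    change E f - (E (![ζ, z, π] 0) * D 0 f + E (![ζ, z, π] 1) * D 1 f + E (![ζ, z, π] 2) * D 2 f) = 0 at h2
    rw [Fin.sum_univ_three]
    exact sub_eq_zero.1 h2
  have hR : ∀ i, ∀ u ∈ v.R, D i u ∈ v.R := by
    intro i
    have h0 : ∀ j, D i (![ζ, z, π] j) ∈ v.R := by
      intro j
      rw [hD]
      split_ifs
      · exact v.R.one_mem
      · exact v.R.zero_mem
    exact db htr hfg v hu hπ (D i) (h0 0) (h0 1) (h0 2)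
  intro a ha b hb' c hc
  refine ⟨_, ?_, (jac_det hJ hs a b c).trans (mul_comm _ _)⟩
  rw [Matrix.det_fin_three]
  simp only [Matrix.of_apply, Matrix.cons_val_zero, Matrix.cons_val_one, Matrix.cons_val]
  have m := fun x hx i => hR i x hx
  repeat' first
    | exact m a ha _
    | exact m b hb' _
    | exact m c hc _
    | refine sub_mem ?_ ?_
    | refine v.R.add_mem _ _ ?_ ?_
    | refine v.R.mul_mem _ _ ?_ ?_

theorem jac_le [CharZero k] (htr : Algebra.trdeg k K = 3) (hfg : (⊤ : IntermediateField k K).FG) {X : Mod k K}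
    {J : K → K → K → K} {κ : Cart X} (hJ : Jac X J κ) (v : Place k K) {ζ z π : K} (hu : U2 v ζ z) (hπ : v.ord π = 1)
    {a b c : K} (ha : a ∈ v.R) (hb : b ∈ v.R) (hc : c ∈ v.R) (h0 : J a b c ≠ 0) :
    J ζ z π ≠ 0 ∧ v.ord (J ζ z π) ≤ v.ord (J a b c) := by
  obtain ⟨d, hd, h1⟩ := jac_top htr hfg hJ v hu hπ a ha b hb c hc
  have hJ0 : J ζ z π ≠ 0 := by
    intro h2
    rw [h2, mul_zero] at h1
    exact h0 h1
  have hd0 : d ≠ 0 := by
    rintro rfl
    rw [zero_mul] at h1
    exact h0 h1
  refine ⟨hJ0, ?_⟩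
  rw [h1, ord_mul v _ _ hd0 hJ0]
  have := (ord_nonneg v d hd0).2 hd
  omega

end Pool.Agent.H61.AB
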