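import Pool.Agent.H61.AB.GDef
import Pool.Agent.H24.TU.DerEx

/-!
# [H61 AB Dx] ABUNDANCE (MP_e49dc9_ag), (H4c): the derivation `δ`

`J` alternating derivation in three arguments (`Jac`), `GD` the generic curve.  There is an `F`-derivation `δ` of `M` with
`δ a = J(ζ, s none, a) + ∑ t i J(ζ, s (some i), a)` for `a ∈ K`.
PROOF.  `d : K → M`, `d a := gsec M t (fun o => J ζ (s o) a)` is a `k`-derivation (`J` is additive, Leibniz, `0` on `k` in the last argument: `add`, `leib`,
`alg` and `s12`, `s23`).  `j` with `s (some j) ≠ 0`.  Let `b` be a transcendence basis of `K / k` (`exists_isTranscendenceBasis`); `b` together with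
the `t i`, `i ≠ j`, is a transcendence basis of `M / k` (`GD.indj`; `M` is algebraic over `K(t i, i ≠ j)`: by `GD.gen` it is generated by `K` and the
`t i`, and `t j` is in `K(t i, i ≠ j)` by `GD.rel`; `IsTranscendenceBasis.sumElim_comp` or so), so there is (`H24.TU.exists_derivation`) a
`k`-derivation `δ` of `M` with `δ b = d b` and `δ (t i) = 0`, `i ≠ j`.  `δ ∘ algebraMap - d` is a `k`-derivation `K → M`, `0` on the transcendence basis,
so it is `0` (characteristic `0`, `K` algebraic over `k(b)`; see the end of the proof of `j_eq` / `der_zero` and H24/TU for the uniqueness; for an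
element `a` with minimal polynomial `p` over `k(b)`: `p'(a) D a = 0`).
`δ (t j) = 0`: apply `δ` to `GD.rel`: `0 = d (s none) + ∑ t i d (s (some i)) + s (some j) δ (t j)` and
`d (s none) + ∑ t i d (s (some i)) = ∑_(o, o') t o t o' J(ζ, s o, s o') = 0` (`t none := 1`; antisymmetric, characteristic `0`).
`δ ζ = gsec M t (fun o => J ζ (s o) ζ) = 0`.  So `δ` is `0` on `k`, `ζ'` and the `t i`, so on the image of `F` (`GD.alg`, characteristic `0`): it is
`F`-linear.
-/

set_option autoImplicit false

namespace Pool.Agent.H61.AB

open Pool.Agent.H54.RV Pool.Agent.H83.TU Pool.Agent.H83.TK Pool.Agent.H43.WR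

variable {k K F M : Type} [Field k] [Field K] [Field F] [Field M] [Algebra k K] [Algebra k F] [Algebra k M] [Algebra K M]
  [Algebra F M] [IsScalarTower k K M] [IsScalarTower k F M] {σ : Type} [Fintype σ]

private theorem dx_tb {t : σ → F} {s : Option σ → K} (hrel : gsec M t s = 0)
    (hgen : ∀ b : M, ∃ f g : MvPolynomial σ K, MvPolynomial.aeval (fun i => algebraMap F M (t i)) g ≠ 0 ∧
      b * MvPolynomial.aeval (fun i => algebraMap F M (t i)) g = MvPolynomial.aeval (fun i => algebraMap F M (t i)) f)
    {j : σ} (hj : s (some j) ≠ 0)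
    (hind : AlgebraicIndependent K (fun i : {i : σ // i ≠ j} => algebraMap F M (t i.1))) :
    IsTranscendenceBasis K (fun i : {i : σ // i ≠ j} => algebraMap F M (t i.1)) := by
  classical
  rw [hind.isTranscendenceBasis_iff_isAlgebraic]
  set y : {i : σ // i ≠ j} → M := fun i => algebraMap F M (t i.1) with hy
  set B := Algebra.adjoin K (Set.range y) with hB
  have h1 : ∀ i, i ≠ j → algebraMap F M (t i) ∈ B := fun i hi => Algebra.subset_adjoin ⟨⟨i, hi⟩, rfl⟩
  have hK : ∀ a : K, algebraMap K M a ∈ B := fun a => B.algebraMap_mem a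
  have hsj : algebraMap K M (s (some j)) ≠ 0 := by
    intro h
    exact hj ((algebraMap K M).injective (by rw [h, map_zero]))
  have h2 : algebraMap F M (t j) ∈ B := by
    have h3 : algebraMap F M (t j) = - (algebraMap K M ((s (some j))⁻¹) * (algebraMap K M (s none) +
        ∑ i ∈ Finset.univ.erase j, algebraMap F M (t i) * algebraMap K M (s (some i)))) := by
      unfold gsec at hrel
      rw [← Finset.add_sum_erase Finset.univ _ (Finset.mem_univ j)] at hrel
      rw [map_inv₀]
      field_simp
      linear_combination hrel
    rw [h3]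
    refine B.neg_mem (B.mul_mem (hK _) (B.add_mem (hK _) (B.sum_mem fun i hi => B.mul_mem (h1 i ?_) (hK _))))
    exact Finset.ne_of_mem_erase hi
  have h3 : ∀ i, algebraMap F M (t i) ∈ B := by
    intro i
    by_cases hi : i = j
    · rw [hi]
      exact h2
    · exact h1 i hi
  have h4 : ∀ f : MvPolynomial σ K, MvPolynomial.aeval (fun i => algebraMap F M (t i)) f ∈ B := by
    intro f
    have h5 : MvPolynomial.aeval (fun i => algebraMap F M (t i)) f ∈
        Algebra.adjoin K (Set.range fun i => algebraMap F M (t i)) := by
      rw [Algebra.adjoin_range_eq_range_aeval]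
      exact ⟨f, rfl⟩
    exact Algebra.adjoin_le (by
      rintro _ ⟨i, rfl⟩
      exact h3 i) h5
  refine ⟨fun b => ?_⟩
  obtain ⟨f, g, hg, hb⟩ := hgen b
  have h5 : b = MvPolynomial.aeval (fun i => algebraMap F M (t i)) f *
      (MvPolynomial.aeval (fun i => algebraMap F M (t i)) g)⁻¹ := by
    rw [← hb, mul_assoc, mul_inv_cancel₀ hg, mul_one]
  have h6 : ∀ c ∈ B, IsAlgebraic B c := fun c hc => isAlgebraic_algebraMap (⟨c, hc⟩ : B)
  rw [h5]
  exact (h6 _ (h4 f)).mul (h6 _ (h4 g)).inv

theorem gd_der [CharZero k] {X : Mod k K} {J : K → K → K → K} {κ : Cart X} (hJ : Jac X J κ) {ζ : K} {ζ' : F} {t : σ → F}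
    {s : Option σ → K} (h : GD k M ζ ζ' t s) (hs : ∃ j : σ, s (some j) ≠ 0) :
    ∃ δ : Derivation F M M, ∀ a : K, δ (algebraMap K M a) = gsec M t (fun o => J ζ (s o) a) := by
  classical
  have hcM : CharZero M := charZero_of_injective_algebraMap (algebraMap k M).injective
  obtain ⟨j, hj⟩ := hs
  -- the cyclic rule
  have cyc : ∀ a b c, J a b c = J c a b := by
    intro a b c
    rw [hJ.s23 a b c, hJ.s12 a c b, neg_neg]
  have hJadd : ∀ a b c d, J a b (c + d) = J a b c + J a b d := by
    intro a b c d
    rw [cyc a b (c + d), hJ.add, ← cyc a b c, ← cyc a b d]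
  have hJleib : ∀ a b c d, J a b (c * d) = c * J a b d + d * J a b c := by
    intro a b c d
    rw [cyc a b (c * d), hJ.leib, ← cyc a b c, ← cyc a b d]
  have hJalg : ∀ (a b : K) (c : k), J a b (algebraMap k K c) = 0 := by
    intro a b c
    rw [cyc a b, hJ.alg]
  -- the coefficients
  set τ : Option σ → M := fun o => o.elim 1 (fun i => algebraMap F M (t i)) with hτ
  have hg : ∀ c : Option σ → K, gsec M t c = ∑ o, τ o * algebraMap K M (c o) := by
    intro c
    rw [Fintype.sum_option]
    unfold gsec
    simp only [hτ, Option.elim_none, Option.elim_some, one_mul]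
  let Δ : Derivation k K M :=
    { toLinearMap :=
        { toFun := fun a => ∑ o, τ o * algebraMap K M (J ζ (s o) a)
          map_add' := fun a b => by
            rw [← Finset.sum_add_distrib]
            refine Finset.sum_congr rfl fun o _ => ?_
            rw [hJadd, map_add, mul_add]
          map_smul' := fun r a => by
            rw [RingHom.id_apply, Finset.smul_sum]
            refine Finset.sum_congr rfl fun o _ => ?_
            rw [Algebra.smul_def, hJleib, hJalg, mul_zero, add_zero, map_mul, ← IsScalarTower.algebraMap_apply k K M,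
              Algebra.smul_def]
            ring }
      map_one_eq_zero' := by
        change ∑ o, τ o * algebraMap K M (J ζ (s o) 1) = 0
        refine Finset.sum_eq_zero fun o _ => ?_
        have h1 := hJalg ζ (s o) 1
        rw [map_one] at h1
        rw [h1, map_zero, mul_zero]
      leibniz' := fun a b => by
        change ∑ o, τ o * algebraMap K M (J ζ (s o) (a * b)) = a • ∑ o, τ o * algebraMap K M (J ζ (s o) b) +
          b • ∑ o, τ o * algebraMap K M (J ζ (s o) a)
        rw [Finset.smul_sum, Finset.smul_sum, ← Finset.sum_add_distrib]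
        refine Finset.sum_congr rfl fun o _ => ?_
        rw [hJleib, map_add, map_mul, map_mul, Algebra.smul_def, Algebra.smul_def]
        ring }
  have hΔ : ∀ a, Δ a = ∑ o, τ o * algebraMap K M (J ζ (s o) a) := fun a => rfl
  obtain ⟨bs, hbs⟩ := exists_isTranscendenceBasis k K
  have htb := dx_tb h.rel h.gen hj (h.indj j hj)
  have hsum := hbs.sumElim_comp htb
  obtain ⟨D, hD⟩ := Pool.Agent.H24.TU.exists_derivation hsum
    (Sum.elim (fun _ : {i : σ // i ≠ j} => (0 : M)) (fun x : bs => Δ (x : K)))
  have hD1 : ∀ i, i ≠ j → D (algebraMap F M (t i)) = 0 := fun i hi => hD (Sum.inl ⟨i, hi⟩)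
  have hD2 : ∀ x : bs, D (algebraMap K M (x : K)) = Δ (x : K) := fun x => hD (Sum.inr x)
  -- `D = Δ` on `K`
  let DK : Derivation k K M :=
    { toLinearMap := D.toLinearMap ∘ₗ (IsScalarTower.toAlgHom k K M).toLinearMap
      map_one_eq_zero' := by
        change D (algebraMap K M 1) = 0
        rw [map_one, Derivation.map_one_eq_zero]
      leibniz' := fun f g => by
        change D (algebraMap K M (f * g)) = f • D (algebraMap K M g) + g • D (algebraMap K M f)
        rw [map_mul, Derivation.leibniz, smul_eq_mul, smul_eq_mul, Algebra.smul_def, Algebra.smul_def] }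
  have hDK : ∀ a, D (algebraMap K M a) = Δ a := by
    have h4 : DK - Δ = 0 := by
      apply Pool.Agent.H24.TU.derivation_eq_zero hbs
      intro i
      change D (algebraMap K M (i : K)) - Δ (i : K) = 0
      rw [hD2, sub_self]
    intro a
    have h5 := congrArg (fun E : Derivation k K M => E a) h4
    change D (algebraMap K M a) - Δ a = 0 at h5
    exact sub_eq_zero.1 h5
  -- `D (t j) = 0`
  have hDj : D (algebraMap F M (t j)) = 0 := by
    have h1 : ∑ o, τ o * algebraMap K M (s o) = 0 := by
      rw [← hg]
      exact h.rel
    have h2 := congrArg D h1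
    rw [map_zero, map_sum] at h2
    have h3 : ∀ o, D (τ o * algebraMap K M (s o)) = τ o * Δ (s o) + algebraMap K M (s o) * D (τ o) := by
      intro o
      rw [Derivation.leibniz, smul_eq_mul, smul_eq_mul, hDK]
    rw [Finset.sum_congr rfl fun o _ => h3 o, Finset.sum_add_distrib] at h2
    have h4 : ∑ o, τ o * Δ (s o) = 0 := by
      have h5 : ∑ o, τ o * Δ (s o) = - ∑ o, τ o * Δ (s o) := by
        simp only [hΔ]
        rw [← Finset.sum_neg_distrib]
        simp only [Finset.mul_sum]
        rw [Finset.sum_comm]
        rw [← Finset.sum_congr rfl fun o _ => Finset.sum_neg_distrib _]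
        refine Finset.sum_congr rfl fun o _ => ?_
        refine Finset.sum_congr rfl fun o' _ => ?_
        rw [hJ.s23 ζ (s o) (s o'), map_neg]
        ring
      have h6 : (2 : M) * ∑ o, τ o * Δ (s o) = 0 := by linear_combination h5
      exact (mul_eq_zero.1 h6).resolve_left two_ne_zero
    have h5 : ∑ o, algebraMap K M (s o) * D (τ o) = algebraMap K M (s (some j)) * D (algebraMap F M (t j)) := by
      rw [Finset.sum_eq_single (some j)]
      · rfl
      · intro o _ ho
        cases o with
        | none =>
          change algebraMap K M (s none) * D 1 = 0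
          rw [Derivation.map_one_eq_zero, mul_zero]
        | some i =>
          change algebraMap K M (s (some i)) * D (algebraMap F M (t i)) = 0
          rw [hD1 i (fun h => ho (by rw [h])), mul_zero]
      · intro h
        exact (h (Finset.mem_univ _)).elim
    rw [h4, h5, zero_add] at h2
    refine (mul_eq_zero.1 h2).resolve_left fun h6 => hj ((algebraMap K M).injective (by rw [h6, map_zero]))
  have hDt : ∀ i, D (algebraMap F M (t i)) = 0 := by
    intro i
    by_cases hi : i = j
    · rw [hi]
      exact hDj
    · exact hD1 i hi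
  -- `D ζ = 0`
  have hDz : D (algebraMap F M ζ') = 0 := by
    rw [← h.zz, hDK, hΔ]
    refine Finset.sum_eq_zero fun o _ => ?_
    have h1 : J ζ (s o) ζ = 0 := by
      have hcK : CharZero K := charZero_of_injective_algebraMap (algebraMap k K).injective
      have h2 : J ζ (s o) ζ = - J ζ (s o) ζ := by
        have h3 := hJ.s12 ζ ζ (s o)
        rw [← cyc ζ (s o) ζ] at h3
        exact h3
      have h4 : (2 : K) * J ζ (s o) ζ = 0 := by linear_combination h2
      exact (mul_eq_zero.1 h4).resolve_left two_ne_zero
    rw [h1, map_zero, mul_zero]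
  -- `D = 0` on `F`
  let DF : Derivation k F M :=
    { toLinearMap := D.toLinearMap ∘ₗ (IsScalarTower.toAlgHom k F M).toLinearMap
      map_one_eq_zero' := by
        change D (algebraMap F M 1) = 0
        rw [map_one, Derivation.map_one_eq_zero]
      leibniz' := fun f g => by
        change D (algebraMap F M (f * g)) = f • D (algebraMap F M g) + g • D (algebraMap F M f)
        rw [map_mul, Derivation.leibniz, smul_eq_mul, smul_eq_mul, Algebra.smul_def, Algebra.smul_def] }
  have hDF : ∀ c, D (algebraMap F M c) = 0 := by
    have h1 : IsTranscendenceBasis k (fun o : Option σ => o.elim ζ' t) := by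
      rw [h.ind.isTranscendenceBasis_iff_isAlgebraic]
      exact ⟨h.alg⟩
    have h2 : DF = 0 := by
      apply Pool.Agent.H24.TU.derivation_eq_zero h1
      intro o
      cases o with
      | none => exact hDz
      | some i => exact hDt i
    intro c
    exact congrArg (fun E : Derivation k F M => E c) h2
  refine ⟨{ toLinearMap :=
              { toFun := D
                map_add' := map_add D
                map_smul' := fun c x => by
                  rw [RingHom.id_apply, Algebra.smul_def, Derivation.leibniz, hDF, smul_zero, add_zero, smul_eq_mul,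
                    Algebra.smul_def] }
            map_one_eq_zero' := D.map_one_eq_zero
            leibniz' := D.leibniz }, fun a => ?_⟩
  change D (algebraMap K M a) = _
  rw [hDK, hΔ, hg]

end Pool.Agent.H61.AB
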