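import Pool.Agent.H61.AB.Def
import Pool.Agent.H83.TK.GsB
import Pool.Agent.H43.WR.Def

/-!
# [H61 AB GDef] ABUNDANCE (MP_e49dc9_ag), chapter (H4c): the derivation of the generic curve

`K / k` the function field of the threefold `X` (`trdeg k K = 3`), `ζ ∈ K`, `s : Option σ → K` sections of `H` without common zeros.
`F` (in the application `F = F₀(t)`, `F₀` algebraic over `k(ζ)`) with `ζ' ∈ F` and independent elements `t : σ → F`, `M` the function field of the
curve `s none + ∑ t i * s (some i) = 0` over `F`: `M ⊇ K, F`.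

* `GD k M ζ ζ' t s`: these data.
* `lf φ τ c`: the linear form `φ (c none) + ∑ τ i * φ (c (some i))` (`gsec M t c = lf (algebraMap K M) (t)` by `rfl`).
* `U2 v ζ z`: the residues of `ζ` and `z` at the place `v` of `K / k` are algebraically independent over `k`: the nonzero polynomials in `ζ` and `z`
  are units at `v`.
-/

set_option autoImplicit false

namespace Pool.Agent.H61.AB

open Pool.Agent.H54.RV Pool.Agent.H83.TU Pool.Agent.H83.TK

/-- the generic curve over `F` and its function field `M` -/
structure GD (k M : Type) {K F : Type} [Field k] [Field K] [Field F] [Field M] [Algebra k K] [Algebra k F] [Algebra k M] [Algebra K M]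
    [Algebra F M] [IsScalarTower k K M] [IsScalarTower k F M] {σ : Type} [Fintype σ] (ζ : K) (ζ' : F) (t : σ → F) (s : Option σ → K) :
    Prop where
  zz : algebraMap K M ζ = algebraMap F M ζ'
  ind : AlgebraicIndependent k (fun o : Option σ => o.elim ζ' t)
  alg : ∀ c : F, IsAlgebraic (Algebra.adjoin k (Set.range (fun o : Option σ => o.elim ζ' t))) c
  rel : gsec M t s = 0
  gen : ∀ b : M, ∃ f g : MvPolynomial σ K, MvPolynomial.aeval (fun i => algebraMap F M (t i)) g ≠ 0 ∧
    b * MvPolynomial.aeval (fun i => algebraMap F M (t i)) g = MvPolynomial.aeval (fun i => algebraMap F M (t i)) f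
  indj : ∀ j : σ, s (some j) ≠ 0 → AlgebraicIndependent K (fun i : {i : σ // i ≠ j} => algebraMap F M (t i.1))

/-- the value of a linear form -/
def lf {K Ω σ : Type} [Field K] [Field Ω] [Fintype σ] (φ : K →+* Ω) (τ : σ → Ω) (c : Option σ → K) : Ω :=
  φ (c none) + ∑ i, τ i * φ (c (some i))

/-- the residues of `ζ` and `z` at the place `v` are algebraically independent -/
def U2 {k K : Type} [Field k] [Field K] [Algebra k K] (v : Place k K) (ζ z : K) : Prop :=
  ∀ p : MvPolynomial (Fin 2) k, p ≠ 0 → MvPolynomial.aeval ![ζ, z] p ≠ 0 ∧ v.ord (MvPolynomial.aeval ![ζ, z] p) = 0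

end Pool.Agent.H61.AB
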