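import Pool.Agent.H61.AB.GDef

/-!
# [H61 AB Lr] ABUNDANCE (MP_e49dc9_ag), (H4c): linear relations between independent elements

`lr1`: `z₀` and the `τ i` algebraically independent over `k`, `c o` algebraic over `k(z₀)`, `c none + ∑ τ i * c (some i) = 0`: all `c o` are `0`.
PROOF.  The `τ i` are algebraically independent over `k(z₀)` and then over the algebraic closure `E` of `k(z₀)` in `Ω` (Mathlib:
`AlgebraicIndependent.option_iff..`, `.. adjoin`, `AlgebraicIndependent` over an algebraic extension `AlgebraicIndependent.extendScalars`); the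
`c o` are in `E`, so `c none + ∑ c (some i) X i` is a polynomial over `E` with value `0`, so it is `0`.

`lr2`: `K / k` with `trdeg ≤ 3`, `φ : K → Ω`, `φ ζ` and the `τ i` algebraically independent over `k`.  Three linear forms over `K`, linearly independent
over `K`, do not vanish at `τ`.
PROOF.  `φ(K)(τ) ` has transcendence degree `≥ card σ + 1` over `k`; if the three forms vanish then the space `T` of `K`-linear combinations of `1` and
the `τ i` has dimension `≤ card σ + 1 - 3` over `K` and contains `1`, so `φ(K)(τ)` is generated over `φ(K)` by at most `card σ - 3` elements and has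
transcendence degree `≤ 3 + card σ - 3 = card σ` over `k`: contradiction.
-/

set_option autoImplicit false

namespace Pool.Agent.H61.AB

variable {k K Ω : Type} [Field k] [Field K] [Field Ω] [Algebra k K] [Algebra k Ω] {σ : Type} [Fintype σ]

theorem lr1 {z₀ : Ω} {τ : σ → Ω} (h : AlgebraicIndependent k (fun o : Option σ => o.elim z₀ τ)) (c : Option σ → Ω)
    (hc : ∀ o, IsAlgebraic (Algebra.adjoin k {z₀}) (c o)) (h0 : c none + ∑ i, τ i * c (some i) = 0) : ∀ o, c o = 0 := by
  classical
  have h1 : AlgebraicIndependent k (Sum.elim τ (fun _ : Unit => z₀)) := by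
    have h2 := h.comp (fun s : σ ⊕ Unit => (Sum.elim some (fun _ => none) s : Option σ)) (by
      rintro (a | a) (b | b) hab
      · exact congrArg Sum.inl (Option.some.inj hab)
      · exact absurd hab (by simp)
      · exact absurd hab (by simp)
      · rfl)
    have e : ((fun o : Option σ => o.elim z₀ τ) ∘ fun s : σ ⊕ Unit => (Sum.elim some (fun _ => none) s : Option σ)) =
        Sum.elim τ (fun _ : Unit => z₀) := by
      funext s
      rcases s with a | a <;> rfl
    rwa [e] at h2
  have h2 := (AlgebraicIndependent.sumElim_iff.1 h1).2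
  rw [Set.range_const] at h2
  have h3 := h2.subalgebraAlgebraicClosure
  let e : Option σ → Subalgebra.algebraicClosure (Algebra.adjoin k {z₀}) Ω := fun o => ⟨c o, hc o⟩
  have h4 := h3.eq_zero_of_aeval_eq_zero (MvPolynomial.C (e none) + ∑ i, MvPolynomial.C (e (some i)) * MvPolynomial.X i) (by
    rw [map_add, map_sum, MvPolynomial.aeval_C, ← h0]
    congr 1
    refine Finset.sum_congr rfl fun i _ => ?_
    rw [map_mul, MvPolynomial.aeval_X, MvPolynomial.aeval_C, mul_comm]
    rfl)
  have h5 : ∀ o, e o = 0 := by
    intro o
    rcases o with _ | i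
    · have h6 := congrArg MvPolynomial.constantCoeff h4
      simpa using h6
    · have h6 := congrArg (MvPolynomial.coeff (Finsupp.single i 1)) h4
      rw [MvPolynomial.coeff_add, MvPolynomial.coeff_sum, MvPolynomial.coeff_zero, MvPolynomial.coeff_C,
        if_neg (fun h => by simpa using (DFunLike.congr_fun h i))] at h6
      rw [Finset.sum_eq_single i] at h6
      · rw [MvPolynomial.coeff_C_mul, MvPolynomial.coeff_X, if_pos rfl, mul_one, zero_add] at h6
        exact h6
      · intro j _ hj
        rw [MvPolynomial.coeff_C_mul, MvPolynomial.coeff_X, if_neg, mul_zero]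
        intro h
        exact hj ((Finsupp.single_left_injective one_ne_zero) h)
      · intro h
        exact absurd (Finset.mem_univ i) h
  intro o
  exact congrArg Subtype.val (h5 o)

theorem lr2 (htr : Algebra.trdeg k K ≤ 3) (φ : K →ₐ[k] Ω) {ζ : K} {τ : σ → Ω}
    (h : AlgebraicIndependent k (fun o : Option σ => o.elim (φ ζ) τ)) (c : Fin 3 → Option σ → K) (hc : LinearIndependent K c)
    (h0 : ∀ a, lf φ.toRingHom τ (c a) = 0) : False := by
  classical
  let _ : Algebra K Ω := φ.toRingHom.toAlgebra
  have : IsScalarTower k K Ω := IsScalarTower.of_algebraMap_eq fun x => (φ.commutes x).symm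
  have hφ : ∀ x : K, algebraMap K Ω x = φ x := fun _ => rfl
  let v : Option σ → Ω := fun o => o.elim 1 τ
  let T : (Option σ → K) →ₗ[K] Ω := Fintype.linearCombination K v
  have hT : ∀ d : Option σ → K, T d = lf φ.toRingHom τ d := by
    intro d
    change Fintype.linearCombination K v d = _
    rw [Fintype.linearCombination_apply, Fintype.sum_option, lf, Algebra.smul_def]
    congr 1
    · exact mul_one _
    · refine Finset.sum_congr rfl fun i _ => ?_
      rw [Algebra.smul_def, mul_comm]
      rfl
  have hker : 3 ≤ Module.finrank K (LinearMap.ker T) := by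
    let c' : Fin 3 → LinearMap.ker T := fun a => ⟨c a, by rw [LinearMap.mem_ker, hT]; exact h0 a⟩
    have h1 : LinearIndependent K c' := LinearIndependent.of_comp (LinearMap.ker T).subtype hc
    have h2 := h1.fintype_card_le_finrank
    simpa using h2
  have hrk := LinearMap.finrank_range_add_finrank_ker T
  rw [Module.finrank_fintype_fun_eq_card, Fintype.card_option] at hrk
  have hv : ∀ o, v o ∈ LinearMap.range T := by
    intro o
    refine ⟨Pi.single o 1, ?_⟩
    change Fintype.linearCombination K v _ = _
    rw [Fintype.linearCombination_apply_single, one_smul]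
  have hone : (1 : Ω) ∈ LinearMap.range T := hv none
  obtain ⟨b, hb1, hb2, hb3, hb4⟩ := exists_linearIndepOn_extension (K := K) (v := (id : Ω → Ω)) (s := {1})
    (t := (LinearMap.range T : Set Ω)) (by
      rw [linearIndepOn_singleton_iff]
      exact one_ne_zero) (Set.singleton_subset_iff.2 hone)
  rw [Set.image_id, Set.image_id] at hb3
  have h1b : (1 : Ω) ∈ b := hb2 rfl
  have hbli : LinearIndependent K (fun x : b => (⟨x.1, hb1 x.2⟩ : LinearMap.range T)) :=
    LinearIndependent.of_comp (LinearMap.range T).subtype hb4
  have : Finite b := hbli.finite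
  have : Fintype b := Fintype.ofFinite b
  have hbc : Fintype.card b ≤ Module.finrank K (LinearMap.range T) := hbli.fintype_card_le_finrank
  set S : Set Ω := b \ {1} with hS
  have : Finite S := Finite.Set.subset b Set.sdiff_subset
  have hSc : Cardinal.mk S + 1 ≤ (Fintype.card b : Cardinal) := by
    have h1 : Cardinal.mk (insert 1 S : Set Ω) = Cardinal.mk S + 1 := Cardinal.mk_insert (fun h => h.2 rfl)
    rw [← h1, ← Cardinal.mk_fintype]
    exact Cardinal.mk_le_mk_of_subset (Set.insert_subset h1b Set.sdiff_subset)
  have hbS : b ⊆ (Algebra.adjoin K S : Set Ω) := by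
    intro x hx
    by_cases h : x = 1
    · rw [h]
      exact one_mem _
    · exact Algebra.subset_adjoin ⟨hx, h⟩
  have hin : ∀ x ∈ LinearMap.range T, x ∈ Algebra.adjoin K S := by
    intro x hx
    have h1 : Submodule.span K b ≤ Subalgebra.toSubmodule (Algebra.adjoin K S) := Submodule.span_le.2 hbS
    exact h1 (hb3 hx)
  have hmem : ∀ o : Option σ, (o.elim (φ ζ) τ : Ω) ∈ Algebra.adjoin K S := by
    intro o
    rcases o with _ | i
    · exact (Algebra.adjoin K S).algebraMap_mem ζ
    · exact hin _ (hv (some i))
  let A : Subalgebra K Ω := Algebra.adjoin K S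
  have h5 : AlgebraicIndependent k (fun o : Option σ => (⟨o.elim (φ ζ) τ, hmem o⟩ : A)) := by
    refine AlgebraicIndependent.of_comp ((Subalgebra.val A).restrictScalars k) ?_
    exact h
  have h6 := h5.cardinalMk_le_trdeg
  have h7 : Algebra.trdeg K A ≤ Cardinal.mk S := by
    have e1 : Algebra.adjoin K ((fun x : A => (x : Ω)) ⁻¹' S) = ⊤ := Algebra.adjoin_adjoin_coe_preimage
    have : Algebra.IsAlgebraic (Algebra.adjoin K ((fun x : A => (x : Ω)) ⁻¹' S)) A :=
      ⟨fun a => isAlgebraic_algebraMap
        (⟨a, by rw [e1]; exact Algebra.mem_top⟩ : Algebra.adjoin K ((fun x : A => (x : Ω)) ⁻¹' S))⟩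
    exact (Algebra.IsAlgebraic.trdeg_le_cardinalMk K _).trans (Cardinal.mk_preimage_of_injective _ _ Subtype.val_injective)
  have h8 : Algebra.trdeg k K + Algebra.trdeg K A = Algebra.trdeg k A := trdeg_add_eq k K
  rw [← h8, Cardinal.mk_fintype, Fintype.card_option] at h6
  have h9 := h6.trans (add_le_add htr h7)
  have : Fintype S := Fintype.ofFinite S
  rw [Cardinal.mk_fintype S] at h9 hSc
  have h10 : Fintype.card σ + 1 ≤ 3 + Fintype.card S := by exact_mod_cast h9
  have h11 : Fintype.card S + 1 ≤ Fintype.card b := by exact_mod_cast hSc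
  omega

end Pool.Agent.H61.AB
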