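import Pool.Agent.H61.AB.Gs1
import Pool.Agent.H61.AB.Lr

/-!
# [H61 AB Gs2] ABUNDANCE (MP_e49dc9_ag), (H4c): the places of the generic curve are Gauss extensions, consequences

The setting of `gauss1`.
* `gauss_le`: `c : Option σ → K` with `c (some i₀) = 0`, `c o ≠ 0`: `gsec M t c ≠ 0` and its order is at most the order of `c o`
  (it is the minimum of the orders of the `c o`: divide by a `c o` of minimal order and use `gauss1` for the linear polynomial
  `c none + ∑_(i ≠ i₀) X i c (some i)`).
* `gauss_unif`: there is a uniformizer of `w` in `K`: every `b ∈ M`, `b ≠ 0` is a quotient of polynomials in the `t i`, `i ≠ i₀`, over `K` (`GD.gen`;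
  `t i₀` is eliminated with `GD.rel`), and the order of such a polynomial is the order of a coefficient (of minimal order; `gauss1`), so
  every value of `w.ord` is a value on `K`.
* `gauss_z`: there is `o` such that the residues of `ζ` and of `z = s o / s (some i₀)` are algebraically independent over `k`.
  Otherwise (the residue of `ζ` is transcendental over `k`, because `ζ' ∈ F` is) all residues `res (s o / s (some i₀))` are algebraic over
  `k(res ζ)`, and `res (a none) + ∑ res (t i) res (a (some i)) = 0` with the coefficient `1` at `i₀`: contradiction to `lr1` in the residue field of `w`.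
-/

set_option autoImplicit false

namespace Pool.Agent.H61.AB

open Pool.Agent.H54.RV Pool.Agent.H83.TU Pool.Agent.H83.TK

variable {k K F M : Type} [Field k] [Field K] [Field F] [Field M] [Algebra k K] [Algebra k F] [Algebra k M] [Algebra K M]
  [Algebra F M] [IsScalarTower k K M] [IsScalarTower k F M] {σ : Type} [Fintype σ]

private theorem gs2_none {τ R : Type} [Fintype τ] [CommRing R] (u : Option τ → R) : (lin u).coeff 0 = u none := by
  unfold lin
  rw [MvPolynomial.coeff_add, MvPolynomial.coeff_sum, MvPolynomial.coeff_zero_C]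
  have h1 : ∀ i ∈ Finset.univ, MvPolynomial.coeff 0 (MvPolynomial.X i * MvPolynomial.C (u (some i)) : MvPolynomial τ R) = 0 := by
    intro i _
    rw [mul_comm, MvPolynomial.coeff_C_mul]
    have h2 : MvPolynomial.coeff 0 (MvPolynomial.X i : MvPolynomial τ R) = 0 := by
      classical
      rw [MvPolynomial.coeff_X, if_neg]
      exact Finsupp.single_ne_zero.2 one_ne_zero
    rw [h2, mul_zero]
  rw [Finset.sum_eq_zero h1, add_zero]

private theorem gs2_some {τ R : Type} [Fintype τ] [CommRing R] (u : Option τ → R) (j : τ) :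
    (lin u).coeff (Finsupp.single j 1) = u (some j) := by
  classical
  unfold lin
  rw [MvPolynomial.coeff_add, MvPolynomial.coeff_sum, MvPolynomial.coeff_C,
    if_neg (Finsupp.single_ne_zero.2 one_ne_zero).symm, zero_add, Finset.sum_eq_single j]
  · rw [mul_comm, MvPolynomial.coeff_C_mul, MvPolynomial.coeff_X, if_pos rfl, mul_one]
  · intro i _ hij
    rw [mul_comm, MvPolynomial.coeff_C_mul, MvPolynomial.coeff_X, if_neg, mul_zero]
    intro h
    exact hij (Finsupp.single_left_injective one_ne_zero h)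
  · intro h
    exact absurd (Finset.mem_univ j) h

private theorem gs2_mem {τ K M : Type} [Fintype τ] [Field K] [Field M] [Algebra K M] (R : ValuationSubring M)
    (u : Option τ → K) (hu : ∀ o, algebraMap K M (u o) ∈ R) (m : τ →₀ ℕ) :
    algebraMap K M ((lin u).coeff m) ∈ R := by
  classical
  unfold lin
  rw [MvPolynomial.coeff_add, MvPolynomial.coeff_sum, map_add, map_sum]
  refine R.add_mem _ _ ?_ (sum_mem fun i _ => ?_)
  · rw [MvPolynomial.coeff_C]
    split_ifs
    · exact hu none
    · rw [map_zero]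
      exact R.zero_mem
  · rw [mul_comm, MvPolynomial.coeff_C_mul, MvPolynomial.coeff_X, map_mul]
    refine R.mul_mem _ _ (hu _) ?_
    split_ifs
    · rw [map_one]
      exact R.one_mem
    · rw [map_zero]
      exact R.zero_mem

private theorem gs2_ne {a : K} (ha : a ≠ 0) : algebraMap K M a ≠ 0 := fun h =>
  ha ((map_eq_zero (algebraMap K M)).1 h)

theorem gauss_le (htr : Algebra.trdeg k K = 3) {ζ : K} {ζ' : F} {t : σ → F} {s : Option σ → K} (h : GD k M ζ ζ' t s)
    (w : Place F M) {a₀ : K} (ha₀ : w.ord (algebraMap K M a₀) ≠ 0) {i₀ : σ} (h0 : s (some i₀) ≠ 0)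
    (hs : ∀ o, algebraMap K M (s o / s (some i₀)) ∈ w.R) (c : Option σ → K) (hc : c (some i₀) = 0) (o : Option σ) (ho : c o ≠ 0) :
    gsec M t c ≠ 0 ∧ w.ord (gsec M t c) ≤ w.ord (algebraMap K M (c o)) := by
  classical
  obtain ⟨o₁, ho₁, hmin⟩ := Finset.exists_min_image (Finset.univ.filter (fun o => c o ≠ 0))
    (fun o => w.ord (algebraMap K M (c o))) ⟨o, Finset.mem_filter.2 ⟨Finset.mem_univ _, ho⟩⟩
  have hc1 : c o₁ ≠ 0 := (Finset.mem_filter.1 ho₁).2
  obtain ⟨u, hu⟩ : ∃ u : Option {i : σ // i ≠ i₀} → K, ∀ o, u o = c (o.map Subtype.val) / c o₁ :=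
    ⟨_, fun _ => rfl⟩
  have huR : ∀ o, algebraMap K M (u o) ∈ w.R := by
    intro o'
    by_cases h1 : c (o'.map Subtype.val) = 0
    · rw [hu, h1, zero_div, map_zero]
      exact w.R.zero_mem
    · have h2 : algebraMap K M (u o') ≠ 0 := by
        rw [hu]
        exact gs2_ne (div_ne_zero h1 hc1)
      rw [← ord_nonneg w _ h2, hu, map_div₀, div_eq_mul_inv, ord_mul w _ _ (gs2_ne h1) (inv_ne_zero (gs2_ne hc1)),
        ord_inv]
      have h3 := hmin _ (Finset.mem_filter.2 ⟨Finset.mem_univ (o'.map Subtype.val), h1⟩)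
      linarith
  have h2 : ∃ o', u o' = 1 := by
    cases o₁ with
    | none => exact ⟨none, by rw [hu]; exact div_self hc1⟩
    | some i =>
      have hi : i ≠ i₀ := by
        rintro rfl
        exact hc1 hc
      exact ⟨some ⟨i, hi⟩, by rw [hu]; exact div_self hc1⟩
  have hunit : ∃ m, (lin u).coeff m ≠ 0 ∧ w.ord (algebraMap K M ((lin u).coeff m)) = 0 := by
    obtain ⟨o', ho'⟩ := h2
    cases o' with
    | none =>
      refine ⟨0, ?_, ?_⟩
      · rw [gs2_none, ho']
        exact one_ne_zero
      · rw [gs2_none, ho', map_one, ord_one]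
    | some j =>
      refine ⟨Finsupp.single j 1, ?_, ?_⟩
      · rw [gs2_some, ho']
        exact one_ne_zero
      · rw [gs2_some, ho', map_one, ord_one]
  obtain ⟨h3, h4⟩ := gauss1 htr h w ha₀ h0 hs (lin u) (gs2_mem w.R u huR) hunit
  have h5 : gsec M t c = algebraMap K M (c o₁) *
      MvPolynomial.aeval (fun i : {i : σ // i ≠ i₀} => algebraMap F M (t i.1)) (lin u) := by
    unfold lin gsec
    simp only [map_add, map_sum, map_mul, MvPolynomial.algHom_C, MvPolynomial.aeval_X]
    rw [mul_add, Finset.mul_sum, Fintype.sum_eq_add_sum_subtype_ne _ i₀, hc, map_zero, mul_zero, zero_add]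
    have h6 : ∀ o : Option {i : σ // i ≠ i₀}, algebraMap K M (c o₁) * algebraMap K M (u o) =
        algebraMap K M (c (o.map Subtype.val)) := by
      intro o'
      rw [← map_mul, hu, mul_div_cancel₀ _ hc1]
    congr 1
    · exact (h6 none).symm
    · refine Finset.sum_congr rfl fun i _ => ?_
      have h7 := h6 (some i)
      rw [Option.map_some] at h7
      rw [← h7]
      ring
  rw [h5]
  refine ⟨mul_ne_zero (gs2_ne hc1) h3, ?_⟩
  rw [ord_mul w _ _ (gs2_ne hc1) h3, h4, add_zero]
  exact hmin _ (Finset.mem_filter.2 ⟨Finset.mem_univ _, ho⟩)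

private theorem gs2_poly (htr : Algebra.trdeg k K = 3) {ζ : K} {ζ' : F} {t : σ → F} {s : Option σ → K}
    (h : GD k M ζ ζ' t s) (w : Place F M) {a₀ : K} (ha₀ : w.ord (algebraMap K M a₀) ≠ 0) {i₀ : σ}
    (h0 : s (some i₀) ≠ 0) (hs : ∀ o, algebraMap K M (s o / s (some i₀)) ∈ w.R) (f : MvPolynomial σ K)
    (hf : MvPolynomial.aeval (fun i => algebraMap F M (t i)) f ≠ 0) :
    ∃ x : K, x ≠ 0 ∧ w.ord (MvPolynomial.aeval (fun i => algebraMap F M (t i)) f) = w.ord (algebraMap K M x) := by
  classical
  obtain ⟨P, q, hq⟩ := lin_elim s i₀ (isUnit_iff_ne_zero.2 h0) f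
  have h1 : MvPolynomial.aeval (fun i => algebraMap F M (t i)) (lin s) = 0 := by
    rw [← h.rel]
    unfold lin gsec
    simp only [map_add, map_sum, map_mul, MvPolynomial.algHom_C, MvPolynomial.aeval_X]
  have h2 : MvPolynomial.aeval (fun i => algebraMap F M (t i)) f =
      MvPolynomial.aeval (fun i : {i : σ // i ≠ i₀} => algebraMap F M (t i.1)) P := by
    have h3 := congrArg (MvPolynomial.aeval (fun i => algebraMap F M (t i))) hq
    rw [map_sub, map_mul, h1, zero_mul, sub_eq_zero, MvPolynomial.aeval_rename] at h3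
    exact h3
  rw [h2] at hf ⊢
  have hP : P ≠ 0 := by
    rintro rfl
    exact hf (map_zero _)
  obtain ⟨m₁, hm₁, hmin⟩ := Finset.exists_min_image P.support (fun m => w.ord (algebraMap K M (P.coeff m)))
    (MvPolynomial.support_nonempty.2 hP)
  have hm : P.coeff m₁ ≠ 0 := MvPolynomial.mem_support_iff.1 hm₁
  refine ⟨P.coeff m₁, hm, ?_⟩
  have h4 := gauss1 htr h w ha₀ h0 hs (MvPolynomial.C (P.coeff m₁)⁻¹ * P) (fun m => by
    rw [MvPolynomial.coeff_C_mul]
    by_cases h5 : P.coeff m = 0
    · rw [h5, mul_zero, map_zero]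
      exact w.R.zero_mem
    · rw [← ord_nonneg w _ (gs2_ne (mul_ne_zero (inv_ne_zero hm) h5)), map_mul, map_inv₀,
        ord_mul w _ _ (inv_ne_zero (gs2_ne hm)) (gs2_ne h5), ord_inv]
      have h6 := hmin m (MvPolynomial.mem_support_iff.2 h5)
      linarith) ⟨m₁, by
      rw [MvPolynomial.coeff_C_mul, inv_mul_cancel₀ hm]
      exact one_ne_zero, by
      rw [MvPolynomial.coeff_C_mul, inv_mul_cancel₀ hm, map_one, ord_one]⟩
  rw [map_mul, MvPolynomial.algHom_C] at h4
  have h5 := h4.2
  rw [ord_mul w _ _ (gs2_ne (inv_ne_zero hm)) hf, map_inv₀, ord_inv] at h5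
  linarith

theorem gauss_unif (htr : Algebra.trdeg k K = 3) {ζ : K} {ζ' : F} {t : σ → F} {s : Option σ → K} (h : GD k M ζ ζ' t s)
    (w : Place F M) {a₀ : K} (ha₀ : w.ord (algebraMap K M a₀) ≠ 0) {i₀ : σ} (h0 : s (some i₀) ≠ 0)
    (hs : ∀ o, algebraMap K M (s o / s (some i₀)) ∈ w.R) : ∃ π₀ : K, w.ord (algebraMap K M π₀) = 1 := by
  obtain ⟨b, hb, hb1⟩ := ord_unif w
  obtain ⟨f, g, hg, hfg⟩ := h.gen b
  have hf : MvPolynomial.aeval (fun i => algebraMap F M (t i)) f ≠ 0 := by
    rw [← hfg]
    exact mul_ne_zero hb hg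
  obtain ⟨x, hx, hx1⟩ := gs2_poly htr h w ha₀ h0 hs f hf
  obtain ⟨y, hy, hy1⟩ := gs2_poly htr h w ha₀ h0 hs g hg
  refine ⟨x / y, ?_⟩
  have h1 := congrArg w.ord hfg
  rw [ord_mul w _ _ hb hg, hb1, hx1, hy1] at h1
  rw [map_div₀, div_eq_mul_inv, ord_mul w _ _ (gs2_ne hx) (inv_ne_zero (gs2_ne hy)), ord_inv]
  linarith

private theorem gs2_alg {κ : Type} [Field κ] [Algebra k κ] (z c : κ) (hz : Transcendental k z)
    (p : MvPolynomial (Fin 2) k) (hp : p ≠ 0) (h0 : MvPolynomial.aeval ![z, c] p = 0) :
    IsAlgebraic (Algebra.adjoin k {z}) c := by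
  by_contra hc
  have h1 : AlgebraicIndependent k (fun _ : Unit => z) := by
    rw [algebraicIndependent_unique_type_iff]
    exact hz
  have h2 : Transcendental (Algebra.adjoin k (Set.range (fun _ : Unit => z))) c := by
    rw [Set.range_const]
    exact hc
  have h3 := (h1.option_iff_transcendental c).2 h2
  have h4 : AlgebraicIndependent k ![z, c] := by
    have h5 := h3.comp ![some (), none] (by
      intro i j hij
      fin_cases i <;> fin_cases j <;> simp_all)
    convert h5 using 1
    ext i
    fin_cases i <;> rfl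
  exact hp ((algebraicIndependent_iff.1 h4) p h0)

theorem gauss_z {ζ : K} {ζ' : F} {t : σ → F} {s : Option σ → K} (h : GD k M ζ ζ' t s)
    (w : Place F M) {i₀ : σ} (h0 : s (some i₀) ≠ 0) (hs : ∀ o, algebraMap K M (s o / s (some i₀)) ∈ w.R) :
    ∃ o, ∀ p : MvPolynomial (Fin 2) k, p ≠ 0 → MvPolynomial.aeval ![ζ, s o / s (some i₀)] p ≠ 0 ∧
      w.ord (algebraMap K M (MvPolynomial.aeval ![ζ, s o / s (some i₀)] p)) = 0 := by
  classical
  by_contra hall
  push Not at hall
  letI ik : Algebra k (IsLocalRing.ResidueField w.R) :=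
    ((algebraMap F (IsLocalRing.ResidueField w.R)).comp (algebraMap k F)).toAlgebra
  haveI : IsScalarTower k F (IsLocalRing.ResidueField w.R) := IsScalarTower.of_algebraMap_eq fun _ => rfl
  obtain ⟨a, ha⟩ : ∃ a : Option σ → w.R, ∀ o, (a o : M) = algebraMap K M (s o / s (some i₀)) :=
    ⟨fun o => ⟨_, hs o⟩, fun _ => rfl⟩
  have hind : AlgebraicIndependent k (fun o : Option σ =>
      o.elim (algebraMap F (IsLocalRing.ResidueField w.R) ζ')
        (fun i => algebraMap F (IsLocalRing.ResidueField w.R) (t i))) := by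
    have h1 := h.ind.map' (f := IsScalarTower.toAlgHom k F (IsLocalRing.ResidueField w.R))
      (algebraMap F (IsLocalRing.ResidueField w.R)).injective
    convert h1 using 1
    ext o
    cases o <;> rfl
  have hz : Transcendental k (algebraMap F (IsLocalRing.ResidueField w.R) ζ') := by
    have h1 := hind.transcendental none
    exact h1
  have hζ : algebraMap F w.R ζ' = ⟨algebraMap F M ζ', w.mem ζ'⟩ := rfl
  have halg : ∀ o, IsAlgebraic (Algebra.adjoin k {algebraMap F (IsLocalRing.ResidueField w.R) ζ'})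
      (IsLocalRing.residue w.R (a o)) := by
    intro o
    obtain ⟨p, hp, hp1⟩ := hall o
    refine gs2_alg _ _ hz p hp ?_
    obtain ⟨g₀, hg₀⟩ : ∃ g₀ : k →+* w.R, g₀ = (algebraMap F w.R).comp (algebraMap k F) := ⟨_, rfl⟩
    obtain ⟨Q, hQ⟩ : ∃ Q : w.R, Q = MvPolynomial.eval₂ g₀ ![algebraMap F w.R ζ', a o] p := ⟨_, rfl⟩
    have h1 : (Q : M) = algebraMap K M (MvPolynomial.aeval ![ζ, s o / s (some i₀)] p) := by
      rw [hQ, MvPolynomial.aeval_def, MvPolynomial.hom_eval₂]
      change w.R.subtype (MvPolynomial.eval₂ g₀ ![algebraMap F w.R ζ', a o] p) = _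
      rw [MvPolynomial.hom_eval₂]
      congr 1
      · rw [hg₀]
        ext x
        change algebraMap F M (algebraMap k F x) = algebraMap K M (algebraMap k K x)
        rw [← IsScalarTower.algebraMap_apply, ← IsScalarTower.algebraMap_apply]
      · ext i
        fin_cases i
        · exact h.zz.symm
        · exact ha o
    have h2 : MvPolynomial.aeval ![algebraMap F (IsLocalRing.ResidueField w.R) ζ', IsLocalRing.residue w.R (a o)] p =
        IsLocalRing.residue w.R Q := by
      rw [hQ, MvPolynomial.aeval_def, MvPolynomial.hom_eval₂]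
      congr 1
      · rw [hg₀]
        rfl
      · ext i
        fin_cases i
        · rfl
        · rfl
    rw [h2]
    by_contra h3
    have h4 : IsUnit Q := by
      by_contra h5
      exact h3 ((IsLocalRing.residue_eq_zero_iff Q).2 ((IsLocalRing.mem_maximalIdeal Q).2 h5))
    have h5 : (Q : M) ≠ 0 := by
      intro h6
      apply h4.ne_zero
      exact Subtype.ext h6
    rw [h1] at h5
    refine hp1 (fun h6 => h5 (by rw [h6, map_zero])) ?_
    rw [ord_eq_zero w _ h5, ← h1]
    refine ⟨Q.2, ?_⟩
    obtain ⟨v, hv⟩ := h4.exists_right_inv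
    have h6 : (Q : M) * (v : M) = 1 := congrArg Subtype.val hv
    rw [← eq_inv_of_mul_eq_one_right h6]
    exact v.2
  have hrel : IsLocalRing.residue w.R (a none) + ∑ i, algebraMap F (IsLocalRing.ResidueField w.R) (t i) *
      IsLocalRing.residue w.R (a (some i)) = 0 := by
    have h1 : a none + ∑ i, algebraMap F w.R (t i) * a (some i) = 0 := by
      apply Subtype.ext
      change w.R.subtype (a none + ∑ i, algebraMap F w.R (t i) * a (some i)) = 0
      rw [map_add, map_sum]
      simp only [map_mul]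
      have h2 : ∀ o, w.R.subtype (a o) = algebraMap K M (s o) * (algebraMap K M (s (some i₀)))⁻¹ := by
        intro o
        change (a o : M) = _
        rw [ha, map_div₀, div_eq_mul_inv]
      have h3 : ∀ i, w.R.subtype (algebraMap F w.R (t i)) = algebraMap F M (t i) := fun i => rfl
      simp only [h2, h3]
      have h4 := h.rel
      unfold gsec at h4
      simp only [← mul_assoc]
      rw [← Finset.sum_mul, ← add_mul, h4, zero_mul]
    have h2 := congrArg (IsLocalRing.residue w.R) h1
    rw [map_add, map_sum, map_zero] at h2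
    simp only [map_mul] at h2
    exact h2
  have h1 := lr1 hind (fun o => IsLocalRing.residue w.R (a o)) halg hrel (some i₀)
  have h2 : a (some i₀) = 1 := by
    apply Subtype.ext
    rw [ha, div_self h0, map_one]
    rfl
  rw [h2, map_one] at h1
  exact one_ne_zero h1

end Pool.Agent.H61.AB
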