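import Pool.Agent.H61.AB.Lr
import Pool.Agent.H24.TU.DerEx

/-!
# [H61 AB Lj] ABUNDANCE (MP_e49dc9_ag), (H4c): the forms `J(ζ, s, u)` do not all vanish

`ζ, u₁ = s i₁ / s j, u₂ = s i₂ / s j` algebraically independent over `k`; in `Ω` (`= M`, or the residue field of a place of `M` trivial on `K`) the forms
`s`, `J(ζ, s, u₁)`, `J(ζ, s, u₂)` do not all vanish at `τ`.
PROOF.  `lr2`; the three forms are linearly independent over `K`: `a o = s o / s j`, `J ζ (s o) u = s j * J ζ (a o) u + a o * J ζ (s j) u`, so modulo the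
first form the second and third are `s j * J ζ (a o) u₁`, `s j * J ζ (a o) u₂`; coordinates at `o = j, i₁, i₂`: `(1, 0, 0)`, `(u₁, 0, J₀)`, `(u₂, -J₀, 0)`
up to factors, `J₀ = J ζ u₁ u₂ ≠ 0`.
`J₀ ≠ 0` is the hypothesis `hJ0`; `jac_ne`: it holds for `ζ, u₁, u₂` algebraically independent over `k`, `trdeg k K = 3` (dual derivations as in `jac_top`,
`jac_det`: `J a b c = J₀ * det`, and `J ≠ 0` by `Jac.gen` at any point).
-/

set_option autoImplicit false

namespace Pool.Agent.H61.AB

open Pool.Agent.H54.RV Pool.Agent.H83.TU Pool.Agent.H43.WR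

variable {k K Ω : Type} [Field k] [Field K] [Field Ω] [Algebra k K] [Algebra k Ω] {σ : Type} [Fintype σ]

private theorem lj_der {X : Mod k K} {J : K → K → K → K} {κ : Cart X} (hJ : Jac X J κ) (b e : K) :
    ∃ E : Derivation k K K, ∀ a, E a = J a b e := by
  refine ⟨Derivation.mk'
    { toFun := fun a => J a b e
      map_add' := fun a a' => hJ.add a a' b e
      map_smul' := fun r a => by
        rw [Algebra.smul_def, hJ.leib, hJ.alg, mul_zero, add_zero, RingHom.id_apply, Algebra.smul_def] }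
    (fun a a' => by
      change J (a * a') b e = a • J a' b e + a' • J a b e
      rw [hJ.leib, smul_eq_mul, smul_eq_mul]), fun a => rfl⟩

private theorem lj_xxy [CharZero k] {X : Mod k K} {J : K → K → K → K} {κ : Cart X} (hJ : Jac X J κ) (a b : K) :
    J a a b = 0 := by
  have : CharZero K := charZero_of_injective_algebraMap (algebraMap k K).injective
  exact self_eq_neg.1 (hJ.s12 a a b)

private theorem lj_xyy [CharZero k] {X : Mod k K} {J : K → K → K → K} {κ : Cart X} (hJ : Jac X J κ) (a b : K) :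
    J a b b = 0 := by
  have : CharZero K := charZero_of_injective_algebraMap (algebraMap k K).injective
  exact self_eq_neg.1 (hJ.s23 a b b)

private theorem lj_xyx [CharZero k] {X : Mod k K} {J : K → K → K → K} {κ : Cart X} (hJ : Jac X J κ) (a b : K) :
    J a b a = 0 := by
  rw [hJ.s23, lj_xxy hJ, neg_zero]

/-- a value `J · b e` which is `0` at a transcendence basis is `0` -/
private theorem lj_zero [CharZero k] {X : Mod k K} {J : K → K → K → K} {κ : Cart X} (hJ : Jac X J κ) {c : Fin 3 → K}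
    (hc : IsTranscendenceBasis k c) {b e : K} (h : ∀ i, J (c i) b e = 0) (a : K) : J a b e = 0 := by
  obtain ⟨E, hE⟩ := lj_der hJ b e
  have h1 := Pool.Agent.H24.TU.derivation_eq_zero hc E fun i => by rw [hE, h]
  rw [← hE, h1]
  rfl

private theorem lj_step [CharZero k] {X : Mod k K} {J : K → K → K → K} {κ : Cart X} (hJ : Jac X J κ) {c : Fin 3 → K}
    (h0 : J (c 0) (c 1) (c 2) = 0) : ∀ i j l, J (c i) (c j) (c l) = 0 := by
  have z1 := fun a b => lj_xxy hJ a b
  have z2 := fun a b => lj_xyy hJ a b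
  have z3 := fun a b => lj_xyx hJ a b
  have s1 : J (c 0) (c 2) (c 1) = 0 := by rw [hJ.s23, h0, neg_zero]
  have s2 : J (c 1) (c 0) (c 2) = 0 := by rw [hJ.s12, h0, neg_zero]
  have s3 : J (c 1) (c 2) (c 0) = 0 := by rw [hJ.s23, s2, neg_zero]
  have s4 : J (c 2) (c 0) (c 1) = 0 := by rw [hJ.s12, s1, neg_zero]
  have s5 : J (c 2) (c 1) (c 0) = 0 := by rw [hJ.s23, s4, neg_zero]
  intro i j l
  fin_cases i <;> fin_cases j <;> fin_cases l <;>
    first
      | exact z1 _ _
      | exact z2 _ _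
      | exact z3 _ _
      | exact h0
      | exact s1
      | exact s2
      | exact s3
      | exact s4
      | exact s5

private theorem lj_all [CharZero k] {X : Mod k K} {J : K → K → K → K} {κ : Cart X} (hJ : Jac X J κ) {c : Fin 3 → K}
    (hc : IsTranscendenceBasis k c) (h0 : J (c 0) (c 1) (c 2) = 0) (x y z : K) : J x y z = 0 := by
  have h1 : ∀ j l x, J x (c j) (c l) = 0 := fun j l x => lj_zero hJ hc (fun i => lj_step hJ h0 i j l) x
  have h2 : ∀ l x y, J x y (c l) = 0 := by
    intro l x y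
    rw [hJ.s12, neg_eq_zero]
    exact lj_zero hJ hc (fun i => by rw [hJ.s12, h1, neg_zero]) y
  rw [hJ.s23, hJ.s12, neg_neg]
  exact lj_zero hJ hc (fun i => by rw [hJ.s12, hJ.s23, h2, neg_zero, neg_zero]) z

theorem jac_ne [CharZero k] (htr : Algebra.trdeg k K = 3) {X : Mod k K} [Nonempty X.P] {J : K → K → K → K} {κ : Cart X}
    (hJ : Jac X J κ) {a b c : K} (h : AlgebraicIndependent k ![a, b, c]) : J a b c ≠ 0 := by
  intro h0
  have hc : IsTranscendenceBasis k ![a, b, c] := h.isTranscendenceBasis_of_trdeg_le_of_finite (by rw [htr]; simp)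
  obtain ⟨x⟩ := (inferInstance : Nonempty X.P)
  obtain ⟨a', _, b', _, c', _, hu⟩ := hJ.gen x
  have h1 := lj_all hJ hc h0 a' b' c'
  rw [h1, zero_div] at hu
  exact hu.1 rfl

theorem lj [CharZero k] (htr : Algebra.trdeg k K = 3) {X : Mod k K} {J : K → K → K → K} {κ : Cart X} (hJ : Jac X J κ) {ζ : K}
    {s : Option σ → K} {i₁ i₂ j : Option σ} (hj : s j ≠ 0) (hJ0 : J ζ (s i₁ / s j) (s i₂ / s j) ≠ 0) (φ : K →ₐ[k] Ω) {τ : σ → Ω}
    (h : AlgebraicIndependent k (fun o : Option σ => o.elim (φ ζ) τ)) (h0 : lf φ.toRingHom τ s = 0)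
    (h1 : lf φ.toRingHom τ (fun o => J ζ (s o) (s i₁ / s j)) = 0) (h2 : lf φ.toRingHom τ (fun o => J ζ (s o) (s i₂ / s j)) = 0) :
    False := by
  classical
  have hl : ∀ x y u : K, J ζ (x * y) u = x * J ζ y u + y * J ζ x u := by
    intro x y u
    rw [hJ.s12 ζ (x * y) u, hJ.leib, hJ.s12 ζ y u, hJ.s12 ζ x u]
    ring
  have e1 : s i₁ = s j * (s i₁ / s j) := by field_simp
  have e2 : s i₂ = s j * (s i₂ / s j) := by field_simp
  generalize s i₁ / s j = u₁ at *
  generalize s i₂ / s j = u₂ at *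
  refine lr2 htr.le φ h ![s, fun o => J ζ (s o) u₁, fun o => J ζ (s o) u₂] ?_ ?_
  · rw [Fintype.linearIndependent_iff]
    intro g hg
    rw [Fin.sum_univ_three] at hg
    have hg' : ∀ o, g 0 * s o + g 1 * J ζ (s o) u₁ + g 2 * J ζ (s o) u₂ = 0 := fun o => by
      have h3 := congrFun hg o
      simpa using h3
    have a0 := hg' j
    have a1 := hg' i₁
    have a2 := hg' i₂
    rw [e1, hl, hl, lj_xyy hJ] at a1
    rw [e2, hl, hl, lj_xyy hJ, hJ.s23 ζ u₂ u₁] at a2
    have b1 : g 2 * (s j * J ζ u₁ u₂) = 0 := by linear_combination a1 - u₁ * a0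
    have b2 : g 1 * (s j * J ζ u₁ u₂) = 0 := by linear_combination u₂ * a0 - a2
    have hne : s j * J ζ u₁ u₂ ≠ 0 := mul_ne_zero hj hJ0
    have g2 : g 2 = 0 := (mul_eq_zero.1 b1).resolve_right hne
    have g1 : g 1 = 0 := (mul_eq_zero.1 b2).resolve_right hne
    rw [g1, g2, zero_mul, zero_mul, add_zero, add_zero] at a0
    have g0 : g 0 = 0 := (mul_eq_zero.1 a0).resolve_right hj
    intro i
    fin_cases i
    · exact g0
    · exact g1
    · exact g2
  · intro a
    fin_cases a
    · exact h0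
    · exact h1
    · exact h2

end Pool.Agent.H61.AB
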