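import Pool.Agent.H61.AB.GDef

/-!
# [H61 AB Pc] ABUNDANCE (MP_e49dc9_ag), (H4c): restriction of a place; derivations are not zero at transcendental elements

`pl_comap`: a place `w` of `M / F` with a uniformizer in the subfield `K`: the restriction to `K` is a place `v` of `K / k` with the same orders.
PROOF.  `v.R := w.R.comap (algebraMap K M)`; it is a discrete valuation ring: `π₀` is a prime element and every nonzero element `a` is
`π₀ ^ n` times a unit, `n = w.ord a` (`IsDiscreteValuationRing.ofHasUnitMulPowIrreducibleFactorization` or so); the orders agree (both are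
`n` for `π₀ ^ n u`).

`der_ne`: `M / F` of transcendence degree `1`, characteristic `0`, `δ ≠ 0` an `F`-derivation, `y` transcendental over `F`: `δ y ≠ 0`.
PROOF.  Otherwise `δ` is `0` on `F(y)` and `M` is algebraic over `F(y)`, characteristic `0`, so `δ = 0`.
-/

set_option autoImplicit false

namespace Pool.Agent.H61.AB

open Pool.Agent.H54.RV Pool.Agent.H83.TU

variable {k K F M : Type} [Field k] [Field K] [Field F] [Field M] [Algebra k K] [Algebra k F] [Algebra k M] [Algebra K M]
  [Algebra F M] [IsScalarTower k K M] [IsScalarTower k F M]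

theorem pl_comap (k : Type) [Field k] [Algebra k K] [Algebra k F] [Algebra k M] [IsScalarTower k K M] [IsScalarTower k F M]
    (w : Place F M) (π₀ : K) (h : w.ord (algebraMap K M π₀) = 1) :
    ∃ v : Place k K, (∀ a : K, v.ord a = w.ord (algebraMap K M a)) ∧ ∀ a : K, a ∈ v.R ↔ algebraMap K M a ∈ w.R := by
  classical
  have hi : Function.Injective (algebraMap K M) := (algebraMap K M).injective
  have hne : ∀ a : K, a ≠ 0 → algebraMap K M a ≠ 0 := fun a ha h => ha (hi (by rw [h, map_zero]))
  have hπ0 : π₀ ≠ 0 := by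
    rintro rfl
    rw [map_zero] at h
    simp [Place.ord] at h
  let R : ValuationSubring K := w.R.comap (algebraMap K M)
  have hR : ∀ a : K, a ∈ R ↔ algebraMap K M a ∈ w.R := fun a => ValuationSubring.mem_comap
  have hπR : π₀ ∈ R := by
    rw [hR, ← ord_nonneg w _ (hne _ hπ0), h]
    exact zero_le_one
  have hnn : ∀ a : R, a ≠ 0 → 0 ≤ w.ord (algebraMap K M (a : K)) := by
    intro a ha
    have ha' : (a : K) ≠ 0 := fun h1 => ha (Subtype.ext h1)
    rw [ord_nonneg w _ (hne _ ha'), ← hR]
    exact a.2
  have hunit : ∀ a : R, a ≠ 0 → w.ord (algebraMap K M (a : K)) = 0 → IsUnit a := by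
    intro a ha h1
    have ha' : (a : K) ≠ 0 := fun h1 => ha (Subtype.ext h1)
    have h2 : (a : K)⁻¹ ∈ R := by
      rw [hR, ← ord_nonneg w _ (hne _ (inv_ne_zero ha')), map_inv₀, ord_inv, h1]
      exact le_of_eq neg_zero.symm
    exact IsUnit.of_mul_eq_one ⟨(a : K)⁻¹, h2⟩ (Subtype.ext (mul_inv_cancel₀ ha'))
  have hpow : ∀ n : ℕ, w.ord (algebraMap K M (π₀ ^ n)) = n := by
    intro n
    induction n with
    | zero => rw [pow_zero, map_one, ord_one]; rfl
    | succ n ih =>
      rw [pow_succ, map_mul, ord_mul w _ _ (hne _ (pow_ne_zero n hπ0)) (hne _ hπ0), ih, h]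
      push_cast
      ring
  have hdvr : IsDiscreteValuationRing R := by
    refine IsDiscreteValuationRing.ofHasUnitMulPowIrreducibleFactorization
      ⟨⟨π₀, hπR⟩, ⟨?_, ?_⟩, ?_⟩
    · intro hu
      obtain ⟨b, hb⟩ := hu.exists_right_inv
      have hb' : π₀ * (b : K) = 1 := congrArg Subtype.val hb
      have hb0 : b ≠ 0 := by
        rintro rfl
        rw [ZeroMemClass.coe_zero, mul_zero] at hb'
        exact zero_ne_one hb'
      have hb0' : (b : K) ≠ 0 := fun h1 => hb0 (Subtype.ext h1)
      have h2 := congrArg (fun z => w.ord (algebraMap K M z)) hb'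
      beta_reduce at h2
      rw [map_mul, ord_mul w _ _ (hne _ hπ0) (hne _ hb0'), h, map_one, ord_one] at h2
      have h3 := hnn b hb0
      omega
    · intro a b hab
      have hab' : π₀ = (a : K) * (b : K) := congrArg Subtype.val hab
      have ha0 : (a : K) ≠ 0 := by
        intro h1
        rw [h1, zero_mul] at hab'
        exact hπ0 hab'
      have hb0 : (b : K) ≠ 0 := by
        intro h1
        rw [h1, mul_zero] at hab'
        exact hπ0 hab'
      have ha : a ≠ 0 := fun h1 => ha0 (congrArg Subtype.val h1)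
      have hb : b ≠ 0 := fun h1 => hb0 (congrArg Subtype.val h1)
      have h2 := h
      rw [hab', map_mul, ord_mul w _ _ (hne _ ha0) (hne _ hb0)] at h2
      have h3 := hnn a ha
      have h4 := hnn b hb
      rcases (by omega : w.ord (algebraMap K M (a : K)) = 0 ∨ w.ord (algebraMap K M (b : K)) = 0) with h5 | h5
      · exact Or.inl (hunit a ha h5)
      · exact Or.inr (hunit b hb h5)
    · intro x hx
      have hx' : (x : K) ≠ 0 := fun h1 => hx (Subtype.ext h1)
      obtain ⟨n, hn⟩ := Int.eq_ofNat_of_zero_le (hnn x hx)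
      refine ⟨n, ?_⟩
      have h2 : w.ord (algebraMap K M ((x : K) * (π₀ ^ n)⁻¹)) = 0 := by
        rw [map_mul, ord_mul w _ _ (hne _ hx') (hne _ (inv_ne_zero (pow_ne_zero n hπ0))), map_inv₀, ord_inv, hpow, hn]
        exact add_neg_cancel _
      have h3 : (x : K) * (π₀ ^ n)⁻¹ ∈ R := by
        rw [hR, ← ord_nonneg w _ (hne _ (mul_ne_zero hx' (inv_ne_zero (pow_ne_zero n hπ0)))), h2]
      have h4 : IsUnit (⟨(x : K) * (π₀ ^ n)⁻¹, h3⟩ : R) := by
        refine hunit _ ?_ h2
        intro h5
        exact mul_ne_zero hx' (inv_ne_zero (pow_ne_zero n hπ0)) (congrArg Subtype.val h5)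
      refine ⟨h4.unit, Subtype.ext ?_⟩
      change π₀ ^ n * ((x : K) * (π₀ ^ n)⁻¹) = x
      rw [mul_left_comm, mul_inv_cancel₀ (pow_ne_zero n hπ0), mul_one]
  let v : Place k K := ⟨R, fun c => by
    rw [hR, ← IsScalarTower.algebraMap_apply k K M, IsScalarTower.algebraMap_apply k F M]
    exact w.mem _, hdvr⟩
  refine ⟨v, fun a => ?_, hR⟩
  by_cases ha : a = 0
  · rw [ha, map_zero]
    simp [Place.ord]
  · refine (ord_unique v (fun a => w.ord (algebraMap K M a)) ?_ ⟨π₀, hπ0, h⟩ ?_ a ha).symm
    · intro a b ha hb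
      rw [map_mul, ord_mul w _ _ (hne _ ha) (hne _ hb)]
    · intro a ha
      rw [ord_nonneg w _ (hne _ ha)]
      exact (hR a).symm

theorem der_ne [CharZero F] (htr : Algebra.trdeg F M = 1) (δ : Derivation F M M) {x y : M} (hx : δ x ≠ 0) (hy : Transcendental F y) :
    δ y ≠ 0 := by
  intro h0
  let E0 : Subalgebra F M :=
    { carrier := {z | δ z = 0}
      mul_mem' := by
        intro a b ha hb
        change δ (a * b) = 0
        rw [δ.leibniz, show δ a = 0 from ha, show δ b = 0 from hb, smul_zero, smul_zero, add_zero]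
      add_mem' := by
        intro a b ha hb
        change δ (a + b) = 0
        rw [map_add, show δ a = 0 from ha, show δ b = 0 from hb, add_zero]
      algebraMap_mem' := fun r => δ.map_algebraMap r }
  let E : IntermediateField F M := E0.toIntermediateField (by
    intro z hz
    change δ z⁻¹ = 0
    rw [Derivation.leibniz_inv, show δ z = 0 from hz, smul_zero])
  have hE : ∀ z : M, z ∈ E ↔ δ z = 0 := fun z => Iff.rfl
  have hy' : AlgebraicIndependent F (fun _ : Unit => y) := algebraicIndependent_unique_type_iff.2 hy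
  have hb : IsTranscendenceBasis F (fun _ : Unit => y) :=
    hy'.isTranscendenceBasis_of_trdeg_le_of_finite (by rw [htr]; simp)
  have halg : Algebra.IsAlgebraic (IntermediateField.adjoin F (Set.range (fun _ : Unit => y))) M :=
    hb.isAlgebraic_field
  have hle : IntermediateField.adjoin F (Set.range (fun _ : Unit => y)) ≤ E := by
    rw [IntermediateField.adjoin_le_iff]
    rintro _ ⟨_, rfl⟩
    exact h0
  have hint : IsIntegral E x := by
    obtain ⟨P, hP0, hP⟩ := halg.isAlgebraic x
    refine IsAlgebraic.isIntegral ⟨P.map (IntermediateField.inclusion hle).toRingHom, ?_, ?_⟩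
    · rw [Ne, Polynomial.map_eq_zero]
      exact hP0
    · rw [Polynomial.aeval_def, Polynomial.eval₂_map]
      exact hP
  let δE : Derivation E M M :=
    { toFun := δ
      map_add' := map_add δ
      map_smul' := by
        intro c z
        change δ ((c : M) * z) = (c : M) * δ z
        rw [δ.leibniz, show δ (c : M) = 0 from c.2, smul_zero, add_zero, smul_eq_mul]
      map_one_eq_zero' := δ.map_one_eq_zero
      leibniz' := fun a b => δ.leibniz a b }
  have hsep : (minpoly E x).Separable := (minpoly.irreducible hint).separable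
  have h1 := Derivation.map_aeval δE (minpoly E x) x
  rw [minpoly.aeval, map_zero] at h1
  have h2 : Polynomial.aeval x (Polynomial.derivative (minpoly E x)) ≠ 0 :=
    hsep.aeval_derivative_ne_zero (minpoly.aeval E x)
  exact hx ((smul_eq_zero.1 h1.symm).resolve_left h2)

end Pool.Agent.H61.AB
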