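import Pool.Agent.H61.AB.Dx
import Pool.Agent.H61.AB.Pc
import Pool.Agent.H61.AB.Dt
import Pool.Agent.H61.AB.Gs2
import Pool.Agent.H61.AB.Lj

/-!
# [H61 AB Gd] ABUNDANCE (MP_e49dc9_ag), (H4c): the derivation `δ` at the places of the generic curve

`X` a threefold with `Jac X J κ`, `s` sections of `H` without common zeros, `GD` the generic curve, `δ` the derivation of `gd_der`.  At every place `w`
of `M / F` with centre `x` on `X` and every uniformizer `π`: `δ π ≠ 0` and `ord (δ π) + ord (H.eq x / κ.eq x) ≤ 0`.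

`gd_i0`: there is `i₀ : σ` with `s (some i₀) ≠ 0`, `s o / s (some i₀) ∈ w.R` for all `o` and `ord (s (some i₀)) = - ord (H.eq x)`.
PROOF.  `o₀` with `s o₀ * H.eq x` a unit of `X.O x` (`LSys.free`); `s o / s o₀ = (s o * H.eq x) / (s o₀ * H.eq x) ∈ X.O x`.  If `o₀ = none`: by `GD.rel`
`1 + ∑ t i (s (some i) / s none) = 0`, `t i ∈ w.R` (`w.mem`), so some `s (some i) / s none` is a unit at `w`; take this `i`.

`gen_dual`.
CASE 1, some `a₀ ∈ K` with `w.ord a₀ ≠ 0`.  `i₀` from `gd_i0`, `π₀ ∈ K` from `gauss_unif`, `v` from `pl_comap`, `o` from `gauss_z`: `z = s o / s (some i₀)`,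
`U2 v ζ z`.  With `a o' = s o' / s (some i₀)`, `c o' := J ζ (a o') π₀`: `c (some i₀) = J ζ 1 π₀ = 0`,
`J ζ (s o') π₀ = s (some i₀) * c o' + a o' * J ζ (s (some i₀)) π₀` (Leibniz), and `gsec M t a = 0` (`GD.rel`), so
`δ π₀ = s (some i₀) * gsec M t c`.  `x`: `a' b' c' ∈ X.O x` with `J a' b' c' / κ.eq x` a unit (`Jac.gen`), `X.O x ⊆ v.R`; `jac_le`:
`c o = J ζ z π₀ ≠ 0`, `ord (c o) ≤ ord (J a' b' c') = ord (κ.eq x)`.  `gauss_le`: `ord (gsec M t c) ≤ ord (c o)`.  So `δ π₀ ≠ 0`,
`ord (δ π₀) ≤ - ord (H.eq x) + ord (κ.eq x)`.  `π` is transcendental over `F` (`ord_alg`), so `δ π ≠ 0` (`der_ne`), and `δ π₀ / δ π ∈ w.R` (`der_bd`, Dd.lean)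
gives `ord (δ π) ≤ ord (δ π₀)`.
CASE 2, `w.ord = 0` on `K`, so `K ⊆ w.R`, and the second order is `0`.  `J ζ (s i₁ / s j) (s i₂ / s j) ≠ 0` by `jac_ne`.  By `lj` (`Ω = M`,
`φ = IsScalarTower.toAlgHom`, `τ = t`, `GD.ind` and `zz`, injectivity of `F → M`) `δ a ≠ 0` for some `a ∈ K` (`gsec M t c = lf ..` by `rfl`), so `δ π ≠ 0` (`der_ne`).  If
`ord (δ π) > 0` then by `der_bd` `δ u` is in the maximal ideal for `u ∈ w.R`, in particular for `u ∈ K`; in the residue field `Ω` of `w` (`F`-algebra,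
`k`-algebra; `φ : K → Ω`; `τ i` the residues of the `t i`) the forms `s`, `J ζ s u₁`, `J ζ s u₂` vanish at `τ`: contradiction to `lj`.
-/

set_option autoImplicit false

namespace Pool.Agent.H61.AB

open Pool.Agent.H54.RV Pool.Agent.H83.TU Pool.Agent.H83.TK Pool.Agent.H43.WR

variable {k K F M : Type} [Field k] [Field K] [Field F] [Field M] [Algebra k K] [Algebra k F] [Algebra k M] [Algebra K M]
  [Algebra F M] [IsScalarTower k K M] [IsScalarTower k F M] {σ : Type} [Fintype σ]

private theorem gd_or {k' κ' : Type} [Field k'] [Field κ'] [Algebra k' κ'] (w : Place k' κ') {a : κ'} (ha : a ∈ w.R)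
    (h : a = 0 ∨ 0 < w.ord a) : (⟨a, ha⟩ : w.R) ∈ IsLocalRing.maximalIdeal w.R := by
  rw [IsLocalRing.mem_maximalIdeal, mem_nonunits_iff]
  intro hu
  obtain ⟨u, hu⟩ := hu
  have h1 : ((u : w.R) : κ') = a := by rw [hu]
  have h2 : a * ((u⁻¹ : w.Rˣ) : w.R) = 1 := by
    have h3 : ((u : w.R) * ((u⁻¹ : w.Rˣ) : w.R) : w.R) = 1 := u.mul_inv
    have h4 : ((u : w.R) : κ') * ((u⁻¹ : w.Rˣ) : w.R) = 1 := congrArg Subtype.val h3
    rw [h1] at h4
    exact h4
  have ha0 : a ≠ 0 := by
    rintro rfl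
    rw [zero_mul] at h2
    exact zero_ne_one h2
  have h5 : a⁻¹ ∈ w.R := by
    rw [inv_eq_of_mul_eq_one_right h2]
    exact ((u⁻¹ : w.Rˣ) : w.R).2
  have h6 : w.ord a = 0 := (ord_eq_zero w a ha0).2 ⟨ha, h5⟩
  rcases h with h | h
  · exact ha0 h
  · omega

theorem gd_i0 {ζ : K} {ζ' : F} {t : σ → F} {s : Option σ → K} (h : GD k M ζ ζ' t s) {X : Mod k K} {H : Cart X} (hs : LSys X H s)
    (w : Place F M) (x : X.P) (hx : ∀ a ∈ X.O x, algebraMap K M a ∈ w.R) :
    ∃ i₀ : σ, s (some i₀) ≠ 0 ∧ (∀ o, algebraMap K M (s o / s (some i₀)) ∈ w.R) ∧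
      w.ord (algebraMap K M (s (some i₀))) = - w.ord (algebraMap K M (H.eq x)) := by
  obtain ⟨o₀, hne, hm, hi⟩ := hs.free x
  have hH : H.eq x ≠ 0 := H.ne x
  have hs0 : s o₀ ≠ 0 := left_ne_zero_of_mul hne
  have hinj := (algebraMap K M).injective
  have hA : ∀ {a : K}, a ≠ 0 → algebraMap K M a ≠ 0 := fun {a} ha => by
    rw [Ne, map_eq_zero_iff _ hinj]
    exact ha
  have hq : ∀ o, algebraMap K M (s o / s o₀) ∈ w.R := by
    intro o
    apply hx
    have h1 : s o / s o₀ = (s o * H.eq x) * (s o₀ * H.eq x)⁻¹ := by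
      field_simp
    rw [h1]
    exact (X.O x).mul_mem (hs.mem x o) hi
  have hord0 : w.ord (algebraMap K M (s o₀)) = - w.ord (algebraMap K M (H.eq x)) := by
    have h1 : w.ord (algebraMap K M (s o₀ * H.eq x)) = 0 := by
      rw [ord_eq_zero w _ (hA hne)]
      refine ⟨hx _ hm, ?_⟩
      rw [← map_inv₀]
      exact hx _ hi
    rw [map_mul, ord_mul w _ _ (hA hs0) (hA hH)] at h1
    omega
  have key : ∃ i₀ : σ, s (some i₀) ≠ 0 ∧ algebraMap K M (s (some i₀) / s o₀) ∈ w.R ∧
      (algebraMap K M (s (some i₀) / s o₀))⁻¹ ∈ w.R := by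
    rcases o₀ with _ | i₀
    · by_contra hcon
      push Not at hcon
      have hlt : ∀ i, w.R.valuation (algebraMap K M (s (some i) / s none)) < 1 := by
        intro i
        rcases eq_or_ne (s (some i)) 0 with h0 | h0
        · rw [h0, zero_div, map_zero, map_zero]
          exact zero_lt_one
        · have h1 := hcon i h0 (hq (some i))
          rw [← ValuationSubring.valuation_le_one_iff, map_inv₀] at h1
          push Not at h1
          have h2 : w.R.valuation (algebraMap K M (s (some i) / s none)) ≠ 0 := by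
            rw [Valuation.ne_zero_iff]
            exact hA (div_ne_zero h0 hs0)
          exact (one_lt_inv₀ (zero_lt_iff.2 h2)).1 h1
      have hsum : w.R.valuation (∑ i, algebraMap F M (t i) * algebraMap K M (s (some i) / s none)) < 1 := by
        apply Valuation.map_sum_lt _ one_ne_zero
        intro i _
        rw [map_mul]
        have h1 : w.R.valuation (algebraMap F M (t i)) ≤ 1 :=
          (ValuationSubring.valuation_le_one_iff _ _).2 (w.mem (t i))
        exact lt_of_le_of_lt (mul_le_of_le_one_left' h1) (hlt i)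
      have hrel := h.rel
      unfold gsec at hrel
      have h2 : ∑ i, algebraMap F M (t i) * algebraMap K M (s (some i) / s none) = -1 := by
        have h3 : algebraMap K M (s none) *
            (1 + ∑ i, algebraMap F M (t i) * algebraMap K M (s (some i) / s none)) = 0 := by
          rw [mul_add, mul_one, Finset.mul_sum, ← hrel]
          congr 1
          apply Finset.sum_congr rfl
          intro i _
          rw [map_div₀]
          have := hA hs0
          field_simp
        rcases mul_eq_zero.1 h3 with h4 | h4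
        · exact absurd h4 (hA hs0)
        · linear_combination h4
      rw [h2, Valuation.map_neg, map_one] at hsum
      exact lt_irrefl _ hsum
    · refine ⟨i₀, hs0, ?_, ?_⟩
      · rw [div_self hs0, map_one]
        exact w.R.one_mem
      · rw [div_self hs0, map_one, inv_one]
        exact w.R.one_mem
  obtain ⟨i₀, h0, hm1, hm2⟩ := key
  refine ⟨i₀, h0, ?_, ?_⟩
  · intro o
    have h1 : s o / s (some i₀) = (s o / s o₀) * (s (some i₀) / s o₀)⁻¹ := by
      field_simp
    rw [h1, map_mul, map_inv₀]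
    exact w.R.mul_mem _ _ (hq o) hm2
  · have h1 : w.ord (algebraMap K M (s (some i₀) / s o₀)) = 0 :=
      (ord_eq_zero w _ (hA (div_ne_zero h0 hs0))).2 ⟨hm1, hm2⟩
    have h2 : s (some i₀) = (s (some i₀) / s o₀) * s o₀ := by
      field_simp
    rw [h2, map_mul, ord_mul w _ _ (hA (div_ne_zero h0 hs0)) (hA hs0), h1, zero_add, hord0]

private theorem gd_leib {X : Mod k K} {J : K → K → K → K} {κ : Cart X} (hJ : Jac X J κ) (ζ a b c : K) :
    J ζ (a * b) c = a * J ζ b c + b * J ζ a c := by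
  rw [hJ.s12 ζ (a * b) c, hJ.leib, hJ.s12 ζ b c, hJ.s12 ζ a c]
  ring

private theorem gd_one {X : Mod k K} {J : K → K → K → K} {κ : Cart X} (hJ : Jac X J κ) (ζ c : K) :
    J ζ 1 c = 0 := by
  rw [hJ.s12, ← map_one (algebraMap k K), hJ.alg, neg_zero]

omit [Algebra k F] [Algebra k M] [IsScalarTower k K M] [IsScalarTower k F M] in
private theorem gd_sec (t : σ → F) {X : Mod k K} {J : K → K → K → K} {κ : Cart X} (hJ : Jac X J κ) (ζ c a : K)
    (s : Option σ → K) (ha : a ≠ 0) (h0 : gsec M t s = 0) :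
    gsec M t (fun o => J ζ (s o) c) = algebraMap K M a * gsec M t (fun o => J ζ (s o / a) c) := by
  have h1 : ∀ o, J ζ (s o) c = a * J ζ (s o / a) c + s o * (J ζ a c / a) := by
    intro o
    have h2 : s o = a * (s o / a) := by
      field_simp
    have h3 := gd_leib hJ ζ a (s o / a) c
    rw [← h2] at h3
    rw [h3]
    ring
  have h2 : gsec M t (fun o => J ζ (s o) c) = algebraMap K M a * gsec M t (fun o => J ζ (s o / a) c) +
      algebraMap K M (J ζ a c / a) * gsec M t s := by
    unfold gsec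
    simp only [h1, map_add, map_mul]
    rw [mul_add, mul_add, Finset.mul_sum, Finset.mul_sum]
    have h4 : ∀ i, algebraMap F M (t i) * (algebraMap K M a * algebraMap K M (J ζ (s (some i) / a) c) +
        algebraMap K M (s (some i)) * algebraMap K M (J ζ a c / a)) =
        algebraMap K M a * (algebraMap F M (t i) * algebraMap K M (J ζ (s (some i) / a) c)) +
          algebraMap K M (J ζ a c / a) * (algebraMap F M (t i) * algebraMap K M (s (some i))) := by
      intro i
      ring
    simp only [h4, Finset.sum_add_distrib]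
    ring
  rw [h2, h0, mul_zero, add_zero]

omit [Algebra k K] [Algebra k F] [Algebra k M] [IsScalarTower k K M] [IsScalarTower k F M] in
private theorem gd_lf {Ω : Type} [Field Ω] (w : Place F M) (ρ : w.R →+* Ω) (φ : K →+* Ω)
    (hK : ∀ a : K, algebraMap K M a ∈ w.R) (hφ : ∀ a, φ a = ρ ⟨algebraMap K M a, hK a⟩) (t : σ → F)
    (c : Option σ → K) (hc : gsec M t c ∈ w.R) :
    lf φ (fun i => ρ ⟨algebraMap F M (t i), w.mem (t i)⟩) c = ρ ⟨gsec M t c, hc⟩ := by
  unfold lf
  simp only [hφ]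
  simp only [← map_mul, ← map_sum, ← map_add]
  congr 1
  apply Subtype.ext
  unfold gsec
  simp

theorem gen_dual [CharZero k] (htr : Algebra.trdeg k K = 3) (hfg : (⊤ : IntermediateField k K).FG) {X : Mod k K}
    {J : K → K → K → K} {κ : Cart X} (hJ : Jac X J κ) {ζ : K} {ζ' : F} {t : σ → F} {s : Option σ → K} (h : GD k M ζ ζ' t s)
    {H : Cart X} (hs : LSys X H s) (hu : ∃ i₁ i₂ j, s j ≠ 0 ∧ AlgebraicIndependent k ![ζ, s i₁ / s j, s i₂ / s j])
    (htM : Algebra.trdeg F M = 1) (hgM : (⊤ : IntermediateField F M).FG) (δ : Derivation F M M)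
    (hδ : ∀ a : K, δ (algebraMap K M a) = gsec M t (fun o => J ζ (s o) a)) (w : Place F M) (x : X.P)
    (hx : ∀ a ∈ X.O x, algebraMap K M a ∈ w.R) (π : M) (hπ : w.ord π = 1) :
    δ π ≠ 0 ∧ w.ord (δ π) + w.ord (algebraMap K M (H.eq x / κ.eq x)) ≤ 0 := by
  have : CharZero F := charZero_of_injective_algebraMap (algebraMap k F).injective
  obtain ⟨i₀, h0, hR, hord⟩ := gd_i0 h hs w x hx
  have hinj := (algebraMap K M).injective
  have hA : ∀ {a : K}, a ≠ 0 → algebraMap K M a ≠ 0 := fun {a} ha => by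
    rw [Ne, map_eq_zero_iff _ hinj]
    exact ha
  have hπ0 : π ≠ 0 := by
    rintro rfl
    simp [Place.ord] at hπ
  have hπt : Transcendental F π := by
    intro halg
    rw [ord_alg π hπ0 halg w] at hπ
    exact zero_ne_one hπ
  by_cases hcase : ∃ a₀ : K, w.ord (algebraMap K M a₀) ≠ 0
  · obtain ⟨a₀, ha₀⟩ := hcase
    obtain ⟨π₀, hπ₀⟩ := gauss_unif htr h w ha₀ h0 hR
    obtain ⟨v, hv1, hv2⟩ := pl_comap k w π₀ hπ₀
    obtain ⟨o, hz⟩ := gauss_z h w h0 hR
    have hU : U2 v ζ (s o / s (some i₀)) := by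
      intro p hp
      obtain ⟨h1, h2⟩ := hz p hp
      exact ⟨h1, by rw [hv1]; exact h2⟩
    obtain ⟨a', ha', b', hb', c', hc', hne, hm, hi⟩ := hJ.gen x
    have hJne : J a' b' c' ≠ 0 := by
      intro h1
      rw [h1, zero_div] at hne
      exact hne rfl
    have hκ : κ.eq x ≠ 0 := κ.ne x
    have hH : H.eq x ≠ 0 := H.ne x
    obtain ⟨hJ1, hJ2⟩ := jac_le htr hfg hJ v hU (by rw [hv1]; exact hπ₀) ((hv2 _).2 (hx _ ha')) ((hv2 _).2 (hx _ hb'))
      ((hv2 _).2 (hx _ hc')) hJne
    have hc0 : (fun o' => J ζ (s o' / s (some i₀)) π₀) (some i₀) = 0 := by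
      change J ζ (s (some i₀) / s (some i₀)) π₀ = 0
      rw [div_self h0, gd_one hJ]
    obtain ⟨hg1, hg2⟩ := gauss_le htr h w ha₀ h0 hR (fun o' => J ζ (s o' / s (some i₀)) π₀) hc0 o hJ1
    have hδ0 : δ (algebraMap K M π₀) =
        algebraMap K M (s (some i₀)) * gsec M t (fun o' => J ζ (s o' / s (some i₀)) π₀) := by
      rw [hδ]
      exact gd_sec t hJ ζ π₀ (s (some i₀)) s h0 h.rel
    have hδne : δ (algebraMap K M π₀) ≠ 0 := by
      rw [hδ0]
      exact mul_ne_zero (hA h0) hg1
    have hδπ : δ π ≠ 0 := der_ne htM δ hδne hπt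
    refine ⟨hδπ, ?_⟩
    have hπ₀R : algebraMap K M π₀ ∈ w.R := by
      have h1 : algebraMap K M π₀ ≠ 0 := by
        intro h1
        rw [h1, map_zero] at hδne
        exact hδne rfl
      rw [← ord_nonneg w _ h1]
      omega
    have hbd := der_bd htM hgM δ w π hπ hδπ _ hπ₀R
    rw [← ord_nonneg w _ (div_ne_zero hδne hδπ), div_eq_mul_inv, ord_mul w _ _ hδne (inv_ne_zero hδπ), ord_inv] at hbd
    have hκord : w.ord (algebraMap K M (J a' b' c')) = w.ord (algebraMap K M (κ.eq x)) := by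
      have h1 : w.ord (algebraMap K M (J a' b' c' / κ.eq x)) = 0 := by
        rw [ord_eq_zero w _ (hA hne)]
        refine ⟨hx _ hm, ?_⟩
        rw [← map_inv₀]
        exact hx _ hi
      rw [map_div₀, div_eq_mul_inv, ord_mul w _ _ (hA hJne) (inv_ne_zero (hA hκ)), ord_inv] at h1
      omega
    have h3 : w.ord (δ (algebraMap K M π₀)) = - w.ord (algebraMap K M (H.eq x)) +
        w.ord (gsec M t (fun o' => J ζ (s o' / s (some i₀)) π₀)) := by
      rw [hδ0, ord_mul w _ _ (hA h0) hg1, hord]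
    have h4 : w.ord (algebraMap K M (H.eq x / κ.eq x)) =
        w.ord (algebraMap K M (H.eq x)) - w.ord (algebraMap K M (κ.eq x)) := by
      rw [map_div₀, div_eq_mul_inv, ord_mul w _ _ (hA hH) (inv_ne_zero (hA hκ)), ord_inv]
      ring
    rw [hv1, hv1] at hJ2
    have h5 : w.ord (gsec M t (fun o' => J ζ (s o' / s (some i₀)) π₀)) ≤
        w.ord (algebraMap K M (J ζ (s o / s (some i₀)) π₀)) := hg2
    rw [h4]
    omega
  · push Not at hcase
    have hK : ∀ a : K, algebraMap K M a ∈ w.R := by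
      intro a
      rcases eq_or_ne a 0 with h1 | h1
      · rw [h1, map_zero]
        exact w.R.zero_mem
      · rw [← ord_nonneg w _ (hA h1), hcase a]
    obtain ⟨i₁, i₂, j, hj, hai⟩ := hu
    have : Nonempty X.P := ⟨x⟩
    have hJ0 : J ζ (s i₁ / s j) (s i₂ / s j) ≠ 0 := jac_ne htr hJ hai
    rw [hcase, add_zero]
    have hne : ∃ a : K, δ (algebraMap K M a) ≠ 0 := by
      by_contra hcon
      push Not at hcon
      refine lj htr hJ hj hJ0 (IsScalarTower.toAlgHom k K M) (τ := fun i => algebraMap F M (t i)) ?_ h.rel ?_ ?_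
      · have h1 := h.ind.map' (f := IsScalarTower.toAlgHom k F M) (algebraMap F M).injective
        convert h1 using 1
        funext o
        rcases o with _ | i
        · exact h.zz
        · rfl
      · have h1 := hcon (s i₁ / s j)
        rw [hδ] at h1
        exact h1
      · have h1 := hcon (s i₂ / s j)
        rw [hδ] at h1
        exact h1
    obtain ⟨a, ha⟩ := hne
    have hδπ : δ π ≠ 0 := der_ne htM δ ha hπt
    refine ⟨hδπ, ?_⟩
    by_contra hpos
    push Not at hpos
    have hmax : ∀ u ∈ w.R, δ u ∈ w.R ∧ (δ u = 0 ∨ 0 < w.ord (δ u)) := by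
      intro u hu
      have h1 := der_bd htM hgM δ w π hπ hδπ u hu
      rcases eq_or_ne (δ u) 0 with h2 | h2
      · rw [h2]
        exact ⟨w.R.zero_mem, Or.inl rfl⟩
      · rw [← ord_nonneg w _ (div_ne_zero h2 hδπ), div_eq_mul_inv, ord_mul w _ _ h2 (inv_ne_zero hδπ), ord_inv] at h1
        have h3 : 0 < w.ord (δ u) := by omega
        exact ⟨(ord_nonneg w _ h2).1 h3.le, Or.inr h3⟩
    have hkR : ∀ c : k, algebraMap k M c ∈ w.R := by
      intro c
      rw [IsScalarTower.algebraMap_apply k F M]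
      exact w.mem _
    let kR : k →+* w.R := (algebraMap k M).codRestrict w.R.toSubring hkR
    let KR : K →+* w.R := (algebraMap K M).codRestrict w.R.toSubring hK
    let FR : F →+* w.R := (algebraMap F M).codRestrict w.R.toSubring w.mem
    let ρ : w.R →+* IsLocalRing.ResidueField w.R := IsLocalRing.residue w.R
    let : Algebra k (IsLocalRing.ResidueField w.R) := (ρ.comp kR).toAlgebra
    let φ : K →ₐ[k] IsLocalRing.ResidueField w.R :=
      { toRingHom := ρ.comp KR
        commutes' := by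
          intro c
          change ρ (KR (algebraMap k K c)) = ρ (kR c)
          congr 1
          apply Subtype.ext
          exact (IsScalarTower.algebraMap_apply k K M c).symm }
    let ψ : F →ₐ[k] IsLocalRing.ResidueField w.R :=
      { toRingHom := ρ.comp FR
        commutes' := by
          intro c
          change ρ (FR (algebraMap k F c)) = ρ (kR c)
          congr 1
          apply Subtype.ext
          exact (IsScalarTower.algebraMap_apply k F M c).symm }
    have hφ : ∀ a, φ.toRingHom a = ρ ⟨algebraMap K M a, hK a⟩ := fun a => rfl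
    have hz : ∀ u : K, lf φ.toRingHom (fun i => ρ ⟨algebraMap F M (t i), w.mem (t i)⟩)
        (fun o => J ζ (s o) u) = 0 := by
      intro u
      have h1 := hmax (algebraMap K M u) (hK u)
      rw [hδ] at h1
      rw [gd_lf w ρ φ.toRingHom hK hφ t _ h1.1, IsLocalRing.residue_eq_zero_iff]
      exact gd_or w h1.1 h1.2
    refine lj htr hJ hj hJ0 φ (τ := fun i => ρ ⟨algebraMap F M (t i), w.mem (t i)⟩) ?_ ?_ (hz _) (hz _)
    · have h1 := h.ind.map' (f := ψ) ψ.toRingHom.injective
      have h2 : (fun o : Option σ => o.elim (φ ζ) (fun i => ρ ⟨algebraMap F M (t i), w.mem (t i)⟩)) =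
          ψ ∘ (fun o : Option σ => o.elim ζ' t) := by
        funext o
        rcases o with _ | i
        · change ρ ⟨algebraMap K M ζ, hK ζ⟩ = ρ ⟨algebraMap F M ζ', w.mem ζ'⟩
          congr 1
          apply Subtype.ext
          exact h.zz
        · rfl
      rw [h2]
      exact h1
    · have h1 : gsec M t s ∈ w.R := by
        rw [h.rel]
        exact w.R.zero_mem
      rw [gd_lf w ρ φ.toRingHom hK hφ t _ h1, IsLocalRing.residue_eq_zero_iff]
      exact gd_or w h1 (Or.inl h.rel)

end Pool.Agent.H61.AB
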