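import Pool.Agent.H61.AB.GDef

/-!
# [H61 AB Gs1] ABUNDANCE (MP_e49dc9_ag), (H4c): the places of the generic curve are Gauss extensions

`w` a place of `M / F`, not trivial on `K`, `i₀ : σ` such that the quotients `s o / s (some i₀)` are in `w.R`.
`gauss1`: a polynomial in the `t i`, `i ≠ i₀`, with coefficients in `K ∩ w.R`, one of which is a unit, is a unit at `w`.
PROOF.  `κ` the residue field of `w`, an `F`-algebra.  `N := ` the subfield of the residues of the elements of `K ∩ w.R` (`IntermediateField k κ`).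
(1) `trdeg k N ≤ 2`: if `y₁ y₂ y₃ ∈ K ∩ w.R` had residues algebraically independent over `k` then the nonzero polynomials in the `y i` would be units at
`w`, `k(y) ⊆ w.R`; `K` is algebraic over `k(y)` (`trdeg k K = 3`), `w.R` is integrally closed, so `K ⊆ w.R`: contradiction to `ha₀`.
(2) The residues of `ζ` and of the `t i` (`i : σ`, `n = card σ`) are algebraically independent over `k` (`GD.ind`, `F → κ` injective, `GD.zz`), and
`res (t i₀) = -(res (a none) + ∑_(i ≠ i₀) res (t i) res (a (some i)))`, `a o = s o / s (some i₀)` (`GD.rel` divided by `s (some i₀)`).  So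
`N(res (t i), i ≠ i₀)` contains them and has transcendence degree `≥ n + 1` over `k`, so `≥ n - 1` over `N`: the `n - 1` generators are algebraically
independent over `N` (`isTranscendenceBasis_of_le_trdeg_of_finite` or so).
(3) The residue of the polynomial is the value of a nonzero polynomial over `N`.
-/

set_option autoImplicit false

namespace Pool.Agent.H61.AB

open Pool.Agent.H54.RV Pool.Agent.H83.TU Pool.Agent.H83.TK

/-- the count of transcendence degrees -/
private theorem gs1_count {k κ : Type} [Field k] [Field κ] [Algebra k κ] (N : IntermediateField k κ)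
    (h1 : Algebra.trdeg k N ≤ 2) {σ : Type} [Fintype σ] [DecidableEq σ] (e : Option σ → κ) (he : AlgebraicIndependent k e)
    (i₀ : σ) (hz : e none ∈ N) (c : Option σ → κ) (hc : ∀ o, c o ∈ N)
    (hrel : e (some i₀) = -(c none + ∑ i ∈ Finset.univ.erase i₀, e (some i) * c (some i))) :
    AlgebraicIndependent N (fun i : {i : σ // i ≠ i₀} => e (some i.1)) := by
  set g : {i : σ // i ≠ i₀} → κ := fun i => e (some i.1) with hg
  set L : Subalgebra N κ := Algebra.adjoin N (Set.range g) with hL
  have hgL : ∀ i, g i ∈ L := fun i => Algebra.subset_adjoin ⟨i, rfl⟩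
  have hNL : ∀ x : κ, x ∈ N → x ∈ L := fun x hx => L.algebraMap_mem ⟨x, hx⟩
  have heL : ∀ o, e o ∈ L := by
    intro o
    rcases o with _ | i
    · exact hNL _ hz
    · by_cases hi : i = i₀
      · subst hi
        rw [hrel]
        refine neg_mem (add_mem (hNL _ (hc _)) (sum_mem fun j hj => mul_mem (hgL ⟨j, Finset.ne_of_mem_erase hj⟩) (hNL _ (hc _))))
      · exact hgL ⟨i, hi⟩
  -- the family in `L`
  have he' : AlgebraicIndependent k (fun o => (⟨e o, heL o⟩ : L)) := by
    have : (fun o => e o) = (L.val.restrictScalars k) ∘ (fun o => (⟨e o, heL o⟩ : L)) := rfl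
    exact AlgebraicIndependent.of_comp (L.val.restrictScalars k) (by rw [← this]; exact he)
  have hcard := he'.cardinalMk_le_trdeg
  have hfs : FaithfulSMul N L := (faithfulSMul_iff_algebraMap_injective N L).2 (algebraMap N L).injective
  have hadd := trdeg_add_eq k N (A := L)
  -- the generators in `L`
  set g' : {i : σ // i ≠ i₀} → L := fun i => ⟨g i, hgL i⟩ with hg'
  have htop : Algebra.adjoin N (Set.range g') = ⊤ := by
    have h3 := Algebra.adjoin_adjoin_coe_preimage (R := N) (s := Set.range g)
    convert h3 using 2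
    ext x
    constructor
    · rintro ⟨i, rfl⟩
      exact ⟨i, rfl⟩
    · rintro ⟨i, hi⟩
      exact ⟨i, Subtype.ext hi⟩
  have halg : Algebra.IsAlgebraic (Algebra.adjoin N (Set.range g')) L := by
    constructor
    intro x
    have hx : x ∈ Algebra.adjoin N (Set.range g') := by
      rw [htop]
      exact Algebra.mem_top
    exact isAlgebraic_algebraMap (⟨x, hx⟩ : Algebra.adjoin N (Set.range g'))
  have hle : Cardinal.mk {i : σ // i ≠ i₀} ≤ Algebra.trdeg N L := by
    by_contra hcon
    push Not at hcon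
    rw [← hadd] at hcard
    rw [Cardinal.mk_fintype] at hcard hcon
    obtain ⟨m, hm⟩ := Cardinal.lt_aleph0.1 (hcon.trans (Cardinal.natCast_lt_aleph0))
    obtain ⟨m', hm'⟩ := Cardinal.lt_aleph0.1 (h1.trans_lt (Cardinal.ofNat_lt_aleph0))
    rw [hm] at hcon hcard
    rw [hm'] at hcard h1
    rw [Fintype.card_option] at hcard
    have h4 : Fintype.card {i : σ // i ≠ i₀} = Fintype.card σ - 1 := by
      rw [Fintype.card_subtype_compl, Fintype.card_subtype_eq]
    have h5 : 0 < Fintype.card σ := Fintype.card_pos_iff.2 ⟨i₀⟩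
    norm_cast at hcon hcard h1
    omega
  have hb := Algebra.IsAlgebraic.isTranscendenceBasis_of_le_trdeg_of_finite N g' hle
  exact hb.1.map' (f := L.val) Subtype.val_injective

/-- an abstract residue map: the valuation ring `R` of `M` with the residue map `r` -/
private theorem gs1_tr {k K M κ : Type} [Field k] [Field K] [Field M] [Field κ] [Algebra k K] [Algebra K M] [Algebra k κ]
    (htr : Algebra.trdeg k K = 3) (R : ValuationSubring M) (A : Subring K) (hA : ∀ x : K, x ∈ A ↔ algebraMap K M x ∈ R)
    (rA : A →+* κ) (hinv : ∀ x : A, rA x ≠ 0 → (algebraMap K M x)⁻¹ ∈ R)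
    (hk : ∀ c : k, algebraMap k K c ∈ A) (hkr : ∀ c : k, rA ⟨algebraMap k K c, hk c⟩ = algebraMap k κ c)
    (N : IntermediateField k κ) (hN : ∀ x : κ, x ∈ N ↔ ∃ a : A, rA a = x) (hne : ∃ b : K, algebraMap K M b ∉ R) :
    Algebra.trdeg k N ≤ 2 := by
  by_contra hcon
  push Not at hcon
  obtain ⟨S, hS⟩ := exists_isTranscendenceBasis k N
  rw [← hS.cardinalMk_eq_trdeg] at hcon
  have h3 : ((3 : ℕ) : Cardinal) ≤ Cardinal.mk S := by
    have h2 := Order.succ_le_of_lt hcon
    rw [← Nat.cast_ofNat, Cardinal.succ_natCast] at h2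
    refine le_trans (le_of_eq ?_) h2
    norm_cast
  rw [← Cardinal.mk_fin, Cardinal.le_def] at h3
  obtain ⟨j⟩ := h3
  have hind : AlgebraicIndependent k (fun i : Fin 3 => (j i : N)) := hS.1.comp j j.injective
  have hind' : AlgebraicIndependent k (fun i : Fin 3 => ((j i : N) : κ)) :=
    hind.map' (f := N.val) Subtype.val_injective
  choose a ha using fun i : Fin 3 => (hN _).1 (j i : N).2
  -- polynomials
  set kA : k →+* A := (algebraMap k K).codRestrict A hk with hkA
  have e1 : ∀ p : MvPolynomial (Fin 3) k, ((MvPolynomial.eval₂ kA a p : A) : K) = MvPolynomial.aeval (fun i => (a i : K)) p := by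
    intro p
    have := MvPolynomial.eval₂_comp_left A.subtype kA a p
    rw [MvPolynomial.aeval_def]
    exact this
  have e2 : ∀ p : MvPolynomial (Fin 3) k, rA (MvPolynomial.eval₂ kA a p : A) =
      MvPolynomial.aeval (fun i : Fin 3 => ((j i : N) : κ)) p := by
    intro p
    rw [MvPolynomial.eval₂_comp_left rA kA a p, MvPolynomial.aeval_def]
    congr 1
    · ext c
      exact hkr c
    · funext i
      exact ha i
  have hindK : AlgebraicIndependent k (fun i : Fin 3 => (a i : K)) := by
    rw [algebraicIndependent_iff]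
    intro p hp
    rw [algebraicIndependent_iff] at hind'
    refine hind' p ?_
    rw [← e2]
    have : (MvPolynomial.eval₂ kA a p : A) = 0 := Subtype.ext (by rw [e1, hp]; rfl)
    rw [this, map_zero]
  have hbas := hindK.isTranscendenceBasis_of_trdeg_le_of_finite (by rw [htr, Cardinal.mk_fin]; norm_cast)
  obtain ⟨b, hb⟩ := hne
  have halg : IsAlgebraic (Algebra.adjoin k (Set.range fun i : Fin 3 => (a i : K))) b := hbas.isAlgebraic.isAlgebraic b
  obtain ⟨y, hy0, hy⟩ := halg.exists_integral_multiple
  have hmem : ∀ c : Algebra.adjoin k (Set.range fun i : Fin 3 => (a i : K)), ∃ p : MvPolynomial (Fin 3) k,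
      MvPolynomial.aeval (fun i => (a i : K)) p = (c : K) := by
    rintro ⟨c, hc⟩
    rw [Algebra.adjoin_range_eq_range_aeval] at hc
    exact hc
  have hinR : ∀ c : Algebra.adjoin k (Set.range fun i : Fin 3 => (a i : K)), algebraMap K M (c : K) ∈ R := by
    intro c
    obtain ⟨p, hp⟩ := hmem c
    rw [← hA, ← hp, ← e1]
    exact Subtype.mem _
  let φ : Algebra.adjoin k (Set.range fun i : Fin 3 => (a i : K)) →+* R :=
    ((algebraMap K M).comp (algebraMap _ K)).codRestrict R hinR
  have hy2 : IsIntegral R (algebraMap K M (y • b)) := hy.map_of_comp_eq φ (algebraMap K M) rfl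
  obtain ⟨z, hz⟩ := IsIntegrallyClosed.isIntegral_iff.1 hy2
  obtain ⟨p, hp⟩ := hmem y
  have hy3 : (algebraMap K M (y : K))⁻¹ ∈ R := by
    rw [← hp, ← e1]
    apply hinv
    rw [e2]
    intro h0
    have h1 : p = 0 := (algebraicIndependent_iff.1 hind') p h0
    rw [h1, map_zero] at hp
    exact hy0 (Subtype.ext hp.symm)
  have hy4 : algebraMap K M (y : K) ≠ 0 := (map_ne_zero _).2 fun h => hy0 (Subtype.ext h)
  apply hb
  have h5 : algebraMap K M b = (algebraMap K M (y : K))⁻¹ * (algebraMap K M (y • b)) := by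
    rw [Subalgebra.smul_def, smul_eq_mul, map_mul]
    field_simp
  rw [h5]
  refine R.mul_mem _ _ hy3 ?_
  rw [← hz]
  exact z.2

variable {k K F M : Type} [Field k] [Field K] [Field F] [Field M] [Algebra k K] [Algebra k F] [Algebra k M] [Algebra K M]
  [Algebra F M] [IsScalarTower k K M] [IsScalarTower k F M] {σ : Type} [Fintype σ]

theorem gauss1 (htr : Algebra.trdeg k K = 3) {ζ : K} {ζ' : F} {t : σ → F} {s : Option σ → K} (h : GD k M ζ ζ' t s)
    (w : Place F M) {a₀ : K} (ha₀ : w.ord (algebraMap K M a₀) ≠ 0) {i₀ : σ} (h0 : s (some i₀) ≠ 0)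
    (hs : ∀ o, algebraMap K M (s o / s (some i₀)) ∈ w.R) (p : MvPolynomial {i : σ // i ≠ i₀} K)
    (hp : ∀ m, algebraMap K M (p.coeff m) ∈ w.R) (hu : ∃ m, p.coeff m ≠ 0 ∧ w.ord (algebraMap K M (p.coeff m)) = 0) :
    MvPolynomial.aeval (fun i : {i : σ // i ≠ i₀} => algebraMap F M (t i.1)) p ≠ 0 ∧
      w.ord (MvPolynomial.aeval (fun i : {i : σ // i ≠ i₀} => algebraMap F M (t i.1)) p) = 0 := by
  classical
  -- the residue field
  let κ := IsLocalRing.ResidueField w.R
  let r : w.R →+* κ := IsLocalRing.residue w.R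
  have hr0 : ∀ x : w.R, r x ≠ 0 ↔ IsUnit x := fun x => by
    rw [Ne, IsLocalRing.residue_eq_zero_iff, IsLocalRing.mem_maximalIdeal, mem_nonunits_iff, not_not]
  have hru : ∀ x : w.R, r x ≠ 0 → (x : M) ≠ 0 ∧ (x : M)⁻¹ ∈ w.R := by
    intro x hx
    have hx0 : (x : M) ≠ 0 := by
      intro h0
      apply hx
      have : x = 0 := Subtype.ext h0
      rw [this, map_zero]
    obtain ⟨u, hu'⟩ := (hr0 x).1 hx
    refine ⟨hx0, ?_⟩
    have h1 : (x : M) * ((u⁻¹ : (w.R)ˣ) : w.R) = 1 := by
      rw [← hu']
      exact congrArg Subtype.val (u.mul_inv)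
    rw [inv_eq_of_mul_eq_one_right h1]
    exact Subtype.mem _
  let rF : F →+* κ := r.comp ((algebraMap F M).codRestrict w.R w.mem)
  let algκ : Algebra k κ := (rF.comp (algebraMap k F)).toAlgebra
  let A : Subring K := w.R.toSubring.comap (algebraMap K M)
  have hA : ∀ x : K, x ∈ A ↔ algebraMap K M x ∈ w.R := fun x => Iff.rfl
  let iA : A →+* w.R := ((algebraMap K M).comp A.subtype).codRestrict w.R (fun x => x.2)
  let rA : A →+* κ := r.comp iA
  have hinv : ∀ x : A, rA x ≠ 0 → (algebraMap K M x)⁻¹ ∈ w.R := fun x hx => (hru _ hx).2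
  have hk : ∀ c : k, algebraMap k K c ∈ A := by
    intro c
    rw [hA, ← IsScalarTower.algebraMap_apply k K M, IsScalarTower.algebraMap_apply k F M]
    exact w.mem _
  have hkr : ∀ c : k, rA ⟨algebraMap k K c, hk c⟩ = algebraMap k κ c := by
    intro c
    change r _ = r _
    congr 1
    apply Subtype.ext
    change algebraMap K M (algebraMap k K c) = algebraMap F M (algebraMap k F c)
    rw [← IsScalarTower.algebraMap_apply k K M, ← IsScalarTower.algebraMap_apply k F M]
  -- the subfield `N`
  let N : IntermediateField k κ :=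
    { carrier := {x | ∃ a : A, rA a = x}
      mul_mem' := by
        rintro _ _ ⟨a, rfl⟩ ⟨b, rfl⟩
        exact ⟨a * b, map_mul _ _ _⟩
      add_mem' := by
        rintro _ _ ⟨a, rfl⟩ ⟨b, rfl⟩
        exact ⟨a + b, map_add _ _ _⟩
      algebraMap_mem' := fun c => ⟨_, hkr c⟩
      inv_mem' := by
        rintro _ ⟨a, rfl⟩
        by_cases h0 : rA a = 0
        · exact ⟨0, by rw [h0, inv_zero, map_zero]⟩
        · have ha : (a : K)⁻¹ ∈ A := by
            rw [hA, map_inv₀]
            exact hinv a h0
          refine ⟨⟨(a : K)⁻¹, ha⟩, ?_⟩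
          apply eq_inv_of_mul_eq_one_left
          rw [← map_mul]
          have h1 : (⟨(a : K)⁻¹, ha⟩ : A) * a = 1 := by
            apply Subtype.ext
            change (a : K)⁻¹ * (a : K) = 1
            apply inv_mul_cancel₀
            intro h2
            apply h0
            have : a = 0 := Subtype.ext h2
            rw [this, map_zero]
          rw [h1, map_one] }
  have hN : ∀ x : κ, x ∈ N ↔ ∃ a : A, rA a = x := fun x => Iff.rfl
  have hne : ∃ b : K, algebraMap K M b ∉ w.R := by
    by_contra hcon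
    push Not at hcon
    apply ha₀
    by_cases h0 : algebraMap K M a₀ = 0
    · rw [h0]
      unfold Place.ord
      rw [map_zero, inv_zero, WithZero.log_zero]
    · rw [ord_eq_zero w _ h0]
      refine ⟨hcon _, ?_⟩
      rw [← map_inv₀]
      exact hcon _
  have htrN := gs1_tr htr w.R A hA rA hinv hk hkr N hN hne
  -- the independent residues
  let eF : F →ₐ[k] κ := { rF with commutes' := fun c => rfl }
  have heF : Function.Injective eF := rF.injective
  have hind : AlgebraicIndependent k (fun o : Option σ => eF (o.elim ζ' t)) := h.ind.map' (f := eF) heF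
  -- the quotients
  let c : Option σ → A := fun o => ⟨s o / s (some i₀), hs o⟩
  have hc0 : rA (c (some i₀)) = 1 := by
    have : c (some i₀) = 1 := Subtype.ext (div_self h0)
    rw [this, map_one]
  have hrelM : algebraMap F M (t i₀) = -(algebraMap K M (c none) +
      ∑ i ∈ Finset.univ.erase i₀, algebraMap F M (t i) * algebraMap K M (c (some i))) := by
    have h1 := h.rel
    unfold gsec at h1
    have h0' : algebraMap K M (s (some i₀)) ≠ 0 := (map_ne_zero _).2 h0
    have h2 : algebraMap K M (c none) + ∑ i, algebraMap F M (t i) * algebraMap K M (c (some i)) = 0 := by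
      have h3 : ∀ o, algebraMap K M (c o) = algebraMap K M (s o) * (algebraMap K M (s (some i₀)))⁻¹ := by
        intro o
        change algebraMap K M (s o / s (some i₀)) = _
        rw [div_eq_mul_inv, map_mul, map_inv₀]
      calc _ = (algebraMap K M (s none) + ∑ i, algebraMap F M (t i) * algebraMap K M (s (some i))) *
            (algebraMap K M (s (some i₀)))⁻¹ := by
            rw [add_mul, Finset.sum_mul, h3]
            congr 1
            refine Finset.sum_congr rfl fun i _ => ?_
            rw [h3, mul_assoc]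
        _ = 0 := by rw [h1, zero_mul]
    rw [← Finset.add_sum_erase _ _ (Finset.mem_univ i₀)] at h2
    have h4 : algebraMap K M ((c (some i₀) : A) : K) = 1 := by
      change algebraMap K M (s (some i₀) / s (some i₀)) = 1
      rw [div_self h0, map_one]
    rw [h4, mul_one] at h2
    linear_combination h2
  have hrelκ : eF (t i₀) = -(rA (c none) + ∑ i ∈ Finset.univ.erase i₀, eF (t i) * rA (c (some i))) := by
    have h1 : ((algebraMap F M).codRestrict w.R w.mem) (t i₀) = -(iA (c none) +
        ∑ i ∈ Finset.univ.erase i₀, ((algebraMap F M).codRestrict w.R w.mem) (t i) * iA (c (some i))) := by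
      apply Subtype.ext
      have h0 : ∀ x : w.R, (x : M) = w.R.subtype x := fun _ => rfl
      rw [h0, h0, map_neg, map_add, map_sum]
      simp only [map_mul]
      exact hrelM
    have h2 := congrArg r h1
    rw [map_neg, map_add, map_sum] at h2
    simp only [map_mul] at h2
    exact h2
  have hζ : ζ ∈ A := by
    rw [hA, h.zz]
    exact w.mem _
  have hζ' : rA ⟨ζ, hζ⟩ = eF ζ' := by
    change r _ = r _
    congr 1
    exact Subtype.ext h.zz
  have hindN := gs1_count N htrN (fun o : Option σ => eF (o.elim ζ' t)) hind i₀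
    ⟨⟨ζ, hζ⟩, hζ'⟩ (fun o => rA (c o)) (fun o => ⟨_, rfl⟩) hrelκ
  -- the polynomial
  obtain ⟨q, hq⟩ : ∃ q : MvPolynomial {i : σ // i ≠ i₀} A, MvPolynomial.map A.subtype q = p := by
    have h1 := (MvPolynomial.mem_range_map_iff_coeffs_subset (f := A.subtype) (x := p)).mpr ?_
    · exact h1
    · intro x hx
      obtain ⟨m, -, rfl⟩ := MvPolynomial.mem_coeffs_iff.1 hx
      exact ⟨⟨p.coeff m, hp m⟩, rfl⟩
  let gA : A →+* N := rA.codRestrict N (fun x => ⟨x, rfl⟩)
  have hcq : ∀ m, ((q.coeff m : A) : K) = p.coeff m := by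
    intro m
    rw [← hq, MvPolynomial.coeff_map]
    rfl
  have hq0 : MvPolynomial.map gA q ≠ 0 := by
    obtain ⟨m, hm0, hm⟩ := hu
    intro h1
    have h2 : gA (q.coeff m) = 0 := by
      rw [← MvPolynomial.coeff_map, h1, MvPolynomial.coeff_zero]
    have h3 : rA (q.coeff m) = 0 := congrArg Subtype.val h2
    have h4 : algebraMap K M (p.coeff m) ≠ 0 := (map_ne_zero _).2 hm0
    obtain ⟨h5, h6⟩ := (ord_eq_zero w _ h4).1 hm
    have h7 : IsUnit (iA (q.coeff m)) := by
      refine IsUnit.of_mul_eq_one ⟨_, h6⟩ ?_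
      apply Subtype.ext
      change algebraMap K M ((q.coeff m : A) : K) * (algebraMap K M (p.coeff m))⁻¹ = 1
      rw [hcq, mul_inv_cancel₀ h4]
    exact (hr0 _).2 h7 h3
  have hval := mt ((algebraicIndependent_iff.1 hindN) (MvPolynomial.map gA q)) hq0
  let P : w.R := MvPolynomial.eval₂ iA (fun i : {i : σ // i ≠ i₀} => ((algebraMap F M).codRestrict w.R w.mem) (t i.1)) q
  have hP1 : (P : M) = MvPolynomial.aeval (fun i : {i : σ // i ≠ i₀} => algebraMap F M (t i.1)) p := by
    change w.R.subtype P = _
    rw [MvPolynomial.eval₂_comp_left, ← hq, MvPolynomial.aeval_def, MvPolynomial.eval₂_map]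
    rfl
  have hP2 : r P = MvPolynomial.aeval (fun i : {i : σ // i ≠ i₀} => eF (t i.1)) (MvPolynomial.map gA q) := by
    rw [MvPolynomial.eval₂_comp_left, MvPolynomial.aeval_def, MvPolynomial.eval₂_map]
    rfl
  have hP3 : r P ≠ 0 := by
    rw [hP2]
    exact hval
  obtain ⟨h8, h9⟩ := hru P hP3
  rw [← hP1]
  exact ⟨h8, (ord_eq_zero w _ h8).2 ⟨P.2, h9⟩⟩

end Pool.Agent.H61.AB
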