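import Pool.Agent.H61.AB.Def

/-!
# [H61 AB Qu] ABUNDANCE (MP_e49dc9_ag), (H4): the codimension of an order condition

`quo`: `V' ≤ V` subspaces of `κ`, `g * c ∈ w.R` for `g ∈ V`, and `V'` contains the `g ∈ V` with `ord (g * c) ≥ n`: `dim V / V' ≤ n deg w`.
PROOF.  Induction on `n` (for all `V`, `V'`).  `n = 0`: `V ≤ V'` (`ord_nonneg`).  Step `n + 1`: `π` with `ord π = 1` (`ord_unif`), `V'' := {g ∈ V | g = 0 ∨ n ≤ ord (g * c)} + V'` or directly: `V₁ := {g ∈ V | g * c / π ^ n ∈ w.R}`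
(a subspace), `dim V / V₁ ≤ n deg w` (induction); the map `V₁ → w.R / 𝔪`, `g ↦` the class of `g * c / π ^ n`, is `F`-linear (`plAlg`), its kernel is in `V' ⊓ V₁`; the residue field has dimension `deg w > 0`
(so it is finite: `Module.finite_of_finrank_pos`).  `dim V / V' ≤ dim V / V₁ + dim (V₁ + V') / V'`, finite.  (One can also prove: a linear map `V → w.R / 𝔪 ^ n` and `dim w.R / 𝔪 ^ n = n deg w`.)
-/

set_option autoImplicit false

open scoped IntermediateField

namespace Pool.Agent.H61.AB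

open Pool.Agent.H54.RV Pool.Agent.H83.TU

variable {F κ : Type} [Field F] [Field κ] [Algebra F κ]

private theorem qu_map (V V' : Submodule F κ) {W : Type} [AddCommGroup W] [Module F W]
    [Module.Finite F W] (φ : V →ₗ[F] W) (h : ∀ g : V, φ g = 0 → (g : κ) ∈ V') :
    Module.Finite F (V ⧸ V'.submoduleOf V) ∧
      Module.finrank F (V ⧸ V'.submoduleOf V) ≤ Module.finrank F W := by
  have hle : LinearMap.ker φ ≤ V'.submoduleOf V := fun g hg => h g hg
  have h1 : Module.Finite F (V ⧸ LinearMap.ker φ) :=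
    Module.Finite.equiv φ.quotKerEquivRange.symm
  have h2 : Module.finrank F (V ⧸ LinearMap.ker φ) ≤ Module.finrank F W := by
    rw [φ.quotKerEquivRange.finrank_eq]
    exact Submodule.finrank_le _
  have h3 : Function.Surjective (Submodule.factor hle) := Submodule.factor_surjective hle
  exact ⟨Module.Finite.of_surjective _ h3, (LinearMap.finrank_le_finrank_of_surjective h3).trans h2⟩

private theorem qu_res (w : Place F κ) (x : w.R) (hx : (x : κ) ≠ 0)
    (h : IsLocalRing.residue w.R x = 0) : 1 ≤ w.ord (x : κ) := by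
  have h0 : 0 ≤ w.ord (x : κ) := (ord_nonneg w _ hx).2 x.2
  by_contra hcon
  have h1 : w.ord (x : κ) = 0 := by omega
  obtain ⟨h2, h3⟩ := (ord_eq_zero w _ hx).1 h1
  have h4 : IsUnit x := by
    refine IsUnit.of_mul_eq_one ⟨(x : κ)⁻¹, h3⟩ ?_
    apply Subtype.ext
    change (x : κ) * (x : κ)⁻¹ = 1
    exact mul_inv_cancel₀ hx
  exact (h4.map (IsLocalRing.residue w.R)).ne_zero h

private theorem qu_ex (w : Place F κ) (V : Submodule F κ) (c : κ) (hc : c ≠ 0)
    (hV : ∀ g ∈ V, g * c ∈ w.R) (n : ℕ) :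
    ∃ φ : V →ₗ[F] (Fin n → IsLocalRing.ResidueField w.R),
      ∀ g : V, φ g = 0 → ((g : κ) = 0 ∨ (n : ℤ) ≤ w.ord ((g : κ) * c)) := by
  classical
  induction n with
  | zero =>
    refine ⟨0, fun g _ => ?_⟩
    by_cases hg : (g : κ) = 0
    · exact Or.inl hg
    · right
      exact_mod_cast (ord_nonneg w _ (mul_ne_zero hg hc)).2 (hV g g.2)
  | succ n ih =>
    obtain ⟨φ, hφ⟩ := ih
    obtain ⟨π, hπ0, hπ⟩ := ord_unif w
    have hpow : ∀ m : ℕ, w.ord (π ^ m) = m := by
      intro m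
      induction m with
      | zero => simp [ord_one]
      | succ m ih =>
        rw [pow_succ, ord_mul w _ _ (pow_ne_zero m hπ0) hπ0, ih, hπ]
        push_cast
        ring
    have hπn : (π ^ n)⁻¹ ≠ 0 := inv_ne_zero (pow_ne_zero n hπ0)
    have hord : ∀ g : κ, g ≠ 0 → w.ord (g * (c * (π ^ n)⁻¹)) = w.ord (g * c) - n := by
      intro g hg
      rw [← mul_assoc, ord_mul w _ _ (mul_ne_zero hg hc) hπn, ord_inv, hpow]
      ring
    have hmem : ∀ g : LinearMap.ker φ, ((g : V) : κ) * (c * (π ^ n)⁻¹) ∈ w.R := by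
      intro g
      by_cases hg : ((g : V) : κ) = 0
      · rw [hg, zero_mul]
        exact w.R.zero_mem
      · rw [← ord_nonneg w _ (mul_ne_zero hg (mul_ne_zero hc hπn)), hord _ hg]
        rcases hφ g g.2 with h | h
        · exact absurd h hg
        · omega
    obtain ⟨χ, hχ⟩ : ∃ χ : LinearMap.ker φ →ₗ[F] w.R,
        ∀ g, ((χ g : w.R) : κ) = ((g : V) : κ) * (c * (π ^ n)⁻¹) := by
      refine ⟨{ toFun := fun g => ⟨_, hmem g⟩, map_add' := ?_, map_smul' := ?_ }, fun g => rfl⟩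
      · intro a b
        apply Subtype.ext
        change ((a + b : LinearMap.ker φ) : V) * (c * (π ^ n)⁻¹) = _
        exact add_mul _ _ _
      · intro a b
        apply Subtype.ext
        have h1 : (((a • b : LinearMap.ker φ) : V) : κ) = algebraMap F κ a * ((b : V) : κ) := by
          rw [← Algebra.smul_def]
          rfl
        change ((a • b : LinearMap.ker φ) : V) * (c * (π ^ n)⁻¹) = _
        rw [h1, RingHom.id_apply, Algebra.smul_def, mul_assoc]
        rfl
    obtain ⟨ψ, hψ⟩ := LinearMap.exists_extend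
      ((IsScalarTower.toAlgHom F w.R (IsLocalRing.ResidueField w.R)).toLinearMap.comp χ)
    refine ⟨LinearMap.pi (Fin.cases ψ fun i => (LinearMap.proj i).comp φ), fun g hg => ?_⟩
    have hg0 : ψ g = 0 := congrFun hg 0
    have hgφ : φ g = 0 := by
      funext i
      exact congrFun hg i.succ
    by_cases hgz : (g : κ) = 0
    · exact Or.inl hgz
    · right
      have h1 : IsLocalRing.residue w.R (χ ⟨g, hgφ⟩) = 0 := by
        have h2 := LinearMap.congr_fun hψ ⟨g, hgφ⟩
        change ψ g = IsLocalRing.residue w.R (χ ⟨g, hgφ⟩) at h2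
        rw [← h2, hg0]
      have h3 : ((χ ⟨g, hgφ⟩ : w.R) : κ) ≠ 0 := by
        rw [hχ]
        exact mul_ne_zero hgz (mul_ne_zero hc hπn)
      have h4 := qu_res w _ h3 h1
      rw [hχ] at h4
      change 1 ≤ w.ord ((g : κ) * (c * (π ^ n)⁻¹)) at h4
      rw [hord _ hgz] at h4
      push_cast
      omega

theorem quo (w : Place F κ) (hd : 0 < deg w) (V V' : Submodule F κ) (hVV' : V' ≤ V) (c : κ) (hc : c ≠ 0)
    (hV : ∀ g ∈ V, g * c ∈ w.R) (n : ℕ) (hV' : ∀ g ∈ V, (g = 0 ∨ (n : ℤ) ≤ w.ord (g * c)) → g ∈ V') :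
    Module.Finite F (V ⧸ V'.submoduleOf V) ∧ Module.finrank F (V ⧸ V'.submoduleOf V) ≤ n * deg w := by
  have hfin : Module.Finite F (IsLocalRing.ResidueField w.R) := Module.finite_of_finrank_pos hd
  obtain ⟨φ, hφ⟩ := qu_ex w V c hc hV n
  obtain ⟨h1, h2⟩ := qu_map V V' φ fun g hg => hV' g g.2 (hφ g hg)
  refine ⟨h1, h2.trans (le_of_eq ?_)⟩
  rw [Module.finrank_pi_fintype]
  simp [deg]

end Pool.Agent.H61.AB
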