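import Pool.Agent.H61.AB.Dd

/-!
# [H61 AB Ram] ABUNDANCE (MP_e49dc9_ag), (H4): the order of the derivative of a function

`ram`: `m` irreducible with `e = ord (m(x)) > 0`: `ord (δ x) = ord (δ π) + e - 1`.
PROOF.  `x ∈ w.R`: if `ord x < 0` then `ord (m(x)) = deg(m) ord x < 0`.  `m' = derivative m` is prime to `m` (irreducible, characteristic `0`: `Irreducible.separable`): `a m + b m' = 1`, so `b(x) m'(x) = 1 - a(x) m(x)` has order `0`
(`a(x) m(x)` in the maximal ideal), so `ord m'(x) = 0`.  `m(x) = π ^ e u` with `u := m(x) / π ^ e` of order `0`.  `δ (m(x)) = m'(x) δ x` (`Derivation.leibniz`, `Polynomial.aeval`: `Derivation.map_aeval` or by induction) and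
`δ (π ^ e u) = e π ^ (e - 1) u δ π + π ^ e δ u`; by `der_bd` the second term has order `≥ e + ord (δ π)`, the first one has order `e - 1 + ord (δ π)` exactly (`e ≠ 0` in `F`).  So the sum has that order and is not `0`.
-/

set_option autoImplicit false

open scoped IntermediateField

namespace Pool.Agent.H61.AB

open Pool.Agent.H54.RV Pool.Agent.H83.TU

variable {F κ : Type} [Field F] [Field κ] [Algebra F κ]

private theorem r_val (p : Place F κ) : ∃ v : Valuation κ (WithZero (Multiplicative ℤ)),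
    ∀ a, p.ord a = - WithZero.log (v a) := by
  have := p.dvr
  refine ⟨(IsDiscreteValuationRing.maximalIdeal p.R).valuation κ, fun a => ?_⟩
  rw [← WithZero.log_inv]
  rfl

private theorem r_zero (p : Place F κ) : p.ord 0 = 0 := by
  obtain ⟨v, hv⟩ := r_val p
  rw [hv, map_zero, WithZero.log_zero, neg_zero]

private theorem r_pow (p : Place F κ) (a : κ) (ha : a ≠ 0) (n : ℕ) :
    p.ord (a ^ n) = n * p.ord a := by
  induction n with
  | zero => simp [ord_one]
  | succ n ih =>
    rw [pow_succ, ord_mul p _ _ (pow_ne_zero n ha) ha, ih]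
    push_cast
    ring

private theorem r_aev (p : Place F κ) (x : κ) (hx : x ∈ p.R) (q : Polynomial F) :
    Polynomial.aeval x q ∈ p.R := by
  induction q using Polynomial.induction_on' with
  | add a b ha hb =>
    rw [map_add]
    exact p.R.add_mem _ _ ha hb
  | monomial n c =>
    rw [Polynomial.aeval_monomial]
    exact p.R.mul_mem _ _ (p.mem c) (pow_mem hx n)

private theorem r_add (p : Place F κ) (a b : κ) (ha : a ≠ 0) (hb : b = 0 ∨ p.ord a < p.ord b) :
    a + b ≠ 0 ∧ p.ord (a + b) = p.ord a := by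
  rcases hb with hb | hb
  · subst hb
    rw [add_zero]
    exact ⟨ha, rfl⟩
  · by_cases hb0 : b = 0
    · subst hb0
      rw [add_zero]
      exact ⟨ha, rfl⟩
    obtain ⟨v, hv⟩ := r_val p
    have h1 : v b < v a := by
      rw [hv, hv, neg_lt_neg_iff, WithZero.log_lt_log (v.ne_zero_iff.2 hb0) (v.ne_zero_iff.2 ha)] at hb
      exact hb
    have h2 : v (a + b) = v a := v.map_add_eq_of_lt_left h1
    refine ⟨?_, by rw [hv, hv, h2]⟩
    rw [← v.ne_zero_iff, h2, v.ne_zero_iff]
    exact ha

private theorem r_mem (p : Place F κ) (x : κ) (m : Polynomial F) (hm : Irreducible m)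
    (h0 : Polynomial.aeval x m ∈ p.R) : x ∈ p.R := by
  have hm0 : m ≠ 0 := hm.ne_zero
  let φ : F →+* p.R :=
    { toFun := fun x => ⟨algebraMap F κ x, p.mem x⟩
      map_one' := Subtype.ext (map_one _)
      map_mul' := fun _ _ => Subtype.ext (map_mul _ _ _)
      map_zero' := Subtype.ext (map_zero _)
      map_add' := fun _ _ => Subtype.ext (map_add _ _ _) }
  have hP : (m * Polynomial.C m.leadingCoeff⁻¹).Monic := Polynomial.monic_mul_leadingCoeff_inv hm0
  have hb : Polynomial.aeval x (m * Polynomial.C m.leadingCoeff⁻¹) ∈ p.R := by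
    rw [map_mul, Polynomial.aeval_C]
    exact p.R.mul_mem _ _ h0 (p.mem _)
  have hdeg : 0 < (m * Polynomial.C m.leadingCoeff⁻¹).degree := by
    rw [Polynomial.degree_mul_leadingCoeff_inv m hm0]
    exact Polynomial.degree_pos_of_irreducible hm
  have h1 : IsIntegral p.R x := by
    refine ⟨(m * Polynomial.C m.leadingCoeff⁻¹).map φ - Polynomial.C ⟨_, hb⟩, ?_, ?_⟩
    · refine Polynomial.Monic.sub_of_left (hP.map φ) ?_
      rw [hP.degree_map]
      exact lt_of_le_of_lt Polynomial.degree_C_le hdeg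
    · rw [Polynomial.eval₂_sub, Polynomial.eval₂_map, Polynomial.eval₂_C]
      exact sub_self _
  obtain ⟨y, hy⟩ := IsIntegrallyClosed.isIntegral_iff.1 h1
  rw [← hy]
  exact y.2

theorem ram [CharZero F] (htr : Algebra.trdeg F κ = 1) (hfg : (⊤ : IntermediateField F κ).FG)
    (δ : Derivation F κ κ) (w : Place F κ) (π : κ) (hπ : w.ord π = 1) (hδ : δ π ≠ 0) (x : κ)
    (m : Polynomial F) (hm : Irreducible m) (h0 : 0 < w.ord (Polynomial.aeval x m)) :
    δ x ≠ 0 ∧ w.ord (δ x) = w.ord (δ π) + w.ord (Polynomial.aeval x m) - 1 := by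
  have : CharZero κ := charZero_of_injective_algebraMap (algebraMap F κ).injective
  have hmx : Polynomial.aeval x m ≠ 0 := by
    intro h
    rw [h, r_zero] at h0
    exact lt_irrefl _ h0
  have hπ0 : π ≠ 0 := by
    intro h
    rw [h, r_zero] at hπ
    exact zero_ne_one hπ
  have hxR : x ∈ w.R := r_mem w x m hm ((ord_nonneg w _ hmx).1 h0.le)
  obtain ⟨a, b, hab⟩ := (hm.separable : m.Separable)
  have hab1 : Polynomial.aeval x b * Polynomial.aeval x (Polynomial.derivative m) =
      1 + -(Polynomial.aeval x a * Polynomial.aeval x m) := by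
    have := congrArg (Polynomial.aeval x) hab
    rw [map_add, map_mul, map_mul, map_one] at this
    linear_combination this
  have h1 : Polynomial.aeval x b * Polynomial.aeval x (Polynomial.derivative m) ≠ 0 ∧
      w.ord (Polynomial.aeval x b * Polynomial.aeval x (Polynomial.derivative m)) = 0 := by
    rw [hab1]
    have h2 := r_add w 1 (-(Polynomial.aeval x a * Polynomial.aeval x m)) one_ne_zero (by
      by_cases ha : Polynomial.aeval x a = 0
      · left
        rw [ha, zero_mul, neg_zero]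
      · right
        have h3 : w.ord (-(Polynomial.aeval x a * Polynomial.aeval x m)) =
            w.ord (-1 : κ) + (w.ord (Polynomial.aeval x a) + w.ord (Polynomial.aeval x m)) := by
          rw [← ord_mul w _ _ ha hmx, ← ord_mul w _ _ (neg_ne_zero.2 one_ne_zero) (mul_ne_zero ha hmx),
            neg_one_mul]
        have h4 : w.ord (-1 : κ) = 0 :=
          (ord_eq_zero w _ (neg_ne_zero.2 one_ne_zero)).2
            ⟨w.R.neg_mem _ w.R.one_mem, by
              rw [inv_neg_one]
              exact w.R.neg_mem _ w.R.one_mem⟩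
        have h5 := (ord_nonneg w _ ha).2 (r_aev w x hxR a)
        rw [h3, h4, ord_one]
        omega)
    rw [ord_one] at h2
    exact h2
  have hm'0 : Polynomial.aeval x (Polynomial.derivative m) ≠ 0 := right_ne_zero_of_mul h1.1
  have hb0 : Polynomial.aeval x b ≠ 0 := left_ne_zero_of_mul h1.1
  have hm'o : w.ord (Polynomial.aeval x (Polynomial.derivative m)) = 0 := by
    have h2 := h1.2
    rw [ord_mul w _ _ hb0 hm'0] at h2
    have h3 := (ord_nonneg w _ hm'0).2 (r_aev w x hxR _)
    have h4 := (ord_nonneg w _ hb0).2 (r_aev w x hxR _)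
    omega
  obtain ⟨n, hn⟩ := Int.eq_ofNat_of_zero_le h0.le
  have hn1 : 1 ≤ n := by omega
  have hπn : π ^ n ≠ 0 := pow_ne_zero n hπ0
  obtain ⟨u, hu⟩ : ∃ u : κ, u = Polynomial.aeval x m * (π ^ n)⁻¹ := ⟨_, rfl⟩
  have hu0 : u ≠ 0 := by
    rw [hu]
    exact mul_ne_zero hmx (inv_ne_zero hπn)
  have huo : w.ord u = 0 := by
    rw [hu, ord_mul w _ _ hmx (inv_ne_zero hπn), ord_inv, r_pow w π hπ0, hπ, hn]
    ring
  have huR : u ∈ w.R := (ord_nonneg w u hu0).1 huo.ge
  have hmu : Polynomial.aeval x m = u * π ^ n := by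
    rw [hu, mul_assoc, inv_mul_cancel₀ hπn, mul_one]
  have hder : Polynomial.aeval x (Polynomial.derivative m) * δ x =
      u * (n * (π ^ (n - 1) * δ π)) + π ^ n * δ u := by
    have h2 : δ (Polynomial.aeval x m) = Polynomial.aeval x (Polynomial.derivative m) • δ x :=
      Derivation.map_aeval δ m x
    rw [hmu, Derivation.leibniz, Derivation.leibniz_pow] at h2
    simp only [smul_eq_mul, nsmul_eq_mul] at h2
    exact h2.symm
  have hn0 : (n : κ) ≠ 0 := by
    rw [Nat.cast_ne_zero]
    omega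
  have hno : w.ord (n : κ) = 0 := by
    have h2 : (n : κ) = algebraMap F κ n := (map_natCast (algebraMap F κ) n).symm
    exact ord_alg (n : κ) hn0 (by
      rw [h2]
      exact isAlgebraic_algebraMap _) w
  have hA0 : u * (n * (π ^ (n - 1) * δ π)) ≠ 0 :=
    mul_ne_zero hu0 (mul_ne_zero hn0 (mul_ne_zero (pow_ne_zero _ hπ0) hδ))
  have hAo : w.ord (u * (n * (π ^ (n - 1) * δ π))) = (n : ℤ) - 1 + w.ord (δ π) := by
    rw [ord_mul w _ _ hu0 (mul_ne_zero hn0 (mul_ne_zero (pow_ne_zero _ hπ0) hδ)),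
      ord_mul w _ _ hn0 (mul_ne_zero (pow_ne_zero _ hπ0) hδ),
      ord_mul w _ _ (pow_ne_zero _ hπ0) hδ, r_pow w π hπ0, hπ, huo, hno]
    rw [Nat.cast_sub hn1]
    push_cast
    ring
  have hsum := r_add w _ (π ^ n * δ u) hA0 (by
    by_cases hdu : δ u = 0
    · left
      rw [hdu, mul_zero]
    · right
      have h3 := (ord_nonneg w _ (div_ne_zero hdu hδ)).2
        (der_bd htr hfg δ w π hπ hδ u huR)
      rw [div_eq_mul_inv, ord_mul w _ _ hdu (inv_ne_zero hδ), ord_inv] at h3
      rw [hAo, ord_mul w _ _ hπn hdu, r_pow w π hπ0, hπ]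
      omega)
  rw [← hder, hAo] at hsum
  have hx0 : δ x ≠ 0 := right_ne_zero_of_mul hsum.1
  refine ⟨hx0, ?_⟩
  have h6 := hsum.2
  rw [ord_mul w _ _ hm'0 hx0, hm'o] at h6
  rw [hn]
  omega

end Pool.Agent.H61.AB
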