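import Pool.Agent.H61.AB.Def

/-!
# [H61 AB TrF] ABUNDANCE (MP_e49dc9_ag), (H4): the trace and the tame different

`tr_fin`: `x` transcendental over `F`.  If `y ∈ κ` has order `≥ -(e - 1)` at all places `w` with `x ∈ w.R`, `e = ord (m(x))`, `m` the irreducible polynomial with `e > 0`, then the trace of `y` over `F(x)` is a polynomial in `x`.
PROOF.  `A = Algebra.adjoin F {x}` (a principal ideal domain, `a3_pid`), `K₀ = F⟮x⟯` (`open scoped IntermediateField.algebraAdjoinAdjoin`), `B = BB F x` (Dedekind, fraction field `κ`, `pf_ded`, finite over `A`), `κ / K₀` separable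
(characteristic `0`).  Mathlib, `Mathlib/RingTheory/DedekindDomain/Different.lean`: `pow_sub_one_dvd_differentIdeal` (`P ^ (e - 1) ∣ differentIdeal A B` if `P ^ e ∣ p B`), or its proof variant `pow_sub_one_dvd_differentIdeal_aux` with the fields
`K₀`, `κ`.  Let `I` be the fractional ideal `(differentIdeal A B)⁻¹ = dual A K₀ 1` (`coeIdeal_differentIdeal`).  `y ∈ I`: check at all height one primes `P` of `B` (`y` times an element; or: `y · differentIdeal ⊆ B` because for
`d ∈ differentIdeal` the element `y d` has order `≥ 0` at all `P`: `ord_P d ≥ e - 1`, and an element of `κ` with order `≥ 0` at all `P` is in `B`: H54/RV/A2 or `HeightOneSpectrum.mem_integers_of_valuation_le_one`).  The place `plP F P`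
contains `x`, and `P ∩ A = (m(x))` for an irreducible `m` (`A` is a PID isomorphic to `F[T]`), `e` = the order of `m(x)` at `P`.  So `y ∈ dual A K₀ 1`, `Algebra.trace K₀ κ (y * 1) ∈ A` (`mem_dual`, `trace_mem_dual_one`), and an element of
`A` is a polynomial in `x` (`Algebra.adjoin_singleton_eq_range_aeval`).
-/

set_option autoImplicit false

open scoped IntermediateField

namespace Pool.Agent.H61.AB

open Pool.Agent.H54.RV Pool.Agent.H83.TU IsDedekindDomain

private theorem trf_gen (A K₀ κ B : Type) [CommRing A] [IsDedekindDomain A] [Field K₀]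
    [Field κ] [CommRing B] [IsDedekindDomain B] [Algebra A K₀] [IsFractionRing A K₀] [Algebra B κ]
    [IsFractionRing B κ] [Algebra A B] [Algebra K₀ κ] [Algebra A κ] [IsScalarTower A B κ]
    [IsScalarTower A K₀ κ] [FiniteDimensional K₀ κ] [Algebra.IsSeparable K₀ κ]
    [IsIntegralClosure B A κ] [Module.Finite A B] [Module.IsTorsionFree A B] (y : κ)
    (hy : ∀ P : HeightOneSpectrum B, ∃ p : Ideal A, p.IsMaximal ∧ p ≠ ⊥ ∧ ∃ e : ℕ, e ≠ 0 ∧
      P.asIdeal ^ e ∣ p.map (algebraMap A B) ∧
      P.valuation κ y ≤ WithZero.exp ((e : ℤ) - 1)) :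
    Algebra.trace K₀ κ y ∈ (algebraMap A K₀).range := by
  have h1 : y ∈ FractionalIdeal.dual A K₀ (1 : FractionalIdeal (nonZeroDivisors B) κ) := by
    have hD := coeIdeal_differentIdeal A K₀ κ B
    have hne : FractionalIdeal.dual A K₀ (1 : FractionalIdeal (nonZeroDivisors B) κ) ≠ 0 :=
      FractionalIdeal.dual_ne_zero A K₀ one_ne_zero
    have hD2 : FractionalIdeal.dual A K₀ (1 : FractionalIdeal (nonZeroDivisors B) κ) =
        (↑(differentIdeal A B) : FractionalIdeal (nonZeroDivisors B) κ)⁻¹ := by
      rw [hD, inv_inv]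
    have hDne : (↑(differentIdeal A B) : FractionalIdeal (nonZeroDivisors B) κ) ≠ 0 := by
      rw [hD]
      exact inv_ne_zero hne
    rw [hD2, FractionalIdeal.mem_inv_iff hDne]
    intro z hz
    obtain ⟨d, hd, rfl⟩ := (FractionalIdeal.mem_coeIdeal _).1 hz
    rw [FractionalIdeal.mem_one_iff]
    have h2 := HeightOneSpectrum.mem_integers_of_valuation_le_one κ (y * algebraMap B κ d) (R := B) ?_
    · obtain ⟨b, hb⟩ := h2
      exact ⟨b, hb⟩
    intro P
    obtain ⟨p, hpm, hp0, e, he, hPe, hv⟩ := hy P
    have h3 := pow_sub_one_dvd_differentIdeal_aux A K₀ κ P.asIdeal he hp0 hPe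
    have h4 : d ∈ P.asIdeal ^ (e - 1) := Ideal.le_of_dvd h3 hd
    have h5 := (P.intValuation_le_pow_iff_mem d (e - 1)).2 h4
    rw [map_mul, HeightOneSpectrum.valuation_of_algebraMap]
    calc P.valuation κ y * P.intValuation d ≤ WithZero.exp ((e : ℤ) - 1) *
          WithZero.exp (-(((e - 1 : ℕ) : ℤ))) := mul_le_mul' hv h5
      _ = 1 := by
        rw [← WithZero.exp_add, ← WithZero.exp_zero]
        congr 1
        omega
  have hone : (1 : FractionalIdeal (nonZeroDivisors B) κ) ≠ 0 := one_ne_zero
  rw [FractionalIdeal.mem_dual hone] at h1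
  have h2 := h1 1 (FractionalIdeal.one_mem_one _)
  rwa [Algebra.traceForm_apply, mul_one] at h2

private theorem trf_surj {F κ : Type} [Field F] [Field κ] [Algebra F κ] (f : κ) : Function.Surjective
    (Polynomial.aeval (⟨f, Algebra.self_mem_adjoin_singleton F f⟩ : Algebra.adjoin F {f}) :
      Polynomial F →ₐ[F] Algebra.adjoin F {f}) := by
  rintro ⟨a, ha⟩
  rw [Algebra.adjoin_singleton_eq_range_aeval] at ha
  obtain ⟨p, hp⟩ := ha
  refine ⟨p, Subtype.ext ?_⟩
  rw [Polynomial.aeval_subalgebra_coe]
  exact hp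

variable {F κ : Type} [Field F] [Field κ] [Algebra F κ]

open scoped IntermediateField.algebraAdjoinAdjoin in
theorem tr_fin [CharZero F] (htr : Algebra.trdeg F κ = 1) (hfg : (⊤ : IntermediateField F κ).FG) {x : κ}
    (hx : Transcendental F x) (y : κ) (hy : ∀ w : Place F κ, x ∈ w.R → ∀ m : Polynomial F, Irreducible m →
      0 < w.ord (Polynomial.aeval x m) → y ≠ 0 → 1 - w.ord (Polynomial.aeval x m) ≤ w.ord y) :
    RX F x (tr F x y) := by
  obtain ⟨hD, hFr⟩ := pf_ded htr hfg x hx
  have h1 := a3_fin htr hfg x hx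
  have h2 := a3_pid x hx
  have h3 : IsDedekindDomain (Algebra.adjoin F {x}) := inferInstance
  have h4 : CharZero F⟮x⟯ := charZero_of_injective_algebraMap (algebraMap F F⟮x⟯).injective
  have h5 : Algebra.IsSeparable F⟮x⟯ κ := inferInstance
  have h6 : Module.Finite (Algebra.adjoin F {x}) (BB F x) :=
    IsIntegralClosure.finite (Algebra.adjoin F {x}) F⟮x⟯ κ (BB F x)
  set X : Algebra.adjoin F {x} := ⟨x, Algebra.self_mem_adjoin_singleton F x⟩ with hX
  have hinj : Function.Injective (Polynomial.aeval X : Polynomial F →ₐ[F] Algebra.adjoin F {x}) := by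
    intro a b hab
    apply transcendental_iff_injective.1 hx
    have h7 := congrArg (fun z : Algebra.adjoin F {x} => (z : κ)) hab
    simp only [Polynomial.aeval_subalgebra_coe] at h7
    exact h7
  have hsur := trf_surj (F := F) x
  have hinjA : Function.Injective (algebraMap (Algebra.adjoin F {x}) (BB F x)) := by
    intro a b hab
    exact Subtype.ext (congrArg (fun z : BB F x => (z : κ)) hab)
  have key := trf_gen (Algebra.adjoin F {x}) F⟮x⟯ κ (BB F x) y ?_
  · obtain ⟨a, ha⟩ := key
    obtain ⟨p, hp⟩ := hsur a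
    refine ⟨p, ?_⟩
    unfold tr
    rw [← ha, ← hp]
    show ((Polynomial.aeval X p : Algebra.adjoin F {x}) : κ) = _
    rw [Polynomial.aeval_subalgebra_coe]
  · intro P
    have hPm : P.asIdeal.IsMaximal := P.isMaximal
    have hmax : (P.asIdeal.under (Algebra.adjoin F {x})).IsMaximal :=
      Ideal.IsMaximal.under (Algebra.adjoin F {x}) P.asIdeal
    have hbot : P.asIdeal.under (Algebra.adjoin F {x}) ≠ ⊥ :=
      Ideal.under_ne_bot (Algebra.adjoin F {x}) P.ne_bot
    refine ⟨P.asIdeal.under (Algebra.adjoin F {x}), hmax, hbot, ?_⟩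
    obtain ⟨a, ha⟩ := (IsPrincipalIdealRing.principal (P.asIdeal.under (Algebra.adjoin F {x}))).principal
    rw [Ideal.submodule_span_eq] at ha
    have ha0 : a ≠ 0 := by
      rintro rfl
      rw [Ideal.span_singleton_eq_bot.2 rfl] at ha
      exact hbot ha
    have hapr : Prime a := by
      rw [← Ideal.span_singleton_prime ha0, ← ha]
      exact hmax.isPrime
    obtain ⟨m, hm⟩ := hsur a
    have hmi : Irreducible m := by
      have h7 : Prime m := by
        rw [← MulEquiv.prime_iff (AlgEquiv.ofBijective (Polynomial.aeval X) ⟨hinj, hsur⟩)]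
        show Prime (Polynomial.aeval X m)
        rw [hm]
        exact hapr
      exact h7.irreducible
    have hav : (a : κ) = Polynomial.aeval x m := by
      rw [← hm, Polynomial.aeval_subalgebra_coe]
    set b : BB F x := algebraMap (Algebra.adjoin F {x}) (BB F x) a with hb
    have hbv : algebraMap (BB F x) κ b = Polynomial.aeval x m := hav
    have hb0 : b ≠ 0 := by
      intro h7
      apply ha0
      apply hinjA
      rw [← hb, h7, map_zero]
    have hbP : b ∈ P.asIdeal := by
      have h7 : a ∈ P.asIdeal.under (Algebra.adjoin F {x}) := by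
        rw [ha]
        exact Ideal.mem_span_singleton_self a
      exact h7
    have hpos := (plP_pos (k := F) (κ := κ) P b hb0).2 hbP
    rw [hbv] at hpos
    have hm0 : Polynomial.aeval x m ≠ 0 := by
      intro h7
      rw [← hbv] at h7
      exact hb0 ((IsFractionRing.injective (BB F x) κ) (by rw [h7, map_zero]))
    have hxR : x ∈ (plP F (κ := κ) P).R := by
      rw [plP_R, Valuation.mem_valuationSubring_iff]
      exact P.valuation_le_one (algebraMap (Algebra.adjoin F {x}) (BB F x) X)
    obtain ⟨e, he⟩ := Int.eq_ofNat_of_zero_le hpos.le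
    have hve : P.valuation κ (Polynomial.aeval x m) = WithZero.exp (-(e : ℤ)) := by
      have h7 := plP_ord (k := F) P _ hm0
      rw [he, WithZero.log_inv] at h7
      have h8 : P.valuation κ (Polynomial.aeval x m) ≠ 0 := (Valuation.ne_zero_iff _).mpr hm0
      rw [← WithZero.exp_log h8]
      congr 1
      omega
    refine ⟨e, ?_, ?_, ?_⟩
    · rintro rfl
      rw [he] at hpos
      exact lt_irrefl _ hpos
    · rw [ha, Ideal.map_span, Set.image_singleton, Ideal.dvd_span_singleton,
        ← P.intValuation_le_pow_iff_mem, ← HeightOneSpectrum.valuation_of_algebraMap (K := κ)]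
      exact (congrArg (P.valuation κ) hbv).le.trans hve.le
    · by_cases hy0 : y = 0
      · rw [hy0, map_zero]
        exact zero_le
      have h7 := hy (plP F P) hxR m hmi hpos hy0
      rw [he, plP_ord P y hy0, WithZero.log_inv] at h7
      have h8 : P.valuation κ y ≠ 0 := (Valuation.ne_zero_iff _).mpr hy0
      rw [← WithZero.exp_log h8, WithZero.exp_le_exp]
      omega

end Pool.Agent.H61.AB
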