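import Pool.Agent.H61.AB.Ram
import Pool.Agent.H61.AB.TrF

/-!
# [H61 AB TrG] ABUNDANCE (MP_e49dc9_ag), (H4): the trace of a section of `α`, finite places

`tr_fg`: PROOF.  `tr_fin` for `y = g / δ x`: for `w` with `x ∈ w.R`, `m`, `e = ord (m(x))`, a uniformizer `π` of `w`: `ord y = ord g - ord (δ x) = ord g - ord (δ π) - e + 1` (`ram`), `ord g ≥ - ord (α w)` (`hg`) and
`ord (δ π) + ord (α w) ≤ 0` (`hδ`): `ord y ≥ 1 - e`.
`tr_add`, `tr_pmul`: additivity of the trace; `tr (p(x) y) = p(x) tr y` (`p(x) ∈ F⟮x⟯`, linearity over `F⟮x⟯`).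
-/

set_option autoImplicit false

open scoped IntermediateField

namespace Pool.Agent.H61.AB

open Pool.Agent.H54.RV Pool.Agent.H83.TU

variable {F κ : Type} [Field F] [Field κ] [Algebra F κ]

theorem tr_add (x y z : κ) : tr F x (y + z) = tr F x y + tr F x z := by
  unfold tr
  rw [map_add, map_add]

theorem tr_pmul (x : κ) (p : Polynomial F) (y : κ) :
    tr F x (Polynomial.aeval x p * y) = Polynomial.aeval x p * tr F x y := by
  unfold tr
  obtain ⟨c, hc⟩ : ∃ c : F⟮x⟯, algebraMap F⟮x⟯ κ c = Polynomial.aeval x p := by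
    refine ⟨Polynomial.aeval (IntermediateField.AdjoinSimple.gen F x) p, ?_⟩
    rw [← Polynomial.aeval_algebraMap_apply, IntermediateField.AdjoinSimple.algebraMap_gen]
  rw [← hc, ← Algebra.smul_def, map_smul, smul_eq_mul, map_mul]

theorem tr_fg [CharZero F] (htr : Algebra.trdeg F κ = 1) (hfg : (⊤ : IntermediateField F κ).FG) {x : κ}
    (hx : Transcendental F x) (δ : Derivation F κ κ) {α : Place F κ → κ} (hα : Dv α) (hδ : Dual δ α) (g : κ)
    (hg : ∀ w : Place F κ, x ∈ w.R → g * α w ∈ w.R) : RX F x (tr F x (g / δ x)) := by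
  refine tr_fin htr hfg hx (g / δ x) fun w hw m hm h0 hne => ?_
  obtain ⟨π, -, hπ⟩ := ord_unif w
  obtain ⟨h1, h2⟩ := hδ w π hπ
  obtain ⟨h3, h4⟩ := ram htr hfg δ w π hπ h1 x m hm h0
  have hg0 : g ≠ 0 := by
    rintro rfl
    exact hne (zero_div _)
  have h5 := (ord_nonneg w (g * α w) (mul_ne_zero hg0 (hα.ne w))).2 (hg w hw)
  rw [ord_mul w g (α w) hg0 (hα.ne w)] at h5
  rw [div_eq_mul_inv, ord_mul w g _ hg0 (inv_ne_zero h3), ord_inv, h4]
  linarith

end Pool.Agent.H61.AB
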