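import Pool.Agent.H61.AB.Def

/-!
# [H61 AB Xch] ABUNDANCE (MP_e49dc9_ag), (H4): the choice of the variable `x`, and functions with a given order at one place

`xch`: `S` a finite set of places: there is `x` transcendental over `F` which is regular at the places of `S`.
PROOF.  Let `y` be transcendental (`trdeg = 1`).  `x := (y - c)⁻¹`, `c ∈ F`: for `w ∈ S` with `ord y < 0` it is in `w.R`; for `w ∈ S` with `y ∈ w.R` at most one `c` has `ord (y - c) > 0` (the difference of two constants is a unit); `F` is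
infinite (`CharZero`), so some `c` has `ord (y - c) ≤ 0` for all `w ∈ S`.
`ex_g`: PROOF.  `g₀ := (ε w₁)⁻¹`; at the finitely many places `w ≠ w₁` with `x ∈ w.R` and `g₀ * ε w ∉ w.R` (`hε.fin`, `fin_ordD`) choose `b_w ∈ BB F x` with `ord b_w > 0` at `w` and `ord b_w = 0` at `w₁` (the primes `𝔪_w ∩ B ≠ 𝔪_(w₁) ∩ B`: the places with
`x ∈ w.R` are the `plP F P`, `P` a height one prime of `B = BB F x` (H54/RV/A2, A4: `place_le`, as in `zerosD`); two different maximal ideals: `b ∈ P_w`, `b ∉ P_(w₁)`).  `g := g₀ ∏ b_w ^ N`, `N` large; the elements of `BB F x` are in `w.R` for all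
`w` with `x ∈ w.R` (integrally closed).
`bb_mem`: the last remark.
-/

set_option autoImplicit false

open scoped IntermediateField

namespace Pool.Agent.H61.AB

open Pool.Agent.H54.RV Pool.Agent.H83.TU

variable {F κ : Type} [Field F] [Field κ] [Algebra F κ]

private theorem xch_sub (w : Place F κ) {a b : κ} {d : F} (hd : d ≠ 0)
    (h : a - b = algebraMap F κ d) (ha : a ≠ 0) (hb : b ≠ 0) (h1 : 0 < w.ord a)
    (h2 : 0 < w.ord b) : False := by
  have key : ∀ a b : κ, ∀ d : F, d ≠ 0 → a - b = algebraMap F κ d → a ≠ 0 → b ≠ 0 → 0 < w.ord a →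
      b * a⁻¹ ∈ w.R → False := by
    intro a b d hd h ha hb h1 h3
    have hd' : algebraMap F κ d ≠ 0 := fun h0 => hd ((algebraMap F κ).injective (by rw [h0, map_zero]))
    have e : a⁻¹ = algebraMap F κ d⁻¹ * (1 - b * a⁻¹) := by
      rw [map_inv₀, ← h]
      rw [← h] at hd'
      field_simp
    have h4 : a⁻¹ ∈ w.R := by
      rw [e]
      exact w.R.mul_mem _ _ (w.mem _) (w.R.sub_mem w.R.one_mem h3)
    have h5 := (ord_nonneg w a⁻¹ (inv_ne_zero ha)).2 h4
    rw [ord_inv] at h5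
    omega
  rcases w.R.mem_or_inv_mem (b * a⁻¹) with h3 | h3
  · exact key a b d hd h ha hb h1 h3
  · refine key b a (-d) (neg_ne_zero.2 hd) ?_ hb ha h2 ?_
    · rw [map_neg, ← h]
      ring
    · rw [mul_inv, inv_inv, mul_comm] at h3
      exact h3

theorem xch [CharZero F] (htr : Algebra.trdeg F κ = 1) (hfg : (⊤ : IntermediateField F κ).FG)
    (S : Set (Place F κ)) (hS : S.Finite) : ∃ x : κ, Transcendental F x ∧ ∀ w ∈ S, x ∈ w.R := by
  have h0 : Algebra.Transcendental F κ := by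
    rw [← trdeg_ne_zero_iff, htr]
    exact one_ne_zero
  obtain ⟨y, hy⟩ := h0
  have hyc : ∀ c : F, ¬ IsAlgebraic F (y - algebraMap F κ c) := by
    intro c hc
    apply hy
    have h1 := hc.add (isAlgebraic_algebraMap (R := F) (A := κ) c)
    rwa [sub_add_cancel] at h1
  have hyn : ∀ c : F, y - algebraMap F κ c ≠ 0 := by
    intro c hc
    apply hyc c
    rw [hc]
    exact isAlgebraic_zero
  have hbad : ∀ w : Place F κ, {c : F | 0 < w.ord (y - algebraMap F κ c)}.Subsingleton := by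
    intro w c hc c' hc'
    by_contra hne
    exact xch_sub w (a := y - algebraMap F κ c) (b := y - algebraMap F κ c') (d := c' - c)
      (sub_ne_zero.2 (Ne.symm hne)) (by rw [map_sub]; ring) (hyn c) (hyn c') hc hc'
  have hfin : (⋃ w ∈ S, {c : F | 0 < w.ord (y - algebraMap F κ c)}).Finite :=
    hS.biUnion fun w _ => (hbad w).finite
  obtain ⟨c, hc⟩ := hfin.exists_notMem
  refine ⟨(y - algebraMap F κ c)⁻¹, ?_, fun w hw => ?_⟩
  · intro h
    have h1 := h.inv
    rw [inv_inv] at h1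
    exact hyc c h1
  · rw [← ord_nonneg w _ (inv_ne_zero (hyn c)), ord_inv]
    have h1 : ¬ 0 < w.ord (y - algebraMap F κ c) := fun h => hc (Set.mem_biUnion hw h)
    omega

theorem bb_mem {x b : κ} (hb : b ∈ BB F x) (w : Place F κ) (hw : x ∈ w.R) : b ∈ w.R := by
  have hadj : ∀ a ∈ Algebra.adjoin F {x}, a ∈ w.R := by
    intro a ha
    induction ha using Algebra.adjoin_induction with
    | mem z hz =>
      rw [Set.mem_singleton_iff] at hz
      rw [hz]
      exact hw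
    | algebraMap r => exact w.mem r
    | add x y _ _ hx hy => exact w.R.add_mem _ _ hx hy
    | mul x y _ _ hx hy => exact w.R.mul_mem _ _ hx hy
  have hb' : IsIntegral (Algebra.adjoin F {x}) b := hb
  obtain ⟨P, hP, hP0⟩ := hb'
  let φ : Algebra.adjoin F {x} →+* w.R :=
    { toFun := fun z => ⟨z.1, hadj z.1 z.2⟩
      map_one' := rfl
      map_mul' := fun _ _ => rfl
      map_zero' := rfl
      map_add' := fun _ _ => rfl }
  have h1 : IsIntegral w.R b := by
    refine ⟨P.map φ, hP.map φ, ?_⟩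
    rw [Polynomial.eval₂_map]
    exact hP0
  obtain ⟨y, hy⟩ := IsIntegrallyClosed.isIntegral_iff.1 h1
  rw [← hy]
  exact y.2

private theorem xch_b [CharZero F] (htr : Algebra.trdeg F κ = 1)
    (hfg : (⊤ : IntermediateField F κ).FG) {x : κ} (hx : Transcendental F x) (w₁ w : Place F κ)
    (hw₁ : x ∈ w₁.R) (hw : x ∈ w.R) (hne : w ≠ w₁) (n : ℕ) :
    ∃ b : κ, b ∈ BB F x ∧ b ≠ 0 ∧ w₁.ord b = 0 ∧ (n : ℤ) ≤ w.ord b := by
  obtain ⟨hD, hFr⟩ := pf_ded htr hfg x hx
  obtain ⟨P, hP⟩ := plP_surj (B := BB F x) w (fun b => bb_mem b.2 w hw)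
  obtain ⟨P₁, hP₁⟩ := plP_surj (B := BB F x) w₁ (fun b => bb_mem b.2 w₁ hw₁)
  have h1 : ¬ P.asIdeal ≤ P₁.asIdeal := by
    intro h
    apply hne
    rw [← hP, ← hP₁]
    congr 1
    exact IsDedekindDomain.HeightOneSpectrum.ext (P.isMaximal.eq_of_le P₁.isPrime.ne_top h)
  obtain ⟨b, hb, hb₁⟩ := SetLike.not_le_iff_exists.1 h1
  have hb0 : b ≠ 0 := by
    rintro rfl
    exact hb₁ P₁.asIdeal.zero_mem
  have hbκ : (b : κ) ≠ 0 := fun h => hb0 (Subtype.ext h)
  have h2 : 0 < w.ord (b : κ) := by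
    rw [← hP]
    exact (plP_pos (k := F) (κ := κ) P b hb0).2 hb
  have h3 : w₁.ord (b : κ) = 0 := by
    have h4 : ¬ 0 < w₁.ord (b : κ) := by
      rw [← hP₁]
      exact fun h => hb₁ ((plP_pos (k := F) (κ := κ) P₁ b hb0).1 h)
    have h5 := (ord_nonneg w₁ (b : κ) hbκ).2 (bb_mem b.2 w₁ hw₁)
    omega
  refine ⟨(b : κ) ^ n, ((b ^ n : BB F x)).2, pow_ne_zero _ hbκ, ?_, ?_⟩
  · induction n with
    | zero => rw [pow_zero, ord_one]
    | succ n ih => rw [pow_succ, ord_mul _ _ _ (pow_ne_zero _ hbκ) hbκ, ih, h3, add_zero]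
  · induction n with
    | zero =>
      rw [pow_zero, ord_one]
      rfl
    | succ n ih =>
      rw [pow_succ, ord_mul _ _ _ (pow_ne_zero _ hbκ) hbκ]
      push_cast
      omega

theorem ex_g [CharZero F] (htr : Algebra.trdeg F κ = 1) (hfg : (⊤ : IntermediateField F κ).FG) {x : κ}
    (hx : Transcendental F x) (w₁ : Place F κ) (hw₁ : x ∈ w₁.R) {ε : Place F κ → κ} (hε : Dv ε) :
    ∃ g : κ, g ≠ 0 ∧ w₁.ord (g * ε w₁) = 0 ∧ ∀ w : Place F κ, x ∈ w.R → g * ε w ∈ w.R := by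
  classical
  have hg0 : (ε w₁)⁻¹ ≠ 0 := inv_ne_zero (hε.ne w₁)
  obtain ⟨Bad, hBad⟩ : ∃ Bad : Set (Place F κ),
      Bad = {w | x ∈ w.R ∧ (ε w₁)⁻¹ * ε w ∉ w.R} := ⟨_, rfl⟩
  have hfin : Bad.Finite := by
    refine ((fin_ordD htr hfg (ε w₁)⁻¹ hg0).union hε.fin).subset ?_
    intro w hw
    rw [hBad] at hw
    by_contra hcon
    rw [Set.mem_union, not_or] at hcon
    obtain ⟨h1, h2⟩ := hcon
    simp only [Set.mem_ofPred_eq, not_not] at h1 h2
    apply hw.2
    rw [← ord_nonneg w _ (mul_ne_zero hg0 (hε.ne w)), ord_mul w _ _ hg0 (hε.ne w), h1, h2]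
    rfl
  have hex : ∀ w : Place F κ, ∃ b : κ, w ∈ Bad → b ∈ BB F x ∧ b ≠ 0 ∧ w₁.ord b = 0 ∧
      (ε w₁)⁻¹ * ε w * b ∈ w.R := by
    intro w
    by_cases hw : w ∈ Bad
    · have hw' := hw
      rw [hBad] at hw'
      have hne : w ≠ w₁ := by
        rintro rfl
        apply hw'.2
        rw [inv_mul_cancel₀ (hε.ne w)]
        exact w.R.one_mem
      obtain ⟨b, h1, h2, h3, h4⟩ := xch_b htr hfg hx w₁ w hw₁ hw'.1 hne
        (w.ord ((ε w₁)⁻¹ * ε w)).natAbs
      refine ⟨b, fun _ => ⟨h1, h2, h3, ?_⟩⟩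
      have h5 := mul_ne_zero hg0 (hε.ne w)
      rw [← ord_nonneg w _ (mul_ne_zero h5 h2), ord_mul w _ _ h5 h2]
      omega
    · exact ⟨1, fun h => absurd h hw⟩
  choose b hb using hex
  have hT : ∀ T : Finset (Place F κ), (∀ w ∈ T, w ∈ Bad) →
      (∏ w ∈ T, b w) ≠ 0 ∧ w₁.ord (∏ w ∈ T, b w) = 0 ∧
        ∀ w : Place F κ, x ∈ w.R → (∏ w ∈ T, b w) ∈ w.R := by
    intro T
    induction T using Finset.induction_on with
    | empty =>
      intro _
      rw [Finset.prod_empty]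
      exact ⟨one_ne_zero, ord_one w₁, fun w _ => w.R.one_mem⟩
    | insert a T ha ih =>
      intro h
      obtain ⟨h1, h2, h3⟩ := ih fun w hw => h w (Finset.mem_insert_of_mem hw)
      obtain ⟨h4, h5, h6, -⟩ := hb a (h a (Finset.mem_insert_self a T))
      rw [Finset.prod_insert ha]
      refine ⟨mul_ne_zero h5 h1, ?_, fun w hw => w.R.mul_mem _ _ (bb_mem h4 w hw) (h3 w hw)⟩
      rw [ord_mul w₁ _ _ h5 h1, h6, h2, add_zero]
  obtain ⟨h1, h2, h3⟩ := hT hfin.toFinset fun w hw => hfin.mem_toFinset.1 hw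
  refine ⟨(ε w₁)⁻¹ * ∏ w ∈ hfin.toFinset, b w, mul_ne_zero hg0 h1, ?_, fun w hw => ?_⟩
  · have e : (ε w₁)⁻¹ * (∏ w ∈ hfin.toFinset, b w) * ε w₁ = ∏ w ∈ hfin.toFinset, b w := by
      have h4 := hε.ne w₁
      field_simp
    rw [e]
    exact h2
  · by_cases hwB : w ∈ Bad
    · have h4 : w ∈ hfin.toFinset := hfin.mem_toFinset.2 hwB
      have e : (ε w₁)⁻¹ * (∏ w ∈ hfin.toFinset, b w) * ε w =
          ((ε w₁)⁻¹ * ε w * b w) * ∏ v ∈ hfin.toFinset.erase w, b v := by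
        rw [← Finset.mul_prod_erase _ _ h4]
        ring
      rw [e]
      refine w.R.mul_mem _ _ (hb w hwB).2.2.2 ?_
      exact (hT (hfin.toFinset.erase w) fun v hv =>
        hfin.mem_toFinset.1 (Finset.mem_of_mem_erase hv)).2.2 w hw
    · have h4 : (ε w₁)⁻¹ * ε w ∈ w.R := by
        by_contra h5
        apply hwB
        rw [hBad]
        exact ⟨hw, h5⟩
      have e : (ε w₁)⁻¹ * (∏ w ∈ hfin.toFinset, b w) * ε w =
          ((ε w₁)⁻¹ * ε w) * ∏ v ∈ hfin.toFinset, b v := by ring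
      rw [e]
      exact w.R.mul_mem _ _ h4 (h3 w hw)

end Pool.Agent.H61.AB
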